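import Mathlib
import Pool.Agent.H713R5.QJ.TCURVE

/-!
Curves in a general family of polynomials along which the multipliers of indifferent cycles are
multiplied by `1 - t`.
-/

set_option autoImplicit false

open Topology Filter Metric Set Polynomial MeasureTheory
open Pool.Agent.H713R5.QJ

namespace Pool.Agent.K4H48.ST

namespace CG

open CURVE

/-- quantitative surjectivity near a point where the derivative is surjective (local version) -/
theorem solve {X Y : Type} [NormedAddCommGroup X] [NormedSpace ℂ X] [CompleteSpace X]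
    [NormedAddCommGroup Y] [NormedSpace ℂ Y] [CompleteSpace Y] (F : X → Y) (hF : ContDiffAt ℂ 1 F 0)
    (hs : ∀ w, ∃ v, fderiv ℂ F 0 v = w) :
    ∃ C ε : ℝ, 0 < C ∧ 0 < ε ∧ ∀ y, ‖y - F 0‖ ≤ ε → ∃ x, ‖x‖ ≤ C * ‖y - F 0‖ ∧ F x = y := by
  have h1 : HasStrictFDerivAt F (fderiv ℂ F 0) 0 := hF.hasStrictFDerivAt (by norm_num)
  have hr : (fderiv ℂ F 0).range = ⊤ := by
    rw [LinearMap.range_eq_top]
    exact fun w => hs w
  set R := (fderiv ℂ F 0).nonlinearRightInverseOfSurjective hr with hR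
  have hN : 0 < R.nnnorm := (fderiv ℂ F 0).nonlinearRightInverseOfSurjective_nnnorm_pos hr
  have hN' : (0 : ℝ) < (R.nnnorm : ℝ) := by exact_mod_cast hN
  obtain ⟨s, hs0, hap⟩ := h1.approximates_deriv_on_nhds (c := R.nnnorm⁻¹ / 2)
    (Or.inr (by positivity))
  obtain ⟨ε₁, hε₁, hsub⟩ := Metric.nhds_basis_closedBall.mem_iff.mp hs0
  refine ⟨2 * R.nnnorm, ε₁ / (2 * R.nnnorm), by positivity, by positivity, ?_⟩
  intro y hy
  have hy' : 2 * (R.nnnorm : ℝ) * ‖y - F 0‖ ≤ ε₁ := by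
    rw [le_div_iff₀ (by positivity)] at hy
    linarith
  have h2 := hap.surjOn_closedBall_of_nonlinearRightInverse R (ε := 2 * R.nnnorm * ‖y - F 0‖)
    (b := 0) (by positivity) ((closedBall_subset_closedBall hy').trans hsub)
  have h3 : y ∈ closedBall (F 0) (((R.nnnorm : ℝ)⁻¹ - ((R.nnnorm⁻¹ / 2 : NNReal) : ℝ)) *
      (2 * R.nnnorm * ‖y - F 0‖)) := by
    rw [mem_closedBall, dist_eq_norm]
    push_cast
    apply le_of_eq
    field_simp
    ring
  obtain ⟨x, hx, hxy⟩ := h2 h3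
  refine ⟨x, ?_, hxy⟩
  rwa [mem_closedBall, dist_zero_right] at hx

/-- the derivative of the value along a curve of polynomials -/
theorem line_gen {Q : ℂ → ℂ[X]} {N : ℕ} (hdeg : ∀ s, (Q s).natDegree ≤ N) {D : ℂ[X]}
    (hD : D.natDegree ≤ N) (h : ∀ j, HasDerivAt (fun s => (Q s).coeff j) (D.coeff j) 0) (z u : ℂ) :
    HasDerivAt (fun s => (Q s).eval (z + s * u))
      (D.eval z + (derivative (Q 0)).eval z * u) 0 := by
  have e4 : HasDerivAt (fun t : ℂ => z + t * u) u 0 := by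
    simpa using ((hasDerivAt_id (0 : ℂ)).mul_const u).const_add z
  have e5 : HasDerivAt (fun t : ℂ => ∑ j ∈ Finset.range (N + 1), (Q t).coeff j * (z + t * u) ^ j)
      (∑ j ∈ Finset.range (N + 1), (D.coeff j * (z + 0 * u) ^ j +
        (Q 0).coeff j * ((j : ℂ) * (z + 0 * u) ^ (j - 1) * u))) 0 :=
    HasDerivAt.fun_sum fun j _ => (h j).mul (e4.pow j)
  have e6 : (fun s => (Q s).eval (z + s * u)) =
      fun t : ℂ => ∑ j ∈ Finset.range (N + 1), (Q t).coeff j * (z + t * u) ^ j := by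
    funext t
    exact eval_eq_sum_range' (by have := hdeg t; omega) _
  rw [e6]
  refine e5.congr_deriv ?_
  rw [zero_mul, add_zero, Finset.sum_add_distrib]
  congr 1
  · exact (eval_eq_sum_range' (by omega) _).symm
  · rw [derivative_eval, sum_over_range' _ _ (N + 1) (by have := hdeg 0; omega), Finset.sum_mul]
    · apply Finset.sum_congr rfl
      intro j _
      ring
    · intro j
      simp

section

variable {V : Type} [NormedAddCommGroup V] [NormedSpace ℂ V] {P : V → ℂ[X]} {N : ℕ}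
  {Z : Finset ℂ}

theorem ev_cd (hdeg : ∀ v, (P v).natDegree ≤ N)
    (hcd : ∀ j, ContDiffAt ℂ 1 (fun v => (P v).coeff j) 0) (z : Z) :
    ContDiffAt ℂ 1 (fun x : V × (Z → ℂ) => (P x.1).eval ((z : ℂ) + x.2 z)) 0 := by
  have e6 : (fun x : V × (Z → ℂ) => (P x.1).eval ((z : ℂ) + x.2 z)) =
      fun x => ∑ j ∈ Finset.range (N + 1), (P x.1).coeff j * ((z : ℂ) + x.2 z) ^ j := by
    funext x
    exact eval_eq_sum_range' (by have := hdeg x.1; omega) _
  rw [e6]
  apply ContDiffAt.sum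
  intro j _
  have h1 : ContDiffAt ℂ 1 (fun x : V × (Z → ℂ) => (P x.1).coeff j) 0 :=
    ContDiffAt.comp (0 : V × (Z → ℂ)) (g := fun v => (P v).coeff j) (hcd j) contDiffAt_fst
  have h2 : ContDiffAt ℂ 1 (fun x : V × (Z → ℂ) => ((z : ℂ) + x.2 z) ^ j) 0 := by
    have : ContDiff ℂ 1 (fun x : V × (Z → ℂ) => ((z : ℂ) + x.2 z) ^ j) := by fun_prop
    exact this.contDiffAt
  exact h1.mul h2

variable (P) {T : ℂ[X]} (hZ : ∀ z ∈ Z, T.eval z ∈ Z)

/-- the equations of the cycles -/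
noncomputable def F1 (x : V × (Z → ℂ)) (z : Z) : ℂ :=
  (P x.1).eval ((z : ℂ) + x.2 z) - (T.eval (z : ℂ) + x.2 (sg hZ z))

/-- the derivative at a point of the cycle -/
noncomputable def G (x : V × (Z → ℂ)) (z : Z) : ℂ :=
  (derivative (P x.1)).eval ((z : ℂ) + x.2 z)

/-- the multipliers -/
noncomputable def F2 (x : V × (Z → ℂ)) (z : Z) : ℂ :=
  ∏ i ∈ Finset.range (Function.minimalPeriod (ev T) z), G P x ((sg hZ)^[i] z)

variable {P}

theorem der_deg (hdeg : ∀ v, (P v).natDegree ≤ N) (v : V) : (derivative (P v)).natDegree ≤ N :=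
  (natDegree_derivative_le _).trans ((Nat.sub_le _ _).trans (hdeg v))

theorem F1_cd (hdeg : ∀ v, (P v).natDegree ≤ N)
    (hcd : ∀ j, ContDiffAt ℂ 1 (fun v => (P v).coeff j) 0) (z : Z) :
    ContDiffAt ℂ 1 (fun x : V × (Z → ℂ) => F1 P hZ x z) 0 := by
  unfold F1
  have h2 : ContDiff ℂ 1 (fun x : V × (Z → ℂ) => T.eval (z : ℂ) + x.2 (sg hZ z)) := by fun_prop
  exact (ev_cd hdeg hcd z).sub h2.contDiffAt

theorem G_cd (hdeg : ∀ v, (P v).natDegree ≤ N)
    (hcd : ∀ j, ContDiffAt ℂ 1 (fun v => (P v).coeff j) 0) (z : Z) :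
    ContDiffAt ℂ 1 (fun x : V × (Z → ℂ) => G P x z) 0 := by
  unfold G
  refine ev_cd (P := fun v => derivative (P v)) (der_deg hdeg) (fun j => ?_) z
  simp only [coeff_derivative]
  exact (hcd (j + 1)).mul contDiffAt_const

theorem F2_cd (hdeg : ∀ v, (P v).natDegree ≤ N)
    (hcd : ∀ j, ContDiffAt ℂ 1 (fun v => (P v).coeff j) 0) (z : Z) :
    ContDiffAt ℂ 1 (fun x : V × (Z → ℂ) => F2 P hZ x z) 0 := by
  unfold F2
  exact contDiffAt_prod fun i _ => G_cd hdeg hcd _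

theorem F1_line (hdeg : ∀ v, (P v).natDegree ≤ N) (hP0 : P 0 = T) {D : ℂ[X]}
    (hDdeg : D.natDegree ≤ N) (v : V × (Z → ℂ))
    (hD : ∀ j, HasDerivAt (fun s : ℂ => (P (s • v.1)).coeff j) (D.coeff j) 0) (z : Z) :
    HasDerivAt (fun s : ℂ => F1 P hZ (s • v) z)
      (D.eval (z : ℂ) + (derivative T).eval (z : ℂ) * v.2 z - v.2 (sg hZ z)) 0 := by
  have h3 : HasDerivAt (fun s : ℂ => T.eval (z : ℂ) + s * v.2 (sg hZ z)) (v.2 (sg hZ z)) 0 := by
    simpa using ((hasDerivAt_id (0 : ℂ)).mul_const (v.2 (sg hZ z))).const_add (T.eval (z : ℂ))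
  have h1 := line_gen (Q := fun s => P (s • v.1)) (fun s => hdeg _) hDdeg hD (z : ℂ) (v.2 z)
  simp only [zero_smul, hP0] at h1
  exact h1.sub h3

theorem G_line (hdeg : ∀ v, (P v).natDegree ≤ N) (hP0 : P 0 = T) {D : ℂ[X]}
    (hDdeg : D.natDegree ≤ N) (v : V × (Z → ℂ))
    (hD : ∀ j, HasDerivAt (fun s : ℂ => (P (s • v.1)).coeff j) (D.coeff j) 0) (z : Z) :
    HasDerivAt (fun s : ℂ => G P (s • v) z)
      ((derivative D).eval (z : ℂ) + (derivative (derivative T)).eval (z : ℂ) * v.2 z) 0 := by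
  have h1 := line_gen (Q := fun s => derivative (P (s • v.1))) (fun s => der_deg hdeg _)
    (D := derivative D) ((natDegree_derivative_le _).trans ((Nat.sub_le _ _).trans hDdeg))
    (fun j => by
      simp only [coeff_derivative]
      exact (hD (j + 1)).mul_const _) (z : ℂ) (v.2 z)
  simp only [zero_smul, hP0] at h1
  exact h1

theorem G_zero (hP0 : P 0 = T) (z : Z) :
    G P (0 : V × (Z → ℂ)) z = (derivative T).eval (z : ℂ) := by
  simp [G, hP0]

theorem F1_zero (hP0 : P 0 = T) (z : Z) : F1 P hZ (0 : V × (Z → ℂ)) z = 0 := by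
  simp [F1, hP0]

theorem F2_line (hdeg : ∀ v, (P v).natDegree ≤ N) (hP0 : P 0 = T) {D : ℂ[X]}
    (hDdeg : D.natDegree ≤ N) (hne : ∀ z ∈ Z, (derivative T).eval z ≠ 0) (v : V × (Z → ℂ))
    (hD : ∀ j, HasDerivAt (fun s : ℂ => (P (s • v.1)).coeff j) (D.coeff j) 0) (z : Z) :
    HasDerivAt (fun s : ℂ => F2 P hZ (s • v) z)
      (F2 P hZ (0 : V × (Z → ℂ)) z *
        ∑ i ∈ Finset.range (Function.minimalPeriod (ev T) z),
          ((derivative D).eval (((sg hZ)^[i] z : Z) : ℂ) +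
            (derivative (derivative T)).eval (((sg hZ)^[i] z : Z) : ℂ) * v.2 ((sg hZ)^[i] z)) /
            (derivative T).eval (((sg hZ)^[i] z : Z) : ℂ)) 0 := by
  have h := HasDerivAt.fun_finsetProd (u := Finset.range (Function.minimalPeriod (ev T) z))
    (f := fun i s => G P (s • v) ((sg hZ)^[i] z)) (x := (0 : ℂ))
    (f' := fun i => (derivative D).eval (((sg hZ)^[i] z : Z) : ℂ) +
      (derivative (derivative T)).eval (((sg hZ)^[i] z : Z) : ℂ) *
      v.2 ((sg hZ)^[i] z))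
    (fun i _ => G_line hdeg hP0 hDdeg v hD _)
  refine h.congr_deriv ?_
  rw [Finset.mul_sum]
  apply Finset.sum_congr rfl
  intro i hi
  simp only [zero_smul, smul_eq_mul]
  have hG : G P (0 : V × (Z → ℂ)) ((sg hZ)^[i] z) ≠ 0 := by
    rw [G_zero hP0]; exact hne _ ((sg hZ)^[i] z).2
  have h2 : F2 P hZ (0 : V × (Z → ℂ)) z =
      G P (0 : V × (Z → ℂ)) ((sg hZ)^[i] z) *
      ∏ j ∈ (Finset.range (Function.minimalPeriod (ev T) z)).erase i,
        G P (0 : V × (Z → ℂ)) ((sg hZ)^[j] z) := by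
    unfold F2
    rw [Finset.mul_prod_erase _ (fun j => G P (0 : V × (Z → ℂ)) ((sg hZ)^[j] z)) hi]
  rw [h2, ← G_zero (P := P) hP0 ((sg hZ)^[i] z)]
  field_simp

theorem F2_inv (hinj : ∀ z ∈ Z, ∀ z' ∈ Z, T.eval z = T.eval z' → z = z')
    (x : V × (Z → ℂ)) (z : Z) : F2 P hZ x (sg hZ z) = F2 P hZ x z := by
  unfold F2
  have hN : Function.minimalPeriod (ev T) ((sg hZ z : Z) : ℂ) =
      Function.minimalPeriod (ev T) (z : ℂ) :=
    Function.minimalPeriod_apply (periodic hZ hinj z)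
  rw [hN]
  have hper : (sg hZ)^[Function.minimalPeriod (ev T) (z : ℂ)] z = z := by
    apply Subtype.ext
    rw [sg_iter]
    exact Function.iterate_minimalPeriod
  set N := Function.minimalPeriod (ev T) (z : ℂ) with hNdef
  clear_value N
  cases N with
  | zero => simp
  | succ N =>
    rw [Finset.prod_range_succ, Finset.prod_range_succ']
    congr 1
    rw [← Function.iterate_succ_apply, hper]
    rfl

/-- the invariant function, lifted -/
theorem F2_out (hinj : ∀ z ∈ Z, ∀ z' ∈ Z, T.eval z = T.eval z' → z = z')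
    (x : V × (Z → ℂ)) (z : Z) :
    F2 P hZ x (Quot.mk (rr hZ) z).out = F2 P hZ x z := by
  have h : ∀ a b, rr hZ a b → F2 P hZ x a = F2 P hZ x b := by
    rintro a _ rfl
    exact (F2_inv hZ hinj x a).symm
  have h1 : Quot.lift (F2 P hZ x) h (Quot.mk (rr hZ) (Quot.mk (rr hZ) z).out) =
      Quot.lift (F2 P hZ x) h (Quot.mk (rr hZ) z) := by rw [Quot.out_eq]
  exact h1

end

end CG

open CURVE CG in
theorem curveG {V : Type} [NormedAddCommGroup V] [NormedSpace ℂ V] [CompleteSpace V]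
    {P : V → ℂ[X]} {N : ℕ} (hdeg : ∀ v, (P v).natDegree ≤ N)
    (hcd : ∀ j, ContDiffAt ℂ 1 (fun v => (P v).coeff j) 0)
    {T : ℂ[X]} (hP0 : P 0 = T) {Dp : V → ℂ[X]} (hDdeg : ∀ v, (Dp v).natDegree ≤ N)
    (hD : ∀ v j, HasDerivAt (fun s : ℂ => (P (s • v)).coeff j) ((Dp v).coeff j) 0)
    (Z : Finset ℂ) (hCyc : Cyc T Z)
    (hsol : ∀ e κ : ℂ → ℂ, (∀ z ∈ Z, κ (T.eval z) = κ z) →
      ∃ (v : V) (u : ℂ → ℂ),
        (∀ z ∈ Z, u (T.eval z) - (derivative T).eval z * u z - (Dp v).eval z = e z) ∧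
        ∀ z ∈ Z, ∑ i ∈ Finset.range (Function.minimalPeriod (ev T) z),
          ((derivative (Dp v)).eval ((ev T)^[i] z) +
            (derivative (derivative T)).eval ((ev T)^[i] z) * u ((ev T)^[i] z)) /
            (derivative T).eval ((ev T)^[i] z) = κ z) :
    ∃ (t₀ C₀ : ℝ) (v : ℝ → V) (y : ℝ → ℂ → ℂ) (kk : ℂ → ℕ → ℕ), 0 < t₀ ∧ 0 < C₀ ∧
      (∀ z ∈ Z, ∀ p : ℕ, 0 < p → (ev T)^[p] z = z → 0 < kk z p) ∧
      ∀ t : ℝ, 0 ≤ t → t ≤ t₀ → ‖v t‖ ≤ C₀ * t ∧
      ∀ z ∈ Z, ‖y t z - z‖ ≤ C₀ * t ∧ (P (v t)).eval (y t z) = y t (T.eval z) ∧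
        ∀ p : ℕ, 0 < p → (ev T)^[p] z = z →
          deriv ((ev (P (v t)))^[p]) (y t z) =
            ((1 - t : ℝ) : ℂ) ^ (kk z p) * deriv ((ev T)^[p]) z := by
  classical
  obtain ⟨hZ, hinj, hne⟩ := hCyc
  let Cy : Type := Quot (rr hZ)
  haveI : Fintype Cy := Fintype.ofFinite _
  let F : V × (Z → ℂ) → (Z → ℂ) × (Cy → ℂ) := fun x =>
    (CG.F1 P hZ x, fun q => CG.F2 P hZ x q.out)
  have hFcd : ContDiffAt ℂ 1 F 0 :=
    (contDiffAt_pi.mpr fun z => CG.F1_cd hZ hdeg hcd z).prodMk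
      (contDiffAt_pi.mpr fun q => CG.F2_cd hZ hdeg hcd _)
  have hF20 : ∀ z : Z, CG.F2 P hZ (0 : V × (Z → ℂ)) z ≠ 0 := by
    intro z
    unfold CG.F2
    rw [Finset.prod_ne_zero_iff]
    intro i _
    rw [CG.G_zero hP0]
    exact hne _ ((sg hZ)^[i] z).2
  have hsurj : ∀ w, ∃ v, fderiv ℂ F 0 v = w := by
    rintro ⟨w1, w2⟩
    obtain ⟨h, u, he, hk⟩ := hsol (fun z => if h : z ∈ Z then - w1 ⟨z, h⟩ else 0)
      (fun z => if h : z ∈ Z then w2 (Quot.mk (rr hZ) ⟨z, h⟩) /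
        CG.F2 P hZ (0 : V × (Z → ℂ)) ⟨z, h⟩ else 0) (by
        intro z hz
        rw [dif_pos (hZ z hz), dif_pos hz]
        have h1 : (⟨T.eval z, hZ z hz⟩ : Z) = sg hZ ⟨z, hz⟩ := rfl
        rw [h1, CG.F2_inv hZ hinj, ← Quot.sound (show rr hZ ⟨z, hz⟩ (sg hZ ⟨z, hz⟩) from rfl)])
    refine ⟨(h, fun z => u z), ?_⟩
    set v : V × (Z → ℂ) := (h, fun z => u z) with hv
    have hline : HasDerivAt (fun s : ℂ => s • v) v 0 := by
      simpa using (hasDerivAt_id (0 : ℂ)).smul_const v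
    have hF0 : HasFDerivAt F (fderiv ℂ F 0) ((0 : ℂ) • v) := by
      rw [zero_smul]
      exact (hFcd.differentiableAt (by norm_num)).hasFDerivAt
    have hc : HasDerivAt (fun s : ℂ => F (s • v)) (fderiv ℂ F 0 v) 0 :=
      hF0.comp_hasDerivAt (0 : ℂ) hline
    have hDv : ∀ j, HasDerivAt (fun s : ℂ => (P (s • v.1)).coeff j) ((Dp h).coeff j) 0 := hD h
    have hc2 : HasDerivAt (fun s : ℂ => F (s • v)) (w1, w2) 0 := by
      apply HasDerivAt.prodMk
      · rw [hasDerivAt_pi]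
        intro z
        refine (CG.F1_line hZ hdeg hP0 (hDdeg h) v hDv z).congr_deriv ?_
        have h1 := he z z.2
        rw [dif_pos z.2] at h1
        simp only [hv]
        have h2 : ((sg hZ z : Z) : ℂ) = T.eval (z : ℂ) := rfl
        rw [h2]
        linear_combination -h1
      · rw [hasDerivAt_pi]
        intro q
        refine (CG.F2_line hZ hdeg hP0 (hDdeg h) hne v hDv q.out).congr_deriv ?_
        have h1 := hk q.out q.out.2
        rw [dif_pos q.out.2] at h1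
        simp only [hv, sg_iter]
        rw [h1]
        have h2 : Quot.mk (rr hZ) (⟨(q.out : ℂ), q.out.2⟩ : Z) = q := Quot.out_eq q
        rw [h2]
        field_simp [hF20]
    exact hc.unique hc2
  obtain ⟨C, ε, hC, hε, hsolve⟩ := CG.solve F hFcd hsurj
  set K : ℝ := ‖(fun q : Cy => CG.F2 P hZ (0 : V × (Z → ℂ)) q.out)‖ with hK
  have hK0 : 0 ≤ K := norm_nonneg _
  have hF0 : F 0 = (0, fun q => CG.F2 P hZ (0 : V × (Z → ℂ)) q.out) := by
    show (CG.F1 P hZ 0, _) = _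
    congr 1
    funext z
    exact CG.F1_zero hZ hP0 z
  have hex : ∀ t : ℝ, ∃ x : V × (Z → ℂ), 0 ≤ t → t ≤ ε / (K + 1) →
      ‖x‖ ≤ C * (K + 1) * t ∧
        F x = (0, fun q => ((1 - t : ℝ) : ℂ) * CG.F2 P hZ (0 : V × (Z → ℂ)) q.out) := by
    intro t
    by_cases ht : 0 ≤ t ∧ t ≤ ε / (K + 1)
    · have hn : ‖((0, fun q => ((1 - t : ℝ) : ℂ) * CG.F2 P hZ (0 : V × (Z → ℂ)) q.out) :
          (Z → ℂ) × (Cy → ℂ)) - F 0‖ = t * K := by
        rw [hF0, Prod.mk_sub_mk, sub_zero, Prod.norm_mk, norm_zero, max_eq_right (norm_nonneg _)]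
        have h1 : ((fun q => ((1 - t : ℝ) : ℂ) * CG.F2 P hZ (0 : V × (Z → ℂ)) q.out) -
            fun q => CG.F2 P hZ (0 : V × (Z → ℂ)) q.out : Cy → ℂ) =
            (-t : ℂ) • fun q => CG.F2 P hZ (0 : V × (Z → ℂ)) q.out := by
          funext q
          simp only [Pi.sub_apply, Pi.smul_apply, smul_eq_mul]
          push_cast
          ring
        rw [h1, norm_smul, norm_neg, Complex.norm_real, Real.norm_eq_abs, abs_of_nonneg ht.1]
      have hle : t * K ≤ ε := by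
        have := ht.2
        rw [le_div_iff₀ (by linarith)] at this
        nlinarith [ht.1]
      obtain ⟨x, hx1, hx2⟩ := hsolve _ (hn.le.trans hle)
      refine ⟨x, fun _ _ => ⟨hx1.trans ?_, hx2⟩⟩
      rw [hn]
      nlinarith [mul_nonneg hC.le ht.1]
    · exact ⟨0, fun h1 h2 => absurd ⟨h1, h2⟩ ht⟩
  choose x hx using hex
  refine ⟨ε / (K + 1), C * (K + 1), fun t => (x t).1,
    fun t w => w + (if h : w ∈ Z then (x t).2 ⟨w, h⟩ else 0),
    fun z p => p / Function.minimalPeriod (ev T) z, by positivity, by positivity, ?_, ?_⟩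
  · intro z hz p hp0 hpz
    have hper : Function.IsPeriodicPt (ev T) p z := hpz
    exact Nat.div_pos (Nat.le_of_dvd hp0 hper.minimalPeriod_dvd)
      (Function.minimalPeriod_pos_of_mem_periodicPts (Function.mk_mem_periodicPts hp0 hper))
  · intro t ht0 ht1
    obtain ⟨hxn, hxF⟩ := hx t ht0 ht1
    have hx1 : ∀ z : Z, CG.F1 P hZ (x t) z = 0 := fun z => congrFun (congrArg Prod.fst hxF) z
    have hx2 : ∀ z : Z, CG.F2 P hZ (x t) z =
        ((1 - t : ℝ) : ℂ) * CG.F2 P hZ (0 : V × (Z → ℂ)) z := by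
      intro z
      have h1 := congrFun (congrArg Prod.snd hxF) (Quot.mk (rr hZ) z)
      change CG.F2 P hZ (x t) (Quot.mk (rr hZ) z).out =
        ((1 - t : ℝ) : ℂ) * CG.F2 P hZ (0 : V × (Z → ℂ)) (Quot.mk (rr hZ) z).out at h1
      rwa [CG.F2_out hZ hinj, CG.F2_out hZ hinj] at h1
    have hn2 : ∀ z, ‖(x t).2 z‖ ≤ C * (K + 1) * t := fun z =>
      (norm_le_pi_norm _ z).trans ((norm_snd_le (x t)).trans hxn)
    refine ⟨(norm_fst_le (x t)).trans hxn, ?_⟩
    intro z hz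
    have hyz : ∀ w (hw : w ∈ Z), w + (if h : w ∈ Z then (x t).2 ⟨w, h⟩ else 0) =
        w + (x t).2 ⟨w, hw⟩ := fun w hw => by rw [dif_pos hw]
    have hstep : ∀ w (hw : w ∈ Z), (P (x t).1).eval (w + (x t).2 ⟨w, hw⟩) =
        T.eval w + (x t).2 ⟨T.eval w, hZ w hw⟩ := by
      intro w hw
      have := hx1 ⟨w, hw⟩
      unfold CG.F1 at this
      exact sub_eq_zero.mp this
    refine ⟨?_, ?_, ?_⟩
    · simp only [hyz z hz, add_sub_cancel_left]
      exact hn2 _
    · simp only [hyz z hz, hyz _ (hZ z hz)]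
      exact hstep z hz
    · intro p hp0 hpz
      have hit : ∀ i : ℕ, (ev (P (x t).1))^[i] (z + (x t).2 ⟨z, hz⟩) =
          (((sg hZ)^[i] ⟨z, hz⟩ : Z) : ℂ) + (x t).2 ((sg hZ)^[i] ⟨z, hz⟩) := by
        intro i
        induction i with
        | zero => rfl
        | succ i ih =>
          rw [Function.iterate_succ_apply', ih, Function.iterate_succ_apply']
          exact hstep _ ((sg hZ)^[i] ⟨z, hz⟩).2
      have hper : Function.IsPeriodicPt (ev T) p z := hpz
      have hdvd := hper.minimalPeriod_dvd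
      set N := Function.minimalPeriod (ev T) z with hN
      have hsgN : (sg hZ)^[N] ⟨z, hz⟩ = ⟨z, hz⟩ := by
        apply Subtype.ext
        rw [sg_iter]
        exact Function.iterate_minimalPeriod
      have hshift : ∀ i, (sg hZ)^[i + N] ⟨z, hz⟩ = (sg hZ)^[i] ⟨z, hz⟩ := by
        intro i
        rw [Function.iterate_add_apply, hsgN]
      have hpN : p = N * (p / N) := (Nat.mul_div_cancel' hdvd).symm
      have e1 : deriv ((ev (P (x t).1))^[p]) (z + (x t).2 ⟨z, hz⟩) =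
          (CG.F2 P hZ (x t) ⟨z, hz⟩) ^ (p / N) := by
        rw [deriv_iter]
        have : ∀ i, (derivative (P (x t).1)).eval ((ev (P (x t).1))^[i]
            (z + (x t).2 ⟨z, hz⟩)) = CG.G P (x t) ((sg hZ)^[i] ⟨z, hz⟩) := by
          intro i
          rw [hit i]
          rfl
        simp only [this]
        conv_lhs => rw [hpN]
        exact prod_periods _ N (p / N) (fun i => by rw [hshift])
      have e2 : deriv ((ev T)^[p]) z =
          (CG.F2 P hZ (0 : V × (Z → ℂ)) ⟨z, hz⟩) ^ (p / N) := by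
        rw [deriv_iter]
        have : ∀ i, (derivative T).eval ((ev T)^[i] z) =
            CG.G P (0 : V × (Z → ℂ)) ((sg hZ)^[i] ⟨z, hz⟩) := by
          intro i
          rw [CG.G_zero hP0, sg_iter]
        simp only [this]
        conv_lhs => rw [hpN]
        exact prod_periods _ N (p / N) (fun i => by rw [hshift])
      simp only [hyz z hz]
      rw [e1, e2, hx2, mul_pow]

end Pool.Agent.K4H48.ST
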