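import Mathlib
import Pool.Agent.K4H48.LF.Ndeg

/-!
Strata of polynomials with prescribed coincidences between critical points and critical values:
the frame of fields tangent to the strata.
-/

set_option autoImplicit false

open Topology Filter Metric Set Polynomial MeasureTheory
open Pool.Agent.H713R3.ZA Pool.Agent.H713R5.QJ Pool.Agent.K4H48.LF

namespace Pool.Agent.K4H48.ST

/-- critical value -/
noncomputable def vl (a : ℂ) (n : ℕ) (i : Fin n) (x : PE n) : ℂ := fx a n x (x (some i))

/-- pattern of coincidences: `c` picks representatives of equal critical points, `r` representatives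
of equal critical values -/
structure Pat (n : ℕ) (c r : Fin n → Fin n) : Prop where
  cc : ∀ i, c (c i) = c i
  cr : ∀ i, c (r i) = r i
  rr : ∀ i, r (r i) = r i
  rc : ∀ i, r (c i) = r i

/-- the coordinates -/
noncomputable def Ph (a b : ℂ) (n : ℕ) (c : Fin n → Fin n) (l : Option (Fin n)) (x : PE n) : ℂ :=
  match l with
  | none => cf a n n x - b
  | some i => if c i = i then vl a n i x else x (some i) - x (some (c i))

theorem vl_cd (a : ℂ) (n : ℕ) (i : Fin n) : ContDiff ℂ 1 (vl a n i) := by
  have h1 := contDiff_fx a n 1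
  have h2 : ContDiff ℂ 1 (fun x : PE n => ((x, x (some i)) : PE n × ℂ)) :=
    contDiff_id.prodMk (contDiff_coord n (some i))
  have h3 := h1.comp h2
  exact h3

theorem Ph_cd (a b : ℂ) (n : ℕ) (c : Fin n → Fin n) (l : Option (Fin n)) :
    ContDiff ℂ 1 (Ph a b n c l) := by
  rcases l with _ | i
  · exact (pfe_fam a n n).sub contDiff_const
  · by_cases h : c i = i
    · have : Ph a b n c (some i) = vl a n i := by
        funext x
        show (if c i = i then vl a n i x else x (some i) - x (some (c i))) = _
        rw [if_pos h]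
      rw [this]
      exact vl_cd a n i
    · have : Ph a b n c (some i) = fun x => x (some i) - x (some (c i)) := by
        funext x
        show (if c i = i then vl a n i x else x (some i) - x (some (c i))) = _
        rw [if_neg h]
      rw [this]
      exact (contDiff_coord n (some i)).sub (contDiff_coord n (some (c i)))

theorem Ph_diff (a b : ℂ) (n : ℕ) (c : Fin n → Fin n) (l : Option (Fin n)) :
    Differentiable ℂ (Ph a b n c l) := (Ph_cd a b n c l).differentiable (by norm_num)

/-- the covectors -/
noncomputable def Cv (a : ℂ) (n : ℕ) (c : Fin n → Fin n) (l : Option (Fin n)) (x : PE n) :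
    PE n →L[ℂ] ℂ := fderiv ℂ (Ph a 0 n c l) x

theorem Cv_eq (a b : ℂ) (n : ℕ) (c : Fin n → Fin n) (l : Option (Fin n)) (x : PE n) :
    fderiv ℂ (Ph a b n c l) x = Cv a n c l x := by
  rcases l with _ | i
  · have h1 : Ph a b n c none = fun x => cf a n n x - b := rfl
    have h2 : Ph a 0 n c none = fun x => cf a n n x - 0 := rfl
    unfold Cv
    rw [h1, h2, fderiv_sub_const, fderiv_sub_const]
  · rfl

theorem Cv_none (a : ℂ) (n : ℕ) (c : Fin n → Fin n) (x : PE n) :
    Cv a n c none x = fderiv ℂ (cf a n n) x := by
  have h2 : Ph a 0 n c none = fun x => cf a n n x - 0 := rfl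
  unfold Cv
  rw [h2, fderiv_sub_const]

theorem Cv_rep (a : ℂ) {n : ℕ} {c : Fin n → Fin n} {i : Fin n} (h : c i = i) (x : PE n) :
    Cv a n c (some i) x = fderiv ℂ (vl a n i) x := by
  have : Ph a 0 n c (some i) = vl a n i := by
    funext x
    show (if c i = i then vl a n i x else x (some i) - x (some (c i))) = _
    rw [if_pos h]
  unfold Cv
  rw [this]

theorem Cv_nrep (a : ℂ) {n : ℕ} {c : Fin n → Fin n} {i : Fin n} (h : c i ≠ i) (x w : PE n) :
    Cv a n c (some i) x w = w (some i) - w (some (c i)) := by
  have : Ph a 0 n c (some i) = fun x => x (some i) - x (some (c i)) := by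
    funext x
    show (if c i = i then vl a n i x else x (some i) - x (some (c i))) = _
    rw [if_neg h]
  unfold Cv
  rw [this]
  have h1 : HasFDerivAt (fun x : PE n => x (some i) - x (some (c i)))
      (ContinuousLinearMap.proj (R := ℂ) (φ := fun _ : Option (Fin n) => ℂ) (some i) -
        ContinuousLinearMap.proj (R := ℂ) (φ := fun _ : Option (Fin n) => ℂ) (some (c i))) x :=
    (ContinuousLinearMap.proj (R := ℂ) (φ := fun _ : Option (Fin n) => ℂ) (some i) -
        ContinuousLinearMap.proj (R := ℂ) (φ := fun _ : Option (Fin n) => ℂ) (some (c i))).hasFDerivAt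
  rw [h1.fderiv]
  rfl

/-- the matrix of the covectors -/
noncomputable def Nm (a : ℂ) (n : ℕ) (c : Fin n → Fin n) (x : PE n) :
    Matrix (Option (Fin n)) (Option (Fin n)) ℂ :=
  Matrix.of fun l k => Cv a n c l x (fun l' => if k = l' then 1 else 0)

theorem Nm_mulVec (a : ℂ) (n : ℕ) (c : Fin n → Fin n) (x w : PE n) (l : Option (Fin n)) :
    (Nm a n c x).mulVec w l = Cv a n c l x w := by
  rw [← clm_sum (Cv a n c l x) w]
  rfl

theorem Nm_diff (a : ℂ) (n : ℕ) (c : Fin n → Fin n) (l k : Option (Fin n)) :
    Differentiable ℂ (fun x => Nm a n c x l k) := by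
  have h := Pool.Agent.Helper540.differentiableOn_fderiv_apply isOpen_univ
    (Ph_diff a 0 n c l).differentiableOn (fun l' => if k = l' then 1 else 0)
  exact differentiableOn_univ.1 h

theorem det_diff {V ι : Type} [NormedAddCommGroup V] [NormedSpace ℂ V] [Fintype ι] [DecidableEq ι]
    {M : V → Matrix ι ι ℂ} (hM : ∀ i j, Differentiable ℂ fun x => M x i j) :
    Differentiable ℂ fun x => (M x).det := by
  simp only [Matrix.det_apply']
  apply Differentiable.fun_sum
  intro σ _
  apply Differentiable.const_mul
  have h := prod_diff (V := V) (Finset.univ : Finset ι) (fun i x => M x (σ i) i) (Ω := univ)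
    (fun i _ => (hM (σ i) i).differentiableOn)
  exact differentiableOn_univ.1 h

/-- the frame, multiplied by the determinant -/
noncomputable def Uf (a : ℂ) (n : ℕ) (c : Fin n → Fin n) (i : Fin n) (x : PE n) : PE n :=
  fun k => (Nm a n c x).adjugate k (some i)

theorem Uf_diff (a : ℂ) (n : ℕ) (c : Fin n → Fin n) (i : Fin n) :
    Differentiable ℂ (Uf a n c i) := by
  rw [differentiable_pi]
  intro k
  unfold Uf
  simp only [Matrix.adjugate_apply]
  apply det_diff
  intro i' j'
  by_cases h : i' = some i
  · subst h
    simp only [Matrix.updateRow_self]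
    exact differentiable_const _
  · simp only [Matrix.updateRow_ne h]
    exact Nm_diff a n c _ _

theorem Cv_Uf (a : ℂ) (n : ℕ) (c : Fin n → Fin n) (i : Fin n) (x : PE n) (l : Option (Fin n)) :
    Cv a n c l x (Uf a n c i x) = if l = some i then (Nm a n c x).det else 0 := by
  rw [← Nm_mulVec]
  have h := congrFun (congrFun (Matrix.mul_adjugate (Nm a n c x)) l) (some i)
  rw [Matrix.smul_apply, Matrix.one_apply, smul_eq_mul, mul_ite, mul_one, mul_zero] at h
  exact h

/-- uniqueness of polynomials with prescribed values and derivative vanishing at the nodes -/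
theorem uniq {n : ℕ} (x : Fin n → ℂ) (hn : 1 ≤ n) (h : ℂ[X]) (hdeg : h.natDegree < n)
    (hroot : ∀ i, h.eval (x i) = 0)
    (hdiv : ∀ α : ℂ, (X - C α) ^ (((Finset.univ : Finset (Fin n)).filter fun j => x j = α).card - 1)
      ∣ derivative h) : h = 0 := by
  classical
  by_contra hne
  have hd0 : derivative h ≠ 0 := by
    intro h0
    have := derivative_eq_zero.1 h0
    have e1 : h = C (h.coeff 0) := eq_C_of_natDegree_eq_zero this
    have e2 := hroot ⟨0, by omega⟩
    rw [e1, eval_C] at e2
    rw [e2, C_0] at e1
    exact hne e1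
  set s : Multiset ℂ := (Finset.univ : Finset (Fin n)).val.map x with hs
  have hle : s ≤ h.roots := by
    rw [Multiset.le_iff_count]
    intro α
    rw [count_roots]
    by_cases hα : ∃ i, x i = α
    · obtain ⟨i₀, hi₀⟩ := hα
      have hcount : Multiset.count α s =
          ((Finset.univ : Finset (Fin n)).filter fun j => x j = α).card := by
        rw [hs, Multiset.count_map]
        rw [Finset.card_def, Finset.filter_val]
        congr 1
        apply Multiset.filter_congr
        intro j _
        exact eq_comm
      have hroot' : h.IsRoot α := by rw [← hi₀]; exact hroot i₀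
      have e1 := derivative_rootMultiplicity_of_root hroot'
      have e2 : 0 < h.rootMultiplicity α := (rootMultiplicity_pos hne).2 hroot'
      have e3 : Multiset.count α s - 1 ≤ (derivative h).rootMultiplicity α := by
        rw [le_rootMultiplicity_iff hd0, hcount]
        exact hdiv α
      omega
    · have : Multiset.count α s = 0 := by
        rw [Multiset.count_eq_zero, hs, Multiset.mem_map]
        rintro ⟨i, -, hi⟩
        exact hα ⟨i, hi⟩
      omega
  have e1 := Multiset.card_le_card hle
  have e2 := card_roots' h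
  have e3 : Multiset.card s = n := by
    rw [hs, Multiset.card_map]
    simp
  omega

/-- derivatives along a line -/
theorem hlin {n : ℕ} (x w : PE n) (g : PE n → ℂ) (hg : Differentiable ℂ g) :
    HasDerivAt (fun t : ℂ => g (x + t • w)) (fderiv ℂ g x w) 0 := by
  have h3 : HasDerivAt (fun t : ℂ => x + t • w) w 0 := by
    have h3 := ((hasDerivAt_id (0 : ℂ)).smul_const w).const_add x
    simpa using h3
  have h4 : HasFDerivAt g (fderiv ℂ g x) (x + (0 : ℂ) • w) := by
    rw [zero_smul, add_zero]
    exact (hg x).hasFDerivAt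
  exact h4.comp_hasDerivAt (0 : ℂ) h3

/-- the first variation of the polynomial -/
noncomputable def vp (a : ℂ) (n : ℕ) (x w : PE n) : ℂ[X] :=
  ∑ j ∈ Finset.range (n + 2), C (fderiv ℂ (cf a n j) x w) * X ^ j

theorem vp_coeff (a : ℂ) (n : ℕ) (x w : PE n) (j : ℕ) :
    (vp a n x w).coeff j = fderiv ℂ (cf a n j) x w := by
  unfold vp
  rw [finsetSum_coeff]
  simp only [coeff_C_mul_X_pow]
  by_cases hj : j < n + 2
  · rw [Finset.sum_ite_eq (Finset.range (n + 2)) j, if_pos (Finset.mem_range.2 hj)]
  · rw [Finset.sum_ite_eq (Finset.range (n + 2)) j, if_neg (fun h => hj (Finset.mem_range.1 h))]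
    have : cf a n j = fun _ => 0 := by
      funext y
      exact coeff_eq_zero_of_natDegree_lt (by have := natDegree_fam_le a n y; omega)
    rw [this]
    simp

theorem vp_top (a : ℂ) (n : ℕ) (x w : PE n) : fderiv ℂ (cf a n (n + 1)) x w = 0 := by
  have : cf a n (n + 1) = fun _ => a := by
    funext y
    exact coeff_fam_top a n y
  rw [this]
  simp

theorem vp_deg {a : ℂ} {n : ℕ} (hn : 1 ≤ n) {x w : PE n} (h : fderiv ℂ (cf a n n) x w = 0) :
    (vp a n x w).natDegree < n := by
  have h1 : (vp a n x w).natDegree ≤ n - 1 := by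
    rw [natDegree_le_iff_coeff_eq_zero]
    intro j hj
    rw [vp_coeff]
    rcases Nat.lt_or_ge j (n + 2) with h3 | h3
    · rcases (by omega : j = n ∨ j = n + 1) with rfl | rfl
      · exact h
      · exact vp_top a n x w
    · have : cf a n j = fun _ => 0 := by
        funext y
        exact coeff_eq_zero_of_natDegree_lt (by have := natDegree_fam_le a n y; omega)
      rw [this]
      simp
  omega

theorem vp_eval (a : ℂ) (n : ℕ) (x w : PE n) (z : ℂ) :
    (vp a n x w).eval z = ∑ j ∈ Finset.range (n + 2), fderiv ℂ (cf a n j) x w * z ^ j := by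
  unfold vp
  rw [eval_finsetSum]
  simp

theorem vp_der (a : ℂ) (n : ℕ) (x w : PE n) : derivative (vp a n x w) =
    C (a * ((n : ℂ) + 1)) * ∑ k : Fin n,
      (∏ j ∈ Finset.univ.erase k, (X - C (x (some j)))) * C (-(w (some k))) := by
  classical
  apply Polynomial.funext
  intro z
  have h8 : HasDerivAt (fun t : ℂ => ∏ k : Fin n, (z - (x + t • w) (some k)))
      (∑ k : Fin n, (∏ j ∈ Finset.univ.erase k, (z - (x + (0 : ℂ) • w) (some j))) •
        (-(w (some k)))) 0 := by
    refine HasDerivAt.fun_finsetProd fun k _ => ?_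
    have h9 : HasDerivAt (fun t : ℂ => z - (x (some k) + t * w (some k))) (-(w (some k))) 0 := by
      have h10 := (((hasDerivAt_id (0 : ℂ)).mul_const (w (some k))).const_add
        (x (some k))).const_sub z
      simpa using h10
    exact h9
  have h6 : HasDerivAt (fun t : ℂ => ∑ m ∈ Finset.range (n + 1), ((m : ℂ) + 1) *
      (fam a n (x + t • w)).coeff (m + 1) * z ^ m)
      (∑ m ∈ Finset.range (n + 1), ((m : ℂ) + 1) * fderiv ℂ (cf a n (m + 1)) x w * z ^ m) 0 :=
    HasDerivAt.fun_sum fun m _ =>
      ((hlin x w (cf a n (m + 1)) (cf_diff a n (m + 1))).const_mul _).mul_const _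
  simp only [NDEG.eval_eq] at h6
  have h11 := (h8.const_mul (a * ((n : ℂ) + 1))).unique h6
  rw [zero_smul, add_zero] at h11
  simp only [smul_eq_mul] at h11
  simp only [eval_mul, eval_C, eval_finsetSum, eval_prod, eval_sub, eval_X]
  rw [h11]
  have h12 : derivative (vp a n x w) =
      ∑ j ∈ Finset.range (n + 2), C (fderiv ℂ (cf a n j) x w * j) * X ^ (j - 1) := by
    unfold vp
    rw [derivative_sum]
    apply Finset.sum_congr rfl
    intro j _
    rw [derivative_C_mul_X_pow]
  rw [h12, eval_finsetSum, Finset.sum_range_succ']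
  simp only [eval_mul, eval_C, eval_pow, eval_X, Nat.cast_zero, mul_zero, zero_mul, add_zero,
    Nat.add_sub_cancel]
  apply Finset.sum_congr rfl
  intro j _
  push_cast
  ring

theorem vp_div (a : ℂ) (n : ℕ) (x w : PE n) (α : ℂ) :
    (X - C α) ^ (((Finset.univ : Finset (Fin n)).filter fun j => x (some j) = α).card - 1)
      ∣ derivative (vp a n x w) := by
  classical
  rw [vp_der]
  apply Dvd.dvd.mul_left
  apply Finset.dvd_sum
  intro k _
  apply Dvd.dvd.mul_right
  have e4 : (X - C α) ^ (((Finset.univ.erase k).filter fun j : Fin n => x (some j) = α).card)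
      ∣ ∏ j ∈ Finset.univ.erase k, (X - C (x (some j))) := by
    rw [← Finset.prod_filter_mul_prod_filter_not (Finset.univ.erase k)
      (fun j : Fin n => x (some j) = α)]
    apply Dvd.dvd.mul_right
    rw [Finset.prod_congr rfl (g := fun _ => X - C α) (by
      intro j hj
      rw [(Finset.mem_filter.1 hj).2]), Finset.prod_const]
  refine (pow_dvd_pow _ ?_).trans e4
  rw [Finset.filter_erase]
  exact Finset.pred_card_le_card_erase

/-- the variation of a critical value -/
theorem vp_crit (a : ℂ) (n : ℕ) (x w : PE n) (i : Fin n) :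
    (vp a n x w).eval (x (some i)) = fderiv ℂ (vl a n i) x w := by
  have e2 := hlin x w _ ((vl_cd a n i).differentiable (by norm_num))
  have e3 : (fun t : ℂ => vl a n i (x + t • w)) = fun t : ℂ =>
      ∑ j ∈ Finset.range (n + 2), cf a n j (x + t • w) * (x (some i) + t * w (some i)) ^ j := by
    funext t
    show (fam a n (x + t • w)).eval ((x + t • w) (some i)) = _
    rw [eval_eq_sum_range' (n := n + 2) (by
      have := natDegree_fam_le a n (x + t • w); omega)]
    rfl
  have e4 : HasDerivAt (fun t : ℂ => x (some i) + t * w (some i)) (w (some i)) 0 := by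
    have h10 := ((hasDerivAt_id (0 : ℂ)).mul_const (w (some i))).const_add (x (some i))
    simpa using h10
  have e5 : HasDerivAt (fun t : ℂ =>
      ∑ j ∈ Finset.range (n + 2), cf a n j (x + t • w) * (x (some i) + t * w (some i)) ^ j)
      (∑ j ∈ Finset.range (n + 2),
        (fderiv ℂ (cf a n j) x w * (x (some i) + 0 * w (some i)) ^ j +
        cf a n j (x + (0 : ℂ) • w) * ((j : ℂ) * (x (some i) + 0 * w (some i)) ^ (j - 1) *
          w (some i)))) 0 :=
    HasDerivAt.fun_sum fun j _ => (hlin x w (cf a n j) (cf_diff a n j)).mul (e4.pow j)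
  rw [e3] at e2
  have e6 := e5.unique e2
  rw [zero_mul, add_zero, zero_smul, add_zero, Finset.sum_add_distrib, ← vp_eval] at e6
  have e7 : ∑ j ∈ Finset.range (n + 2), cf a n j x * ((j : ℂ) * x (some i) ^ (j - 1) *
      w (some i)) = (derivative (fam a n x)).eval (x (some i)) * w (some i) := by
    rw [derivative_eval, sum_over_range' _ _ (n + 2) (by
      have := natDegree_fam_le a n x; omega), Finset.sum_mul]
    · apply Finset.sum_congr rfl
      intro j _
      show (fam a n x).coeff j * _ = _
      ring
    · intro j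
      simp
  rw [e7, derivative_fam] at e6
  have e8 : (dfam a n x).eval (x (some i)) = 0 := by
    unfold dfam
    rw [eval_mul, eval_prod, Finset.prod_eq_zero (Finset.mem_univ i) (by simp), mul_zero]
  rw [e8, zero_mul, add_zero] at e6
  exact e6

/-- nondegeneracy of the coordinates -/
theorem inj_of (a : ℂ) {n : ℕ} (ha : a ≠ 0) (hn : 1 ≤ n) (c : Fin n → Fin n)
    (hcc : ∀ i, c (c i) = c i) (x w : PE n)
    (h1 : ∀ i, x (some i) = x (some (c i))) (h2 : ∀ i j, x (some i) = x (some j) → c i = c j)
    (hw : ∀ l, Cv a n c l x w = 0) : w = 0 := by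
  classical
  -- equal critical points move together
  have hwc : ∀ i, w (some i) = w (some (c i)) := by
    intro i
    by_cases h : c i = i
    · rw [h]
    · have := hw (some i)
      rw [Cv_nrep a h] at this
      exact sub_eq_zero.1 this
  have hsep : ∀ i j, x (some i) = x (some j) → w (some i) = w (some j) := by
    intro i j hij
    rw [hwc i, hwc j, h2 i j hij]
  have hdcn : fderiv ℂ (cf a n n) x w = 0 := by
    have := hw none
    rw [Cv_none] at this
    exact this
  have hroot : ∀ i, (vp a n x w).eval (x (some i)) = 0 := by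
    intro i
    rw [h1 i, vp_crit, ← Cv_rep a (hcc i)]
    exact hw _
  have hzero := uniq (fun i => x (some i)) hn (vp a n x w) (vp_deg hn hdcn) hroot
    (vp_div a n x w)
  apply ndegV n a x w ha hsep
  intro j
  have := vp_coeff a n x w j
  rw [hzero, coeff_zero] at this
  exact this.symm

end Pool.Agent.K4H48.ST
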