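import Mathlib
import Pool.Agent.K4H48.ST.Frame

/-!
Identity theorem on the strata.
-/

set_option autoImplicit false

open Topology Filter Metric Set Polynomial MeasureTheory
open Pool.Agent.H713R3.ZA Pool.Agent.H713R5.QJ Pool.Agent.K4H48.LF

namespace Pool.Agent.K4H48.ST

/-- the discriminant of the pattern -/
noncomputable def Dd (n : ℕ) (c : Fin n → Fin n) (x : PE n) : ℂ :=
  ∏ p ∈ (Finset.univ : Finset (Fin n × Fin n)).filter (fun p => c p.1 ≠ c p.2),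
    (x (some p.1) - x (some p.2))

theorem Dd_diff (n : ℕ) (c : Fin n → Fin n) : Differentiable ℂ (Dd n c) := by
  have h : ContDiff ℂ 1 (Dd n c) := by
    unfold Dd
    apply contDiff_prod
    intro p _
    exact (contDiff_coord n (some p.1)).sub (contDiff_coord n (some p.2))
  exact h.differentiable (by norm_num)

theorem Dd_ne {n : ℕ} {c : Fin n → Fin n} {x : PE n} :
    Dd n c x ≠ 0 ↔ ∀ i j, x (some i) = x (some j) → c i = c j := by
  unfold Dd
  rw [Finset.prod_ne_zero_iff]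
  constructor
  · intro h i j hij
    by_contra hne
    exact h (i, j) (by simp [hne]) (sub_eq_zero.2 hij)
  · rintro h ⟨i, j⟩ hp
    simp only [Finset.mem_filter] at hp
    exact fun h0 => hp.2 (h i j (sub_eq_zero.1 h0))

/-- the stratum (closed set) -/
def Sg (a b : ℂ) (n : ℕ) (c r : Fin n → Fin n) : Set (PE n) :=
  {x | (∀ i, x (some i) = x (some (c i))) ∧ (∀ i, vl a n i x = vl a n (r i) x) ∧ cf a n n x = b}

theorem Sg_closed (a b : ℂ) (n : ℕ) (c r : Fin n → Fin n) : IsClosed (Sg a b n c r) := by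
  have h1 : ∀ i, Continuous (vl a n i) := fun i => (vl_cd a n i).continuous
  have h2 : Sg a b n c r = (⋂ i, {x | x (some i) = x (some (c i))}) ∩
      ((⋂ i, {x | vl a n i x = vl a n (r i) x}) ∩ {x | cf a n n x = b}) := by
    ext x
    simp only [Sg, mem_ofPred_eq, mem_inter_iff, mem_iInter]
  rw [h2]
  apply IsClosed.inter
  · exact isClosed_iInter fun i => isClosed_eq (continuous_apply _) (continuous_apply _)
  · exact (isClosed_iInter fun i => isClosed_eq (h1 _) (h1 _)).inter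
      (isClosed_eq (cf_diff a n n).continuous continuous_const)

/-- the linear subspace -/
def La (n : ℕ) (c r : Fin n → Fin n) : Submodule ℂ (PE n) where
  carrier := {z | (∀ i, c i ≠ i → z (some i) = 0) ∧ (∀ i, c i = i → z (some i) = z (some (r i))) ∧
    z none = 0}
  add_mem' := by
    rintro z w ⟨h1, h2, h5⟩ ⟨h3, h4, h6⟩
    refine ⟨fun i hi => ?_, fun i hi => ?_, ?_⟩
    · show z (some i) + w (some i) = 0
      rw [h1 i hi, h3 i hi, add_zero]
    · show z (some i) + w (some i) = z (some (r i)) + w (some (r i))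
      rw [h2 i hi, h4 i hi]
    · show z none + w none = 0
      rw [h5, h6, add_zero]
  zero_mem' := ⟨fun _ _ => rfl, fun _ _ => rfl, rfl⟩
  smul_mem' := by
    rintro k z ⟨h1, h2, h5⟩
    refine ⟨fun i hi => ?_, fun i hi => ?_, ?_⟩
    · show k * z (some i) = 0
      rw [h1 i hi, mul_zero]
    · show k * z (some i) = k * z (some (r i))
      rw [h2 i hi]
    · show k * z none = 0
      rw [h5, mul_zero]

theorem vl_c {a : ℂ} {n : ℕ} {c : Fin n → Fin n} {x : PE n}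
    (h : ∀ i, x (some i) = x (some (c i))) (i : Fin n) : vl a n i x = vl a n (c i) x := by
  unfold vl
  rw [← h i]

theorem mem_Sg {a b : ℂ} {n : ℕ} {c r : Fin n → Fin n} (hp : Pat n c r) (x : PE n) :
    x ∈ Sg a b n c r ↔ (fun l => Ph a b n c l x) ∈ La n c r := by
  have hrep : ∀ i, c i = i → Ph a b n c (some i) x = vl a n i x := fun i hi => by
    show (if c i = i then vl a n i x else x (some i) - x (some (c i))) = _
    rw [if_pos hi]
  have hnrep : ∀ i, c i ≠ i → Ph a b n c (some i) x = x (some i) - x (some (c i)) := fun i hi => by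
    show (if c i = i then vl a n i x else x (some i) - x (some (c i))) = _
    rw [if_neg hi]
  constructor
  · rintro ⟨h1, h2, h3⟩
    refine ⟨fun i hi => ?_, fun i hi => ?_, ?_⟩
    · show Ph a b n c (some i) x = 0
      rw [hnrep i hi, h1 i, sub_self]
    · show Ph a b n c (some i) x = Ph a b n c (some (r i)) x
      rw [hrep i hi, hrep _ (hp.cr i)]
      exact h2 i
    · show cf a n n x - b = 0
      rw [h3, sub_self]
  · rintro ⟨h1, h2, h3⟩
    have e1 : ∀ i, x (some i) = x (some (c i)) := by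
      intro i
      by_cases hi : c i = i
      · rw [hi]
      · have := h1 i hi
        simp only at this
        rw [hnrep i hi] at this
        exact sub_eq_zero.1 this
    refine ⟨e1, fun i => ?_, sub_eq_zero.1 h3⟩
    have e2 := h2 (c i) (hp.cc i)
    simp only at e2
    rw [hrep _ (hp.cc i), hrep _ (hp.cr _), hp.rc i] at e2
    rw [vl_c e1 i, e2]

/-- the coordinates as a map -/
noncomputable def Fm (a b : ℂ) (n : ℕ) (c : Fin n → Fin n) (x : PE n) : PE n :=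
  fun l => Ph a b n c l x

theorem Fm_cd (a b : ℂ) (n : ℕ) (c : Fin n → Fin n) : ContDiff ℂ 1 (Fm a b n c) := by
  rw [contDiff_pi]
  exact fun l => Ph_cd a b n c l

theorem chart {a b : ℂ} {n : ℕ} {c r : Fin n → Fin n} (ha : a ≠ 0) (hn : 1 ≤ n)
    (hp : Pat n c r) {O : Set (PE n)} (hO : IsOpen O)
    {y : PE n} (hy : y ∈ O) (hyS : y ∈ Sg a b n c r) (hD : Dd n c y ≠ 0) :
    ∃ (ψ : PE n → PE n) (ε : ℝ) (U : Set (PE n)), 0 < ε ∧ IsOpen U ∧ y ∈ U ∧
      (∀ z ∈ ball (Fm a b n c y) ε, DifferentiableAt ℂ ψ z ∧ ψ z ∈ O ∧ Fm a b n c (ψ z) = z) ∧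
      ∀ x ∈ U, Fm a b n c x ∈ ball (Fm a b n c y) ε ∧ ψ (Fm a b n c x) = x := by
  classical
  set F : PE n → PE n := Fm a b n c with hF
  have hFc : ContDiff ℂ 1 F := Fm_cd a b n c
  -- the derivative
  set L : PE n →L[ℂ] PE n := fderiv ℂ F y with hL
  have hLap : ∀ w l, L w l = Cv a n c l y w := by
    intro w l
    have h1 : HasFDerivAt F (ContinuousLinearMap.pi fun l => Cv a n c l y) y := by
      rw [hasFDerivAt_pi]
      intro l
      rw [← Cv_eq a b n c l y]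
      exact (Ph_diff a b n c l y).hasFDerivAt
    rw [hL, h1.fderiv]
    rfl
  have hinj : Function.Injective L := by
    rw [injective_iff_map_eq_zero]
    intro w hw
    apply inj_of a ha hn c hp.cc y w hyS.1 (Dd_ne.1 hD)
    intro l
    rw [← hLap, hw]
    rfl
  have hker : LinearMap.ker (L : PE n →ₗ[ℂ] PE n) = ⊥ := LinearMap.ker_eq_bot.2 hinj
  have hsurj : Function.Surjective L := LinearMap.surjective_of_injective
    (f := (L : PE n →ₗ[ℂ] PE n)) hinj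
  set Le : PE n ≃L[ℂ] PE n := ContinuousLinearEquiv.ofBijective L hker
    (LinearMap.range_eq_top.2 hsurj) with hLe
  have hLeL : (Le : PE n →L[ℂ] PE n) = L := ContinuousLinearEquiv.coe_ofBijective _ _ _
  have hFd : HasFDerivAt F (Le : PE n →L[ℂ] PE n) y := by
    rw [hLeL]
    exact (hFc.differentiable (by norm_num) y).hasFDerivAt
  have hFat : ContDiffAt ℂ 1 F y := hFc.contDiffAt
  have h10 : (1 : WithTop ℕ∞) ≠ 0 := one_ne_zero
  set e := hFat.toOpenPartialHomeomorph F hFd h10 with he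
  have hye : y ∈ e.source := hFat.mem_toOpenPartialHomeomorph_source hFd h10
  set ψ : PE n → PE n := fun z => e.symm z with hψ
  have hψc : ContDiffAt ℂ 1 ψ (F y) := hFat.to_localInverse hFd h10
  have hψy : ψ (F y) = y := e.left_inv hye
  have hev : ∀ᶠ z in 𝓝 (F y), z ∈ e.target ∧ DifferentiableAt ℂ ψ z ∧ ψ z ∈ O := by
    have h0 : ∀ᶠ z in 𝓝 (F y), z ∈ e.target := e.open_target.mem_nhds (e.map_source hye)
    refine h0.and (Eventually.and ?_ ?_)
    · have h1 := hψc.eventually (by simp)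
      filter_upwards [h1] with z hz
      exact hz.differentiableAt h10
    · apply hψc.continuousAt
      rw [hψy]
      exact hO.mem_nhds hy
  obtain ⟨ε, hε, hball⟩ := Metric.eventually_nhds_iff_ball.1 hev
  refine ⟨ψ, ε, e.source ∩ F ⁻¹' ball (F y) ε, hε,
    e.open_source.inter (isOpen_ball.preimage hFc.continuous), ⟨hye, mem_ball_self hε⟩, ?_, ?_⟩
  · intro z hz
    obtain ⟨h1, h2, h3⟩ := hball z hz
    exact ⟨h2, h3, e.right_inv h1⟩
  · rintro x ⟨hx1, hx2⟩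
    exact ⟨hx2, e.left_inv hx1⟩

theorem local_id (hIDEN : StIDEN) {a b : ℂ} {n : ℕ} {c r : Fin n → Fin n} (ha : a ≠ 0) (hn : 1 ≤ n)
    (hp : Pat n c r) {O : Set (PE n)} (hO : IsOpen O) {g : PE n → ℂ} (hg : DifferentiableOn ℂ g O)
    {y : PE n} (hy : y ∈ O) (hyS : y ∈ Sg a b n c r) (hD : Dd n c y ≠ 0) :
    ∃ U : Set (PE n), IsOpen U ∧ y ∈ U ∧
      ((∃ x₀ ∈ U ∩ Sg a b n c r, ∀ᶠ x in 𝓝[Sg a b n c r] x₀, g x = 0) →
        ∀ x ∈ U ∩ Sg a b n c r, g x = 0) := by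
  classical
  obtain ⟨ψ, ε, U, hε, hUo, hyU, hball, hU⟩ := chart ha hn hp hO hy hyS hD
  refine ⟨U, hUo, hyU, ?_⟩
  rintro ⟨x₀, ⟨hx₀U, hx₀S⟩, hx₀⟩
  have hx₀L : Fm a b n c x₀ ∈ La n c r := (mem_Sg hp x₀).1 hx₀S
  have hx₀b := (hU x₀ hx₀U).1
  -- the function on the linear subspace
  set Ω' : Set (La n c r) := {z | (z : PE n) ∈ ball (Fm a b n c y) ε} with hΩ'
  have hΩ'o : IsOpen Ω' := isOpen_ball.preimage continuous_subtype_val
  have hΩ'c : IsPreconnected Ω' := by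
    have h1 : Convex ℝ (ball (Fm a b n c y) ε) := convex_ball _ _
    have h2 : Convex ℝ Ω' := by
      intro z hz w hw s t hs ht hst
      exact h1 hz hw hs ht hst
    exact h2.isPreconnected
  have hGd : DifferentiableOn ℂ (fun z : La n c r => g (ψ z)) Ω' := by
    intro z hz
    obtain ⟨h2, h3, -⟩ := hball z hz
    have h4 : DifferentiableAt ℂ g (ψ z) := (hg _ h3).differentiableAt (hO.mem_nhds h3)
    have h5 : DifferentiableAt ℂ (fun z : La n c r => (z : PE n)) z :=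
      (La n c r).subtypeL.differentiableAt
    exact (h4.comp z (h2.comp z h5)).differentiableWithinAt
  have hz₀ : ∀ᶠ z : La n c r in 𝓝 (⟨Fm a b n c x₀, hx₀L⟩ : La n c r), g (ψ z) = 0 := by
    have h1 : Tendsto (fun z : La n c r => ψ z) (𝓝 ⟨Fm a b n c x₀, hx₀L⟩)
        (𝓝[Sg a b n c r] x₀) := by
      apply tendsto_nhdsWithin_of_tendsto_nhds_of_eventually_within
      · have h2 : ContinuousAt ψ (Fm a b n c x₀) := (hball _ hx₀b).1.continuousAt
        have h3 : ψ (Fm a b n c x₀) = x₀ := (hU x₀ hx₀U).2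
        have h4 : Tendsto (fun z : La n c r => (z : PE n)) (𝓝 ⟨Fm a b n c x₀, hx₀L⟩)
            (𝓝 (Fm a b n c x₀)) := continuous_subtype_val.continuousAt
        have h5 := h2.tendsto.comp h4
        rw [h3] at h5
        exact h5
      · have h2 : Ω' ∈ 𝓝 (⟨Fm a b n c x₀, hx₀L⟩ : La n c r) := hΩ'o.mem_nhds hx₀b
        filter_upwards [h2] with z hz
        rw [mem_Sg hp]
        have h3 : Fm a b n c (ψ z) = z := (hball _ hz).2.2
        show Fm a b n c (ψ z) ∈ La n c r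
        rw [h3]
        exact z.2
    exact h1.eventually hx₀
  have hall := hIDEN (La n c r) Ω' (fun z => g (ψ z)) hΩ'o hΩ'c hGd ⟨Fm a b n c x₀, hx₀L⟩ hx₀b hz₀
  rintro x ⟨hxU, hxS⟩
  have h1 := hall ⟨Fm a b n c x, (mem_Sg hp x).1 hxS⟩ (hU x hxU).1
  have h2 : ψ (Fm a b n c x) = x := (hU x hxU).2
  simp only [h2] at h1
  exact h1

/-- the stratum is locally connected -/
theorem local_conn {a b : ℂ} {n : ℕ} {c r : Fin n → Fin n} (ha : a ≠ 0) (hn : 1 ≤ n)
    (hp : Pat n c r) {O : Set (PE n)} (hO : IsOpen O)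
    {y : PE n} (hy : y ∈ O) (hyS : y ∈ Sg a b n c r) (hD : Dd n c y ≠ 0) :
    ∃ U : Set (PE n), IsOpen U ∧ y ∈ U ∧ ∀ x ∈ U ∩ Sg a b n c r,
      x ∈ connectedComponentIn {x | x ∈ O ∧ x ∈ Sg a b n c r ∧ Dd n c x ≠ 0} y := by
  have hO' : IsOpen (O ∩ {x | Dd n c x ≠ 0}) :=
    hO.inter (isOpen_ne_fun (Dd_diff n c).continuous continuous_const)
  obtain ⟨ψ, ε, U, hε, hUo, hyU, hball, hU⟩ := chart ha hn hp hO' ⟨hy, hD⟩ hyS hD
  refine ⟨U, hUo, hyU, ?_⟩
  rintro x ⟨hxU, hxS⟩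
  set S : Set (PE n) := ball (Fm a b n c y) ε ∩ (La n c r : Set (PE n)) with hS
  have hSc : IsPreconnected S := by
    have h1 : Convex ℝ (ball (Fm a b n c y) ε) := convex_ball _ _
    have h2 : Convex ℝ (La n c r : Set (PE n)) := by
      intro z hz w hw s t hs ht hst
      have e1 : ((s : ℂ) • z + (t : ℂ) • w) ∈ La n c r :=
        (La n c r).add_mem ((La n c r).smul_mem _ hz) ((La n c r).smul_mem _ hw)
      exact e1
    exact (h1.inter h2).isPreconnected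
  have hψc : ContinuousOn ψ S := fun z hz => (hball z hz.1).1.continuousAt.continuousWithinAt
  have him := hSc.image ψ hψc
  have hsub : ψ '' S ⊆ {x | x ∈ O ∧ x ∈ Sg a b n c r ∧ Dd n c x ≠ 0} := by
    rintro _ ⟨z, ⟨hz1, hz2⟩, rfl⟩
    obtain ⟨-, h2, h3⟩ := hball z hz1
    refine ⟨h2.1, ?_, h2.2⟩
    rw [mem_Sg hp]
    show Fm a b n c (ψ z) ∈ La n c r
    rw [h3]
    exact hz2
  have hmem : ∀ x ∈ U, x ∈ Sg a b n c r → x ∈ ψ '' S := fun x hx hxS =>
    ⟨Fm a b n c x, ⟨(hU x hx).1, (mem_Sg hp x).1 hxS⟩, (hU x hx).2⟩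
  exact him.subset_connectedComponentIn (hmem y hyU hyS) hsub (hmem x hxU hxS)

theorem iden_st (hIDEN : StIDEN) {a b : ℂ} {n : ℕ} {c r : Fin n → Fin n} (ha : a ≠ 0) (hn : 1 ≤ n)
    (hp : Pat n c r) {O Ω : Set (PE n)} (hO : IsOpen O) {g : PE n → ℂ} (hg : DifferentiableOn ℂ g O)
    (hΩ : IsPreconnected Ω) (hΩO : ∀ x ∈ Ω, x ∈ O ∧ x ∈ Sg a b n c r ∧ Dd n c x ≠ 0)
    {y₁ : PE n} (hy₁ : y₁ ∈ Ω) (h0 : ∀ᶠ x in 𝓝[Sg a b n c r] y₁, g x = 0) : ∀ x ∈ Ω, g x = 0 := by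
  classical
  have hloc : ∀ y : PE n, ∃ U : Set (PE n), IsOpen U ∧ (y ∈ Ω → y ∈ U) ∧
      ((∃ x₀ ∈ U ∩ Sg a b n c r, ∀ᶠ x in 𝓝[Sg a b n c r] x₀, g x = 0) →
        ∀ x ∈ U ∩ Sg a b n c r, g x = 0) := by
    intro y
    by_cases hy : y ∈ Ω
    · obtain ⟨h1, h2, h3⟩ := hΩO y hy
      obtain ⟨U, hU, hyU, h⟩ := local_id hIDEN ha hn hp hO hg h1 h2 h3
      exact ⟨U, hU, fun _ => hyU, h⟩
    · exact ⟨∅, isOpen_empty, fun h => absurd h hy, by rintro ⟨x₀, ⟨h, -⟩, -⟩; exact absurd h (notMem_empty _)⟩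
  choose U hUo hUm hU using hloc
  set Z : Set (PE n) := {y | ∀ᶠ x in 𝓝[Sg a b n c r] y, g x = 0} with hZ
  set A : Set (PE n) := ⋃ y ∈ Ω ∩ Z, U y with hA
  set B : Set (PE n) := ⋃ y ∈ Ω \ Z, U y with hB
  have hAo : IsOpen A := isOpen_biUnion fun y _ => hUo y
  have hBo : IsOpen B := isOpen_biUnion fun y _ => hUo y
  -- the points of `A` in the stratum are in `Z`, those of `B` are not
  have hAZ : ∀ x ∈ Ω, x ∈ A → x ∈ Z := by
    intro x hx hxA
    rw [hA, mem_iUnion₂] at hxA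
    obtain ⟨y, ⟨hy, hyZ⟩, hxU⟩ := hxA
    have h1 := hU y ⟨y, ⟨hUm y hy, (hΩO y hy).2.1⟩, hyZ⟩
    show ∀ᶠ x in 𝓝[Sg a b n c r] x, g x = 0
    filter_upwards [mem_nhdsWithin_of_mem_nhds ((hUo y).mem_nhds hxU), self_mem_nhdsWithin]
      with z hz hz'
    exact h1 z ⟨hz, hz'⟩
  have hBZ : ∀ x ∈ Ω, x ∈ B → x ∉ Z := by
    intro x hx hxB hxZ
    rw [hB, mem_iUnion₂] at hxB
    obtain ⟨y, ⟨hy, hyZ⟩, hxU⟩ := hxB
    have h1 := hU y ⟨x, ⟨hxU, (hΩO x hx).2.1⟩, hxZ⟩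
    apply hyZ
    show ∀ᶠ x in 𝓝[Sg a b n c r] y, g x = 0
    filter_upwards [mem_nhdsWithin_of_mem_nhds ((hUo y).mem_nhds (hUm y hy)), self_mem_nhdsWithin]
      with z hz hz'
    exact h1 z ⟨hz, hz'⟩
  have hcov : Ω ⊆ A ∪ B := by
    intro x hx
    by_cases h : x ∈ Z
    · exact Or.inl (mem_iUnion₂.2 ⟨x, ⟨hx, h⟩, hUm x hx⟩)
    · exact Or.inr (mem_iUnion₂.2 ⟨x, ⟨hx, h⟩, hUm x hx⟩)
  have hy₁A : (Ω ∩ A).Nonempty := ⟨y₁, hy₁, mem_iUnion₂.2 ⟨y₁, ⟨hy₁, h0⟩, hUm y₁ hy₁⟩⟩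
  have hBe : ¬ (Ω ∩ B).Nonempty := by
    intro h
    obtain ⟨x, hx, hxA, hxB⟩ := hΩ A B hAo hBo hcov hy₁A h
    exact hBZ x hx hxB (hAZ x hx hxA)
  intro x hx
  have hxA : x ∈ A := by
    rcases hcov hx with h | h
    · exact h
    · exact absurd ⟨x, hx, h⟩ hBe
  have hxZ : x ∈ Z := hAZ x hx hxA
  have h1 : ∀ᶠ z in 𝓝[Sg a b n c r] x, g z = 0 := hxZ
  exact h1.self_of_nhdsWithin (hΩO x hx).2.1

end Pool.Agent.K4H48.ST
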