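import Mathlib
import Pool.Agent.K4H48.ST.Id
import Pool.Agent.K4H48.LF.Inv

/-!
References which depend only on the critical value; the equations along curves in a stratum.
-/

set_option autoImplicit false

open Topology Filter Metric Set Polynomial MeasureTheory
open Pool.Agent.H713R3.ZA Pool.Agent.H713R5.QJ Pool.Agent.K4H48.LF

namespace Pool.Agent.K4H48.ST

/-- references which depend only on the critical value -/
theorem refR (H : HH) {n P : ℕ} (f : ℂ → ℂ) (r : Fin n → Fin n) (hr : ∀ i, r (r i) = r i)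
    (Es : Finset (Fin n)) (hEs : ∀ i j, r i = r j → i ∈ Es → j ∈ Es) (s : Fin n → ℂ) (hP : 0 < P)
    (hs : ∀ i ∈ Es, f^[P] (s i) = s i) (hκ : ∀ i ∈ Es, s i = s (r i)) :
    ∃ (rf : Fin n → Fin n) (ap : Fin n → ℕ), RFP n Es rf ap ∧
      (∀ i ∈ Es, s i = f^[ap i] (s (rf i))) ∧
      (∀ i ∈ Es, ∀ i' ∈ Es, rf i = i → rf i' = i' → i ≠ i' → ∀ b : ℕ, s i' ≠ f^[b] (s i)) ∧
      (∀ i, rf (r i) = rf i ∧ ap (r i) = ap i) ∧
      (∀ i ∈ Es, r (rf i) = rf i) := by
  classical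
  have hgE : ∀ i ∈ Es, r i ∈ Es := fun i hi => hEs i _ (hr i).symm hi
  obtain ⟨rf₀, ap₀, h1, h2, h3⟩ := H.refp f n P (Es.filter fun i => r i = i) s hP
    (fun i hi => hs i (Finset.mem_filter.1 hi).1)
  have hmem : ∀ i ∈ Es, r i ∈ Es.filter fun i => r i = i := fun i hi =>
    Finset.mem_filter.2 ⟨hgE i hi, hr i⟩
  have hrr : ∀ i ∈ Es, rf₀ (r i) ∈ Es ∧ r (rf₀ (r i)) = rf₀ (r i) := fun i hi =>
    (Finset.mem_filter (p := fun i => r i = i)).1 (h1.mem _ (hmem i hi))
  refine ⟨fun i => rf₀ (r i), fun i => ap₀ (r i), ⟨fun i hi => (hrr i hi).1, ?_, ?_⟩, ?_, ?_,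
    fun i => ?_, fun i hi => (hrr i hi).2⟩
  · intro i hi
    show rf₀ (r (rf₀ (r i))) = rf₀ (r i)
    rw [(hrr i hi).2]
    exact h1.idem _ (hmem i hi)
  · intro i hi hii
    have hii' : rf₀ (r i) = i := hii
    have h4 : r i = i := by
      have := (hrr i hi).2
      rw [hii'] at this
      exact this
    show ap₀ (r i) = 0
    apply h1.zero _ (hmem i hi)
    rw [h4]
    rw [h4] at hii'
    exact hii'
  · intro i hi
    show s i = f^[ap₀ (r i)] (s (rf₀ (r i)))
    rw [hκ i hi]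
    exact h2 _ (hmem i hi)
  · intro i hi i' hi' h4 h5 hne b
    have h4' : rf₀ (r i) = i := h4
    have h5' : rf₀ (r i') = i' := h5
    have e1 : r i = i := by
      have := (hrr i hi).2
      rw [h4'] at this
      exact this
    have e2 : r i' = i' := by
      have := (hrr i' hi').2
      rw [h5'] at this
      exact this
    rw [e1] at h4'
    rw [e2] at h5'
    exact h3 i (Finset.mem_filter.2 ⟨hi, e1⟩) i' (Finset.mem_filter.2 ⟨hi', e2⟩) h4' h5' hne b
  · refine ⟨?_, ?_⟩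
    · show rf₀ (r (r i)) = rf₀ (r i)
      rw [hr]
    · show ap₀ (r (r i)) = ap₀ (r i)
      rw [hr]

theorem deriv_along {n : ℕ} {γ : ℂ → PE n} {v : PE n} {t : ℂ} (hγ : HasDerivAt γ v t)
    {g : PE n → ℂ} (hg : DifferentiableAt ℂ g (γ t)) :
    HasDerivAt (fun t => g (γ t)) (fderiv ℂ g (γ t) v) t :=
  hg.hasFDerivAt.comp_hasDerivAt t hγ

theorem fderiv_eq_along {n : ℕ} {γ : ℂ → PE n} {v : PE n} {t : ℂ} (hγ : HasDerivAt γ v t)
    {g g' : PE n → ℂ} (hg : DifferentiableAt ℂ g (γ t)) (hg' : DifferentiableAt ℂ g' (γ t))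
    (h : ∀ᶠ s in 𝓝 t, g (γ s) = g' (γ s)) :
    fderiv ℂ g (γ t) v = fderiv ℂ g' (γ t) v := by
  have h1 := deriv_along hγ hg
  have h2 := deriv_along hγ hg'
  have h3 : (fun t => g' (γ t)) =ᶠ[𝓝 t] fun t => g (γ t) := by
    filter_upwards [h] with s hs using hs.symm
  exact (h1.congr_of_eventuallyEq h3).unique h2 |>.trans rfl

section
variable {a b : ℂ} {n P M : ℕ} {B R C₁ R₁ R₃ ρ : ℝ} {ψ φ : PE n × ℂ → ℂ} {c r : Fin n → Fin n}
  {Es Ee : Finset (Fin n)} {rf : Fin n → Fin n} {ap : Fin n → ℕ} {γ γ' : ℂ → PE n}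

theorem eqC (H : HH) (ha : a ≠ 0) (hn : 1 ≤ n) (hP : 0 < P)
    (hRFP : RFP n Es rf ap) (hrr : ∀ i, r (r i) = r i)
    (hEs : ∀ i j, r i = r j → i ∈ Es → j ∈ Es)
    (hgg : ∀ i, rf (r i) = rf i ∧ ap (r i) = ap i)
    (hgr : ∀ i ∈ Es, r (rf i) = rf i)
    (hγ : ∀ t ∈ ball (0 : ℂ) ρ, HasDerivAt γ (γ' t) t)
    (hγO : ∀ t ∈ ball (0 : ℂ) ρ, γ t ∈ OO a n P M B R₃ Es Ee)
    (hγS : ∀ t ∈ ball (0 : ℂ) ρ, γ t ∈ Sg a b n c r) {t : ℂ} (ht : t ∈ ball (0 : ℂ) ρ) {i : Fin n}
    (hi : i ∈ Es)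
    (heq : dn a n P rf ap (r i) (γ t) * fderiv ℂ (nu a n P rf (r i)) (γ t) (γ' t) -
      nu a n P rf (r i) (γ t) * fderiv ℂ (dn a n P rf ap (r i)) (γ t) (γ' t) = 0) :
    dn a n P rf ap i (γ t) * fderiv ℂ (nu a n P rf i) (γ t) (γ' t) -
      nu a n P rf i (γ t) * fderiv ℂ (dn a n P rf ap i) (γ t) (γ' t) = 0 := by
  obtain ⟨hOo, hnud⟩ := H.nud H.ko0 H.ko1 H.ko2 H.ko3 a n P M B R₃ Es Ee rf ap ha hn hP hRFP
  by_cases hij : r i = i
  · rw [hij] at heq; exact heq
  set j := r i with hj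
  have hjE : j ∈ Es := hEs i j (hrr i).symm hi
  have hrj : rf j = rf i := (hgg i).1
  have haj : ap j = ap i := (hgg i).2
  have hri : rf i ≠ i := by
    intro h
    have := hgr i hi
    rw [h] at this
    exact hij this
  -- differentiability
  have hdn : ∀ k ∈ Es, DifferentiableAt ℂ (nu a n P rf k) (γ t) ∧
      DifferentiableAt ℂ (dn a n P rf ap k) (γ t) := fun k hk =>
    ⟨((hnud k hk).1 _ (hγO t ht)).differentiableAt (hOo.mem_nhds (hγO t ht)),
      ((hnud k hk).2.1 _ (hγO t ht)).differentiableAt (hOo.mem_nhds (hγO t ht))⟩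
  -- positions of `i` and `j` agree
  have hkp : ∀ s ∈ ball (0 : ℂ) ρ, KP (fx a n (γ s)) P (γ s (some i)) =
      KP (fx a n (γ s)) P (γ s (some j)) := fun s hs =>
    kp_eq H ha hn hP ((hγS s hs).2.1 i) ((hγO s hs).2.1 i hi)
  have hnu : ∀ x : PE n, nu a n P rf i x = KP (fx a n x) P (x (some i)) := fun x => by
    unfold nu; rw [if_neg hri]
  have hdni : ∀ x : PE n, dn a n P rf ap i x =
      KP (fx a n x) P ((fx a n x)^[ap i] (x (some (rf i)))) := fun x => by
    unfold dn; rw [if_neg hri]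
  by_cases hr : rf j = j
  · -- numerator and denominator agree
    have ha0 : ap i = 0 := by rw [← haj]; exact hRFP.zero j hjE hr
    have hrij : rf i = j := by rw [← hrj, hr]
    have hev : ∀ s ∈ ball (0 : ℂ) ρ, nu a n P rf i (γ s) = dn a n P rf ap i (γ s) := by
      intro s hs
      rw [hnu, hdni, ha0, hrij, Function.iterate_zero_apply]
      exact hkp s hs
    have hev' : ∀ᶠ s in 𝓝 t, nu a n P rf i (γ s) = dn a n P rf ap i (γ s) := by
      filter_upwards [isOpen_ball.mem_nhds ht] with s hs using hev s hs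
    rw [fderiv_eq_along (hγ t ht) (hdn i hi).1 (hdn i hi).2 hev', hev t ht, sub_self]
  · have hnuj : ∀ x : PE n, nu a n P rf j x = KP (fx a n x) P (x (some j)) := fun x => by
      unfold nu; rw [if_neg hr]
    have hdnj : dn a n P rf ap j = dn a n P rf ap i := by
      funext x
      rw [hdni]
      unfold dn
      rw [if_neg hr, hrj, haj]
    have hev : ∀ s ∈ ball (0 : ℂ) ρ, nu a n P rf i (γ s) = nu a n P rf j (γ s) := by
      intro s hs
      rw [hnu, hnuj]
      exact hkp s hs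
    have hev' : ∀ᶠ s in 𝓝 t, nu a n P rf i (γ s) = nu a n P rf j (γ s) := by
      filter_upwards [isOpen_ball.mem_nhds ht] with s hs using hev s hs
    rw [hdnj] at heq
    rw [fderiv_eq_along (hγ t ht) (hdn i hi).1 (hdn j hjE).1 hev', hev t ht]
    exact heq

theorem escC (hb : BO a n B R C₁ R₁ R₃ ψ φ) (hM : 1 ≤ M) (hrr : ∀ i, r (r i) = r i)
    (hEe : ∀ i j, r i = r j → i ∈ Ee → j ∈ Ee) (hOo : IsOpen (OO a n P M B R₃ Es Ee))
    (hγ : ∀ t ∈ ball (0 : ℂ) ρ, HasDerivAt γ (γ' t) t)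
    (hγO : ∀ t ∈ ball (0 : ℂ) ρ, γ t ∈ OO a n P M B R₃ Es Ee)
    (hγS : ∀ t ∈ ball (0 : ℂ) ρ, γ t ∈ Sg a b n c r) {t : ℂ} (ht : t ∈ ball (0 : ℂ) ρ) {i : Fin n}
    (hi : i ∈ Ee)
    (heq : fderiv ℂ (fun x : PE n => φ (x, (fx a n x)^[M] (x (some (r i))))) (γ t) (γ' t) = 0) :
    fderiv ℂ (fun x : PE n => φ (x, (fx a n x)^[M] (x (some i)))) (γ t) (γ' t) = 0 := by
  set j := r i with hj
  have hjE : j ∈ Ee := hEe i j (hrr i).symm hi
  have hd : ∀ k ∈ Ee, DifferentiableAt ℂ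
      (fun x : PE n => φ (x, (fx a n x)^[M] (x (some k)))) (γ t) := by
    intro k hk
    have h3 : DifferentiableOn ℂ
        (fun x : PE n => ((x, (fx a n x)^[M] (x (some k))) : PE n × ℂ)) (OO a n P M B R₃ Es Ee) :=
      differentiableOn_id.prodMk (crit_diff a n M k).differentiableOn
    have h4 : DifferentiableOn ℂ (fun x : PE n => φ (x, (fx a n x)^[M] (x (some k))))
        (OO a n P M B R₃ Es Ee) := hb.φd.comp h3 (fun x hx => ⟨hx.1, hx.2.2 k hk⟩)
    exact (h4 _ (hγO t ht)).differentiableAt (hOo.mem_nhds (hγO t ht))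
  have hev' : ∀ᶠ s in 𝓝 t, (fun x : PE n => φ (x, (fx a n x)^[M] (x (some i)))) (γ s) =
      (fun x : PE n => φ (x, (fx a n x)^[M] (x (some j)))) (γ s) := by
    filter_upwards [isOpen_ball.mem_nhds ht] with s hs
    show φ (γ s, (fx a n (γ s))^[M] (γ s (some i))) = φ (γ s, (fx a n (γ s))^[M] (γ s (some j)))
    obtain ⟨l, rfl⟩ : ∃ l, M = l + 1 := ⟨M - 1, by omega⟩
    have h5 : fx a n (γ s) (γ s (some i)) = fx a n (γ s) (γ s (some j)) := (hγS s hs).2.1 i
    rw [Function.iterate_succ_apply, Function.iterate_succ_apply, h5]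
  rw [fderiv_eq_along (hγ t ht) (hd i hi) (hd j hjE) hev']
  exact heq

/-- integral curves of tangent fields stay in the stratum -/
theorem stay (hp : Pat n c r) {X : PE n → PE n} (hX3 : ∀ x, fderiv ℂ (cf a n n) x (X x) = 0)
    (hX4 : ∀ x i, X x (some i) = X x (some (c i)))
    (hX5 : ∀ x i, c i = i → fderiv ℂ (vl a n i) x (X x) = fderiv ℂ (vl a n (r i)) x (X x))
    (hρ : 0 < ρ) (hγ : ∀ t ∈ ball (0 : ℂ) ρ, HasDerivAt γ (X (γ t)) t)
    (h0 : γ 0 ∈ Sg a b n c r) : ∀ t ∈ ball (0 : ℂ) ρ, γ t ∈ Sg a b n c r := by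
  have hvd : ∀ i, Differentiable ℂ (vl a n i) := fun i => (vl_cd a n i).differentiable (by norm_num)
  have hconst : ∀ g : PE n → ℂ, Differentiable ℂ g → (∀ x, fderiv ℂ g x (X x) = 0) →
      g (γ 0) = 0 → ∀ t ∈ ball (0 : ℂ) ρ, g (γ t) = 0 := by
    intro g hg hgX hg0 t ht
    have h1 : DifferentiableOn ℂ (fun t => g (γ t)) (ball (0 : ℂ) ρ) := fun t ht =>
      (deriv_along (hγ t ht) (hg _)).differentiableAt.differentiableWithinAt
    have h2 : (ball (0 : ℂ) ρ).EqOn (deriv fun t => g (γ t)) 0 := by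
      intro t ht
      rw [(deriv_along (hγ t ht) (hg _)).deriv, hgX]
      rfl
    have h3 := isOpen_ball.is_const_of_deriv_eq_zero (convex_ball (0 : ℂ) ρ).isPreconnected h1 h2
      ht (mem_ball_self hρ)
    rw [h3, hg0]
  intro t ht
  have e1 : ∀ i, γ t (some i) = γ t (some (c i)) := by
    intro i
    have h1 : HasFDerivAt (fun x : PE n => x (some i) - x (some (c i)))
        (ContinuousLinearMap.proj (R := ℂ) (φ := fun _ : Option (Fin n) => ℂ) (some i) -
          ContinuousLinearMap.proj (R := ℂ) (φ := fun _ : Option (Fin n) => ℂ) (some (c i))) 0 :=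
      (ContinuousLinearMap.proj (R := ℂ) (φ := fun _ : Option (Fin n) => ℂ) (some i) -
          ContinuousLinearMap.proj (R := ℂ) (φ := fun _ : Option (Fin n) => ℂ)
            (some (c i))).hasFDerivAt
    have hcl : ∀ x : PE n, fderiv ℂ (fun x : PE n => x (some i) - x (some (c i))) x =
        (ContinuousLinearMap.proj (R := ℂ) (φ := fun _ : Option (Fin n) => ℂ) (some i) -
          ContinuousLinearMap.proj (R := ℂ) (φ := fun _ : Option (Fin n) => ℂ) (some (c i))) :=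
      fun x => (ContinuousLinearMap.proj (R := ℂ) (φ := fun _ : Option (Fin n) => ℂ) (some i) -
          ContinuousLinearMap.proj (R := ℂ) (φ := fun _ : Option (Fin n) => ℂ)
            (some (c i))).hasFDerivAt.fderiv
    have h2 := hconst (fun x => x (some i) - x (some (c i)))
      (((contDiff_coord n (some i)).sub (contDiff_coord n (some (c i)))).differentiable
        (by norm_num)) (fun x => by
        rw [hcl]
        show X x (some i) - X x (some (c i)) = 0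
        rw [hX4 x i, sub_self]) (by rw [h0.1 i, sub_self]) t ht
    exact sub_eq_zero.1 h2
  refine ⟨e1, fun i => ?_, ?_⟩
  · have h2 := hconst (fun x => vl a n (c i) x - vl a n (r (c i)) x)
      ((hvd _).sub (hvd _)) (fun x => by
        rw [fderiv_fun_sub (hvd _ x) (hvd _ x)]
        show fderiv ℂ (vl a n (c i)) x (X x) - fderiv ℂ (vl a n (r (c i))) x (X x) = 0
        rw [hX5 x (c i) (hp.cc i), sub_self])
      (by rw [h0.2.1 (c i), sub_self]) t ht
    have h3 := sub_eq_zero.1 h2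
    rw [hp.rc i] at h3
    rw [vl_c e1 i, h3]
  · have h2 := hconst (fun x => cf a n n x - b) ((cf_diff a n n).sub (differentiable_const b))
      (fun x => by rw [fderiv_sub_const]; exact hX3 x) (by rw [h0.2.2, sub_self]) t ht
    exact sub_eq_zero.1 h2

end

end Pool.Agent.K4H48.ST
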