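import Mathlib
import Pool.Agent.K4H48.ST.Id

/-!
Fields tangent to the strata which are killed by fewer covector fields than there are critical
values.
-/

set_option autoImplicit false

open Topology Filter Metric Set Polynomial MeasureTheory
open Pool.Agent.H713R3.ZA Pool.Agent.H713R5.QJ Pool.Agent.K4H48.LF

namespace Pool.Agent.K4H48.ST

theorem det_ne {a : ℂ} {n : ℕ} {c : Fin n → Fin n} (ha : a ≠ 0) (hn : 1 ≤ n)
    (hcc : ∀ i, c (c i) = c i) {x : PE n}
    (h1 : ∀ i, x (some i) = x (some (c i))) (hD : Dd n c x ≠ 0) : (Nm a n c x).det ≠ 0 := by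
  intro h0
  obtain ⟨w, hw, hw0⟩ := Matrix.exists_mulVec_eq_zero_iff.2 h0
  apply hw
  apply inj_of a ha hn c hcc x w h1 (Dd_ne.1 hD)
  intro l
  rw [← Nm_mulVec, hw0]
  rfl

/-- the fields which change one critical value -/
noncomputable def Wf (a : ℂ) (n : ℕ) (c r : Fin n → Fin n) (ρ : Fin n) (x : PE n) : PE n :=
  ∑ i ∈ (Finset.univ : Finset (Fin n)).filter (fun i => c i = i ∧ r i = ρ), Uf a n c i x

theorem Wf_diff (a : ℂ) (n : ℕ) (c r : Fin n → Fin n) (ρ : Fin n) :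
    Differentiable ℂ (Wf a n c r ρ) := by
  unfold Wf
  apply Differentiable.fun_sum
  intro i _
  exact Uf_diff a n c i

theorem Cv_Wf_none (a : ℂ) (n : ℕ) (c r : Fin n → Fin n) (ρ : Fin n) (x : PE n) :
    Cv a n c none x (Wf a n c r ρ x) = 0 := by
  unfold Wf
  rw [map_sum]
  apply Finset.sum_eq_zero
  intro i _
  rw [Cv_Uf, if_neg (by simp)]

theorem Cv_Wf_nrep {a : ℂ} {n : ℕ} {c r : Fin n → Fin n} {ρ : Fin n} {x : PE n} {j : Fin n}
    (hj : c j ≠ j) : Cv a n c (some j) x (Wf a n c r ρ x) = 0 := by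
  unfold Wf
  rw [map_sum]
  apply Finset.sum_eq_zero
  intro i hi
  rw [Cv_Uf, if_neg]
  intro h
  obtain rfl := Option.some_injective _ h
  exact hj (Finset.mem_filter.1 hi).2.1

theorem Cv_Wf_rep {a : ℂ} {n : ℕ} {c r : Fin n → Fin n} {ρ : Fin n} {x : PE n} {j : Fin n}
    (hj : c j = j) :
    Cv a n c (some j) x (Wf a n c r ρ x) = if r j = ρ then (Nm a n c x).det else 0 := by
  unfold Wf
  rw [map_sum]
  have h1 : ∀ i ∈ (Finset.univ : Finset (Fin n)).filter (fun i => c i = i ∧ r i = ρ),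
      Cv a n c (some j) x (Uf a n c i x) = if j = i then (Nm a n c x).det else 0 := by
    intro i _
    rw [Cv_Uf]
    simp only [Option.some_inj]
  rw [Finset.sum_congr rfl h1, Finset.sum_ite_eq]
  simp only [Finset.mem_filter, Finset.mem_univ, true_and, hj]

theorem exists_fieldS (hCROSS : Pool.Agent.H713R4.RB.StCROSS) {a : ℂ} {n : ℕ}
    {c r : Fin n → Fin n} (ha : a ≠ 0) (hn : 1 ≤ n) (hp : Pat n c r) {O Ω : Set (PE n)}
    (hne : Ω.Nonempty)
    (hΩ : ∀ x ∈ Ω, (∀ i, x (some i) = x (some (c i))) ∧ Dd n c x ≠ 0)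
    (E : Fin n → PE n → (PE n →L[ℂ] ℂ))
    (hE : ∀ i (v : PE n), DifferentiableOn ℂ (fun x => E i x v) O) (j₀ : Fin n) :
    ∃ X : PE n → PE n, DifferentiableOn ℂ X O ∧ (∃ x ∈ Ω, X x ≠ 0) ∧
      (∀ x ∈ Ω, ∀ l, r l = l → l ≠ r j₀ → E l x (X x) = 0) ∧
      (∀ x, fderiv ℂ (cf a n n) x (X x) = 0) ∧
      (∀ x i, X x (some i) = X x (some (c i))) ∧
      ∀ x i, c i = i → fderiv ℂ (vl a n i) x (X x) = fderiv ℂ (vl a n (r i)) x (X x) := by
  classical
  set ι := {l : Fin n // r l = l ∧ l ≠ r j₀} with hι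
  set κ := {l : Fin n // r l = l} with hκ
  set A : PE n → ι → κ → ℂ := fun x l ρ => E l x (Wf a n c r ρ x) with hA
  have hAd : DifferentiableOn ℂ A O := by
    rw [differentiableOn_pi]
    intro l
    rw [differentiableOn_pi]
    intro ρ
    have h1 : (fun x => A x l ρ) = fun x =>
        ∑ k, E l x (fun l' => if k = l' then 1 else 0) * Wf a n c r ρ x k := by
      funext x
      rw [clm_sum]
    rw [h1]
    apply DifferentiableOn.fun_sum
    intro k _
    apply (hE _ _).mul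
    exact ((differentiable_pi.1 (Wf_diff a n c r ρ)) k).differentiableOn
  have hcard : Fintype.card ι < Fintype.card κ := by
    apply Fintype.card_lt_of_injective_of_notMem (fun l : ι => (⟨l.1, l.2.1⟩ : κ))
      (fun l l' h => Subtype.ext (congrArg (fun z : κ => z.1) h)) (b := ⟨r j₀, hp.rr j₀⟩)
    rintro ⟨l, hl⟩
    exact l.2.2 (congrArg (fun z : κ => z.1) hl)
  have hbd : ∀ x, (Matrix.of (A x)).rank ≤ Fintype.card ι := fun x =>
    Matrix.rank_le_card_height (Matrix.of (A x))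
  obtain ⟨x₀, hx₀, hmax⟩ : ∃ x₀ ∈ Ω, ∀ x ∈ Ω, (Matrix.of (A x)).rank ≤ (Matrix.of (A x₀)).rank := by
    obtain ⟨y, hy⟩ := hne
    have hfin : ((fun x => (Matrix.of (A x)).rank) '' Ω).Finite :=
      (Set.finite_Iic (Fintype.card ι)).subset (by rintro _ ⟨x, _, rfl⟩; exact hbd x)
    obtain ⟨m, ⟨x₀, hx₀, rfl⟩, h2⟩ := hfin.exists_maximal ⟨_, y, hy, rfl⟩
    refine ⟨x₀, hx₀, fun x hx => ?_⟩
    by_contra hcon
    push Not at hcon
    have := h2 ⟨x, hx, rfl⟩ hcon.le
    exact absurd this (not_le.mpr hcon)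
  obtain ⟨h, k, hd, hk, h0⟩ := hCROSS ι κ (A '' Ω) (A x₀) ⟨x₀, hx₀, rfl⟩
    (by rintro _ ⟨x, hx, rfl⟩; exact hmax x hx) (lt_of_le_of_lt (hbd x₀) hcard)
  set X : PE n → PE n := fun x => ∑ ρ : κ, h (A x) ρ • Wf a n c r ρ x with hX
  -- the covectors on the field
  have hnone : ∀ x, Cv a n c none x (X x) = 0 := by
    intro x
    rw [hX]
    simp only [map_sum, map_smul, Cv_Wf_none, smul_zero, Finset.sum_const_zero]
  have hnrep : ∀ x i, c i ≠ i → Cv a n c (some i) x (X x) = 0 := by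
    intro x i hi
    rw [hX]
    simp only [map_sum, map_smul, Cv_Wf_nrep hi, smul_zero, Finset.sum_const_zero]
  have hrep : ∀ x i, c i = i →
      Cv a n c (some i) x (X x) = h (A x) ⟨r i, hp.rr i⟩ * (Nm a n c x).det := by
    intro x i hi
    rw [hX]
    simp only [map_sum, map_smul, Cv_Wf_rep hi, smul_eq_mul, mul_ite, mul_zero]
    rw [Finset.sum_eq_single ⟨r i, hp.rr i⟩]
    · rw [if_pos rfl]
    · intro ρ _ hρ
      rw [if_neg]
      intro h2
      exact hρ (Subtype.ext h2.symm)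
    · intro h2
      exact absurd (Finset.mem_univ _) h2
  refine ⟨X, ?_, ⟨x₀, hx₀, ?_⟩, ?_, ?_, ?_, ?_⟩
  · rw [hX]
    apply DifferentiableOn.fun_sum
    intro ρ _
    apply DifferentiableOn.fun_smul
    · have h1 : Differentiable ℂ (fun B => h B ρ) := differentiable_pi.1 hd ρ
      exact h1.comp_differentiableOn hAd
    · exact (Wf_diff a n c r ρ).differentiableOn
  · intro h2
    have hck : c k.1 = k.1 := by
      have := hp.cr k.1
      rwa [k.2] at this
    have h3 := hrep x₀ k.1 hck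
    rw [h2, map_zero] at h3
    have h4 : (⟨r k.1, hp.rr k.1⟩ : κ) = k := Subtype.ext k.2
    rw [h4] at h3
    exact mul_ne_zero hk (det_ne ha hn hp.cc (hΩ x₀ hx₀).1 (hΩ x₀ hx₀).2) h3.symm
  · intro x hx l hl hlj
    have h1 := h0 (A x) ⟨x, hx, rfl⟩ ⟨l, hl, hlj⟩
    rw [hX]
    simp only [map_sum, map_smul, smul_eq_mul]
    rw [← h1]
    apply Finset.sum_congr rfl
    intro ρ _
    exact mul_comm _ _
  · intro x
    rw [← Cv_none a n c x]
    exact hnone x
  · intro x i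
    by_cases hi : c i = i
    · rw [hi]
    · have := hnrep x i hi
      rw [Cv_nrep a hi] at this
      exact sub_eq_zero.1 this
  · intro x i hi
    have h1 := hrep x i hi
    have h2 := hrep x (r i) (hp.cr i)
    rw [Cv_rep a hi] at h1
    rw [Cv_rep a (hp.cr i)] at h2
    rw [h1, h2]
    congr 3
    exact (hp.rr i).symm

end Pool.Agent.K4H48.ST
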