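import Mathlib
import Pool.Agent.K4H48.ST.Core
import Pool.Agent.H713R5.QJ.TVFAM

/-!
The quantitative theorem in a stratum.
-/

set_option autoImplicit false

open Topology Filter Metric Set Polynomial MeasureTheory
open Pool.Agent.H713R3.ZA Pool.Agent.H713R5.QJ Pool.Agent.K4H48.LF

namespace Pool.Agent.K4H48.ST

/-- `x` has all the coincidences of `x₁`, and the same centre -/
structure Coi (a : ℂ) (n : ℕ) (x₁ x : PE n) : Prop where
  cp : ∀ i j : Fin n, x₁ (some i) = x₁ (some j) → x (some i) = x (some j)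
  cv : ∀ i j : Fin n, vl a n i x₁ = vl a n j x₁ → vl a n i x = vl a n j x
  ce : cf a n n x = cf a n n x₁

theorem Coi.refl (a : ℂ) (n : ℕ) (x : PE n) : Coi a n x x :=
  ⟨fun _ _ h => h, fun _ _ h => h, rfl⟩

theorem Coi.trans {a : ℂ} {n : ℕ} {x y z : PE n} (h : Coi a n x y) (h' : Coi a n y z) :
    Coi a n x z :=
  ⟨fun i j hij => h'.cp i j (h.cp i j hij), fun i j hij => h'.cv i j (h.cv i j hij),
    h'.ce.trans h.ce⟩

open Classical TVFAM in
/-- induction on the number of bad critical points -/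
theorem claimS {a : ℂ} {n : ℕ} {B c₀ : ℝ}
    (hcore : ∀ (x₁ : PE n) (n₀ : ℝ), 0 < n₀ →
      (∀ x : PE n, Pool.Agent.H713R3.ZA.Dl a n x₁ x ≤ n₀ → x ∈ ball (0 : PE n) B) →
      volume {z : ℂ | ¬ Good (fx a n x₁) z} < ENNReal.ofReal (c₀ * n₀ / 16) →
      (∃ j : Fin n, ¬ Good (fx a n x₁) (x₁ (some j))) →
      ∃ x : PE n, Pool.Agent.H713R3.ZA.Dl a n x₁ x < n₀ ∧
        volume {z : ℂ | ¬ Good (fx a n x) z} < ENNReal.ofReal (c₀ * n₀) ∧
        (∀ i : Fin n, Good (fx a n x₁) (x₁ (some i)) → Good (fx a n x) (x (some i))) ∧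
        (∃ j : Fin n, ¬ Good (fx a n x₁) (x₁ (some j)) ∧ Good (fx a n x) (x (some j))) ∧
        (∀ i j : Fin n, x₁ (some i) = x₁ (some j) → x (some i) = x (some j)) ∧
        (∀ i j : Fin n, vl a n i x₁ = vl a n j x₁ → vl a n i x = vl a n j x) ∧
        cf a n n x = cf a n n x₁)
    (m : ℕ) : ∀ (x : PE n) (n₀ : ℝ), 0 < n₀ →
      (Finset.univ.filter (fun i : Fin n => ¬ Good (fx a n x) (x (some i)))).card ≤ m →
      volume {z : ℂ | ¬ Good (fx a n x) z} < ENNReal.ofReal (c₀ * n₀ / 16) →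
      (∀ y : PE n, (∀ j : ℕ, ‖(fam a n y).coeff j - (fam a n x).coeff j‖ ≤
        kk m * Real.sqrt n₀) → y ∈ ball (0 : PE n) B) →
      ∃ z : PE n, (∀ i : Fin n, Good (fx a n z) (z (some i))) ∧
        (∀ j : ℕ, ‖(fam a n z).coeff j - (fam a n x).coeff j‖ ≤ kk m * Real.sqrt n₀) ∧
        Coi a n x z := by
  induction m with
  | zero =>
    intro x n₀ hn₀ hcard hvol hR
    refine ⟨x, ?_, ?_, Coi.refl a n x⟩
    · intro i
      by_contra hi
      have : i ∈ Finset.univ.filter (fun i : Fin n => ¬ Good (fx a n x) (x (some i))) := by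
        rw [Finset.mem_filter]
        exact ⟨Finset.mem_univ _, hi⟩
      have h2 := Finset.card_pos.2 ⟨i, this⟩
      omega
    · intro j
      rw [sub_self, norm_zero]
      exact mul_nonneg (kk_nonneg _) (Real.sqrt_nonneg _)
  | succ m ih =>
    intro x n₀ hn₀ hcard hvol hR
    have hkm := kk_nonneg m
    have hs := Real.sqrt_nonneg n₀
    have hkk : kk (m + 1) = 1 + 4 * kk m := rfl
    by_cases hall : ∀ i : Fin n, Good (fx a n x) (x (some i))
    · refine ⟨x, hall, ?_, Coi.refl a n x⟩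
      intro j
      rw [sub_self, norm_zero]
      exact mul_nonneg (kk_nonneg _) (Real.sqrt_nonneg _)
    · push Not at hall
      obtain ⟨x', hD, hvol', hgood, ⟨j₀, hj₀, hj₀'⟩, hcp, hcv, hce⟩ := hcore x n₀ hn₀ (by
        intro y hy
        apply hR
        intro j
        refine (coeff_of_Dl a n x y hy j).trans ?_
        rw [hkk]
        nlinarith [mul_nonneg hkm hs]) hvol hall
      have hsq : Real.sqrt (16 * n₀) = 4 * Real.sqrt n₀ := by
        rw [Real.sqrt_mul (by norm_num)]
        congr 1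
        rw [show (16 : ℝ) = 4 ^ 2 by norm_num, Real.sqrt_sq (by norm_num)]
      have hcard' : (Finset.univ.filter
          (fun i : Fin n => ¬ Good (fx a n x') (x' (some i)))).card ≤ m := by
        have hlt : (Finset.univ.filter
            (fun i : Fin n => ¬ Good (fx a n x') (x' (some i)))).card <
            (Finset.univ.filter (fun i : Fin n => ¬ Good (fx a n x) (x (some i)))).card := by
          apply Finset.card_lt_card
          rw [Finset.ssubset_iff_of_subset]
          · refine ⟨j₀, ?_, ?_⟩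
            · rw [Finset.mem_filter]
              exact ⟨Finset.mem_univ _, hj₀⟩
            · rw [Finset.mem_filter]
              rintro ⟨-, h⟩
              exact h hj₀'
          · intro i hi
            rw [Finset.mem_filter] at hi ⊢
            refine ⟨Finset.mem_univ _, ?_⟩
            intro h
            exact hi.2 (hgood i h)
        omega
      obtain ⟨z, hz, hzc, hzC⟩ := ih x' (16 * n₀) (by positivity) hcard' (by
        have : c₀ * (16 * n₀) / 16 = c₀ * n₀ := by ring
        rw [this]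
        exact hvol') (by
        intro y hy
        apply hR
        intro j
        have h1 := hy j
        have h2 := coeff_of_Dl a n x x' hD.le j
        rw [hsq] at h1
        have h3 : ‖(fam a n y).coeff j - (fam a n x).coeff j‖ ≤
            ‖(fam a n y).coeff j - (fam a n x').coeff j‖ +
              ‖(fam a n x').coeff j - (fam a n x).coeff j‖ := by
          have := norm_add_le ((fam a n y).coeff j - (fam a n x').coeff j)
            ((fam a n x').coeff j - (fam a n x).coeff j)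
          rwa [sub_add_sub_cancel] at this
        rw [hkk]
        nlinarith)
      refine ⟨z, hz, ?_, Coi.trans ⟨hcp, hcv, hce⟩ hzC⟩
      intro j
      have h1 := hzc j
      have h2 := coeff_of_Dl a n x x' hD.le j
      rw [hsq] at h1
      have h3 : ‖(fam a n z).coeff j - (fam a n x).coeff j‖ ≤
          ‖(fam a n z).coeff j - (fam a n x').coeff j‖ +
            ‖(fam a n x').coeff j - (fam a n x).coeff j‖ := by
        have := norm_add_le ((fam a n z).coeff j - (fam a n x').coeff j)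
          ((fam a n x').coeff j - (fam a n x).coeff j)
        rwa [sub_add_sub_cancel] at this
      rw [hkk]
      nlinarith

/-- the parameter of `a (z - ζ)^(n+1) + ζ` -/
noncomputable def un (a : ℂ) (n : ℕ) (ζ : ℂ) : PE n :=
  fun k => k.elim (a * (-ζ) ^ (n + 1) + ζ) (fun _ => ζ)

theorem fam_un (a : ℂ) (n : ℕ) (ζ : ℂ) :
    fam a n (un a n ζ) = C a * (X - C ζ) ^ (n + 1) + C ζ := by
  have h1 : derivative (fam a n (un a n ζ)) =
      derivative (C a * (X - C ζ) ^ (n + 1) + C ζ) := by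
    rw [derivative_fam]
    unfold dfam
    have h2 : ∏ i : Fin n, (X - C (un a n ζ (some i))) = (X - C ζ) ^ n := by
      have : ∀ i : Fin n, un a n ζ (some i) = ζ := fun _ => rfl
      simp only [this, Finset.prod_const, Finset.card_univ, Fintype.card_fin]
    rw [h2, derivative_add, derivative_C, add_zero, derivative_C_mul, derivative_X_sub_C_pow,
      Nat.add_sub_cancel, C_mul]
    push_cast
    rw [map_add, C_1, map_natCast]
    ring
  have h2 : derivative (fam a n (un a n ζ) - (C a * (X - C ζ) ^ (n + 1) + C ζ)) = 0 := by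
    rw [derivative_sub, h1, sub_self]
  have h3 := eq_C_of_derivative_eq_zero h2
  have h4 : (fam a n (un a n ζ) - (C a * (X - C ζ) ^ (n + 1) + C ζ)).coeff 0 = 0 := by
    rw [coeff_zero_eq_eval_zero, eval_sub, ← coeff_zero_eq_eval_zero, coeff_fam_zero]
    simp only [eval_add, eval_mul, eval_C, eval_pow, eval_sub, eval_X, zero_sub]
    show a * (-ζ) ^ (n + 1) + ζ - (a * (-ζ) ^ (n + 1) + ζ) = 0
    ring
  rw [h4, C_0] at h3
  exact sub_eq_zero.1 h3

theorem good_un (a : ℂ) (n : ℕ) (hn : 1 ≤ n) (ζ : ℂ) (i : Fin n) :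
    Good (fx a n (un a n ζ)) (un a n ζ (some i)) := by
  have hf : fx a n (un a n ζ) = fun w => a * (w - ζ) ^ (n + 1) + ζ := by
    funext w
    show (fam a n (un a n ζ)).eval w = _
    rw [fam_un]
    simp
  have h0 : fx a n (un a n ζ) ζ = ζ := by
    rw [hf]
    simp
  have hd : deriv (fx a n (un a n ζ)) ζ = 0 := by
    have h1 : deriv (fx a n (un a n ζ)) ζ = (derivative (fam a n (un a n ζ))).eval ζ :=
      Polynomial.deriv (p := fam a n (un a n ζ))
    rw [h1, derivative_fam]
    unfold dfam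
    rw [eval_mul, eval_prod, Finset.prod_eq_zero (Finset.mem_univ i) (by
      show eval ζ (X - C ζ) = 0
      simp), mul_zero]
  right
  refine ⟨1, one_pos, ζ, ?_, ?_, ?_⟩
  · rw [Function.iterate_one]; exact h0
  · rw [Function.iterate_one, hd, norm_zero]; exact one_pos
  · have : (fun k : ℕ => (fx a n (un a n ζ))^[1 * k] (un a n ζ (some i))) = fun _ => ζ := by
      funext k
      exact Function.iterate_fixed h0 _
    rw [this]
    exact tendsto_const_nhds

theorem vfamS (H : HH) {a : ℂ} {n : ℕ} {A' : ℝ} (ha : a ≠ 0) (hn : 1 ≤ n) (hA' : 0 < A') :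
    ∃ C : ℝ, 0 < C ∧
    ∀ (x₁ : PE n) (s : ℝ), (∀ j : ℕ, ‖(fam a n x₁).coeff j‖ ≤ A') → 0 < s →
      volume {z : ℂ | ¬ Good (fx a n x₁) z} < ENNReal.ofReal (s ^ 2) →
      ∃ x : PE n, (∀ j : ℕ, ‖(fam a n x).coeff j - (fam a n x₁).coeff j‖ ≤ C * s) ∧
        (∀ i : Fin n, Good (fx a n x) (x (some i))) ∧ Coi a n x₁ x := by
  classical
  have ha' : 0 < ‖a‖ := norm_pos_iff.2 ha
  obtain ⟨c₀, hc₀, hc⟩ := corevS H (n := n) ha hn
    (by positivity : 0 < (A' + 1) / ‖a‖ + (A' + 1) + 2)
  have hκ := TVFAM.kk_nonneg n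
  set κ := TVFAM.kk n with hκdef
  have hsc : 0 < Real.sqrt c₀ := Real.sqrt_pos.2 hc₀
  set B₀ : ℝ := A' / ‖a‖ + A' + 2 with hB₀
  have hB₀0 : 0 < B₀ := by positivity
  obtain ⟨A₁, hA₁1, hA₁⟩ := exists_coeff_bound a n (‖a‖ * B₀ ^ (n + 1) + B₀)
  refine ⟨(1 + A₁ + A') * (κ * (4 / Real.sqrt c₀)) + 1, by positivity, ?_⟩
  intro x₁ s hcoef hs hvol
  have hn₀ : 0 < 16 * s ^ 2 / c₀ := by positivity
  have hsq : Real.sqrt (16 * s ^ 2 / c₀) = 4 / Real.sqrt c₀ * s := by
    rw [Real.sqrt_div (by positivity), show 16 * s ^ 2 = (4 * s) ^ 2 by ring,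
      Real.sqrt_sq (by positivity)]
    ring
  have hq0 : 0 ≤ κ * (4 / Real.sqrt c₀) := by positivity
  by_cases hsmall : κ * Real.sqrt (16 * s ^ 2 / c₀) ≤ 1
  · obtain ⟨z, hz, hzc, hzC⟩ := claimS hc n x₁ (16 * s ^ 2 / c₀) hn₀ (by
      refine (Finset.card_le_univ _).trans ?_
      simp) (by
      have : c₀ * (16 * s ^ 2 / c₀) / 16 = s ^ 2 := by
        field_simp
      rw [this]
      exact hvol) (by
      intro y hy
      apply TVFAM.bdd n ha (by positivity)
      intro j _
      have h1 := (hy j).trans hsmall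
      have h2 := hcoef j
      have h4 : ‖(fam a n y).coeff j‖ ≤
          ‖(fam a n y).coeff j - (fam a n x₁).coeff j‖ + ‖(fam a n x₁).coeff j‖ := by
        have := norm_add_le ((fam a n y).coeff j - (fam a n x₁).coeff j) ((fam a n x₁).coeff j)
        rwa [sub_add_cancel] at this
      linarith)
    refine ⟨z, ?_, hz, hzC⟩
    intro j
    refine (hzc j).trans ?_
    rw [← hκdef, hsq]
    have h1 : κ * (4 / Real.sqrt c₀ * s) = (κ * (4 / Real.sqrt c₀)) * s := by ring
    rw [h1]
    apply mul_le_mul_of_nonneg_right _ hs.le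
    nlinarith [mul_nonneg hq0 (by linarith : (0 : ℝ) ≤ A₁), mul_nonneg hq0 hA'.le]
  · push Not at hsmall
    rw [hsq] at hsmall
    -- the centre
    have hx₁B : x₁ ∈ ball (0 : PE n) B₀ := TVFAM.bdd n ha hA'.le x₁ (fun j _ => hcoef j)
    rw [mem_ball_zero_iff] at hx₁B
    set ζ : ℂ := (∑ i, x₁ (some i)) / n with hζ
    have hn0 : (n : ℂ) ≠ 0 := by
      rw [Nat.cast_ne_zero]; omega
    have hnR : (0 : ℝ) < n := by
      have : 0 < n := by omega
      exact_mod_cast this
    have hζB : ‖ζ‖ ≤ B₀ := by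
      rw [hζ, norm_div, Complex.norm_natCast, div_le_iff₀ hnR]
      calc ‖∑ i, x₁ (some i)‖ ≤ ∑ i : Fin n, ‖x₁ (some i)‖ := norm_sum_le _ _
        _ ≤ ∑ _i : Fin n, B₀ := Finset.sum_le_sum fun i _ =>
          (norm_le_pi_norm x₁ (some i)).trans hx₁B.le
        _ = B₀ * n := by simp [mul_comm]
    refine ⟨un a n ζ, ?_, good_un a n hn ζ, ⟨fun _ _ _ => rfl, fun _ _ _ => rfl, ?_⟩⟩
    · intro j
      have hun : ‖un a n ζ‖ ≤ ‖a‖ * B₀ ^ (n + 1) + B₀ := by
        rw [pi_norm_le_iff_of_nonneg (by positivity)]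
        intro k
        rcases k with _ | i
        · show ‖a * (-ζ) ^ (n + 1) + ζ‖ ≤ _
          refine (norm_add_le _ _).trans (add_le_add ?_ hζB)
          rw [norm_mul, norm_pow, norm_neg]
          exact mul_le_mul_of_nonneg_left (pow_le_pow_left₀ (norm_nonneg _) hζB _) (norm_nonneg _)
        · show ‖ζ‖ ≤ _
          have : 0 ≤ ‖a‖ * B₀ ^ (n + 1) := by positivity
          linarith
      have h1 : ‖(fam a n (un a n ζ)).coeff j - (fam a n x₁).coeff j‖ ≤ A₁ + A' :=
        (norm_sub_le _ _).trans (add_le_add (hA₁ _ hun j) (hcoef j))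
      refine h1.trans ?_
      have h2 : κ * (4 / Real.sqrt c₀ * s) = (κ * (4 / Real.sqrt c₀)) * s := by ring
      rw [h2] at hsmall
      have h3 : (A₁ + A') * 1 ≤ (A₁ + A') * ((κ * (4 / Real.sqrt c₀)) * s) :=
        mul_le_mul_of_nonneg_left hsmall.le (by linarith)
      have h4 : 0 ≤ (κ * (4 / Real.sqrt c₀)) * s := mul_nonneg hq0 hs.le
      nlinarith
    · unfold cf
      rw [coeff_n a hn, coeff_n a hn]
      have : ∑ i : Fin n, un a n ζ (some i) = ∑ i : Fin n, x₁ (some i) := by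
        have h1 : ∀ i : Fin n, un a n ζ (some i) = ζ := fun _ => rfl
        simp only [h1, Finset.sum_const, Finset.card_univ, Fintype.card_fin, nsmul_eq_mul]
        rw [hζ]
        field_simp
      rw [this]

end Pool.Agent.K4H48.ST
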