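import Mathlib
import Pool.Agent.K4H48.ST.VFam
import Pool.Agent.H713R5.QJ.TSCL
import Pool.Agent.H713R5.QJ.TVFIN
import Pool.Agent.H713R5.QJ.Main

/-!
The area-distance theorem in the strata.
-/

set_option autoImplicit false

open Topology Filter Metric Set Polynomial MeasureTheory
open Pool.Agent.H713R3.ZA Pool.Agent.H713R5.QJ Pool.Agent.K4H48.LF

namespace Pool.Agent.K4H48.ST

/-- `T` has degree `n + 1`, and `c 0, …, c (n - 1)` are its critical points, listed with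
multiplicity. -/
def CL {n : ℕ} (T : ℂ[X]) (c : Fin n → ℂ) : Prop :=
  T.natDegree = n + 1 ∧
    derivative T = C (((n : ℂ) + 1) * T.leadingCoeff) * ∏ i, (X - C (c i))

/-- the bad set -/
def Bd (T : ℂ[X]) : Set ℂ := {z : ℂ | ¬ Good (ev T) z}

theorem bd_fin (T : ℂ[X]) (h2 : 2 ≤ T.natDegree) : volume (Bd T) < ⊤ := by
  obtain ⟨R, hR1, hR⟩ := APX.escape_radius T h2
  have h1 : Bd T ⊆ closedBall (0 : ℂ) R := by
    intro w hw
    rw [mem_closedBall_zero_iff]
    by_contra hcon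
    push Not at hcon
    apply hw
    exact APX.good_big (ev T) R hR1
      (fun w hw => hR T rfl rfl (fun j => by rw [sub_self, norm_zero]; exact zero_le_one) w hw) w hcon.le
  exact (measure_mono h1).trans_lt measure_closedBall_lt_top

/-- polynomials are determined by their derivative and constant term -/
theorem ext_deriv {p q : ℂ[X]} (h : derivative p = derivative q) (h0 : p.coeff 0 = q.coeff 0) :
    p = q := by
  have h2 : derivative (p - q) = 0 := by
    rw [derivative_sub, h, sub_self]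
  have h3 := eq_C_of_derivative_eq_zero h2
  rw [coeff_sub, h0, sub_self, C_0] at h3
  exact sub_eq_zero.1 h3

/-- critical points of a rescaled polynomial -/
theorem CL_sc {n : ℕ} {T : ℂ[X]} {c : Fin n → ℂ} (h : CL T c) {l : ℂ} (hl : l ≠ 0) :
    CL (sc l T) (fun i => l * c i) := by
  obtain ⟨k1, k2, -, -, -⟩ := scl_holds l T hl
  have hdeg : (sc l T).natDegree = n + 1 := by rw [k1, h.1]
  have hlead : (sc l T).leadingCoeff = l * l⁻¹ ^ (n + 1) * T.leadingCoeff := by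
    rw [Polynomial.leadingCoeff, hdeg, k2, Polynomial.leadingCoeff, h.1]
  refine ⟨hdeg, ?_⟩
  rw [hlead]
  unfold sc
  rw [derivative_C_mul, derivative_comp, h.2]
  simp only [derivative_mul, derivative_C, zero_mul, derivative_X, mul_one, zero_add, mul_comp,
    C_comp, Polynomial.prod_comp, sub_comp, X_comp]
  have h1 : ∀ i : Fin n, (C l⁻¹ * X - C (c i) : ℂ[X]) = C l⁻¹ * (X - C (l * c i)) := by
    intro i
    rw [mul_sub, ← C_mul, ← mul_assoc l⁻¹ l, inv_mul_cancel₀ hl, one_mul]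
  rw [Finset.prod_congr rfl (fun i _ => h1 i), Finset.prod_mul_distrib, Finset.prod_const,
    Finset.card_univ, Fintype.card_fin, ← C_pow]
  have h2 : C l * (C l⁻¹ * (C (((n : ℂ) + 1) * T.leadingCoeff) *
      (C (l⁻¹ ^ n) * ∏ i : Fin n, (X - C (l * c i))))) =
      C (l * (l⁻¹ * (((n : ℂ) + 1) * T.leadingCoeff * l⁻¹ ^ n))) *
        ∏ i : Fin n, (X - C (l * c i)) := by
    simp only [C_mul]
    ring
  rw [h2]
  congr 2
  rw [pow_succ]
  ring

/-- a monic polynomial with marked critical points belongs to the family -/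
theorem fam_of_CL {n : ℕ} {a : ℂ} {T : ℂ[X]} {c : Fin n → ℂ} (h : CL T c)
    (hm : T.leadingCoeff = a) : fam a n (fun k => k.elim (T.coeff 0) c) = T := by
  apply ext_deriv
  · rw [derivative_fam, h.2, hm]
    unfold dfam
    rw [mul_comm a]
    rfl
  · rw [coeff_fam_zero]
    rfl

theorem CL_fam {n : ℕ} {a : ℂ} (ha : a ≠ 0) (x : PE n) : CL (fam a n x) (fun i => x (some i)) := by
  have h1 : (fam a n x).leadingCoeff = a := by
    rw [Polynomial.leadingCoeff, natDegree_fam ha, coeff_fam_top]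
  refine ⟨natDegree_fam ha n x, ?_⟩
  rw [derivative_fam, h1]
  unfold dfam
  rw [mul_comm a]

theorem sc_eval (l : ℂ) (T : ℂ[X]) (z : ℂ) : (sc l T).eval z = l * T.eval (l⁻¹ * z) := by
  unfold sc
  simp

theorem mainS (n : ℕ) (A : ℝ) (hn : 1 ≤ n) (hA : 1 ≤ A) : ∃ C : ℝ, 0 < C ∧
    ∀ (T : ℂ[X]) (c : Fin n → ℂ), CL T c →
    (∀ j : ℕ, ‖T.coeff j‖ ≤ A) → 1 / A ≤ ‖T.leadingCoeff‖ →
    ∀ ε : ℝ, C * Real.sqrt (volume (Bd T)).toReal < ε →
      ∃ (S : ℂ[X]) (s : Fin n → ℂ), CL S s ∧ S.leadingCoeff = T.leadingCoeff ∧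
        S.coeff n = T.coeff n ∧
        (∀ j : ℕ, ‖S.coeff j - T.coeff j‖ < ε) ∧
        (∀ i, Good (ev S) (s i)) ∧ (∀ i j, c i = c j → s i = s j) ∧
        ∀ i j, T.eval (c i) = T.eval (c j) → S.eval (s i) = S.eval (s j) := by
  have hA0 : 0 < A := by linarith
  obtain ⟨C₁, hC₁, hV1⟩ := vfamS hh (a := 1) (n := n) (A' := A ^ (n + 2) * A) one_ne_zero hn
    (by positivity)
  refine ⟨A ^ (n + 3) * C₁, by positivity, ?_⟩
  intro T c hTc hTA hTl
  have hT := hTc.1
  have hfin := bd_fin T (by omega)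
  intro ε hε
  obtain ⟨ar, har⟩ : ∃ ar : ℝ, ar = (volume (Bd T)).toReal := ⟨_, rfl⟩
  have har0 : 0 ≤ ar := by rw [har]; exact ENNReal.toReal_nonneg
  have hvol : volume (Bd T) = ENNReal.ofReal ar := by
    rw [har, ENNReal.ofReal_toReal hfin.ne]
  rw [← har] at hε
  have hε0 : 0 < ε := lt_of_le_of_lt (by positivity) hε
  -- the small number
  obtain ⟨e, he0, he⟩ : ∃ e : ℝ, 0 < e ∧
      A ^ (n + 3) * C₁ * Real.sqrt (ar + e) < ε := by
    have hc : Continuous (fun e : ℝ => A ^ (n + 3) * C₁ * Real.sqrt (ar + e)) := by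
      fun_prop
    have h1 : Tendsto (fun e : ℝ => A ^ (n + 3) * C₁ * Real.sqrt (ar + e)) (𝓝 0)
        (𝓝 (A ^ (n + 3) * C₁ * Real.sqrt ar)) := by
      have := hc.tendsto 0
      simpa using this
    have h2 := h1.eventually (gt_mem_nhds hε)
    rw [Metric.eventually_nhds_iff] at h2
    obtain ⟨δ, hδ, h3⟩ := h2
    refine ⟨δ / 2, by linarith, h3 ?_⟩
    rw [dist_zero_right, Real.norm_eq_abs, abs_of_pos (by linarith)]
    linarith
  -- the scaling
  obtain ⟨l, hl⟩ := IsAlgClosed.exists_pow_nat_eq T.leadingCoeff (by omega : 0 < n)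
  have hTl0 : T.leadingCoeff ≠ 0 := by
    rw [← norm_pos_iff]
    exact lt_of_lt_of_le (by positivity) hTl
  have hl0 : l ≠ 0 := by
    rintro rfl
    rw [zero_pow (by omega)] at hl
    exact hTl0 hl.symm
  have hln : ‖l‖ ^ n = ‖T.leadingCoeff‖ := by rw [← norm_pow, hl]
  have hlA : ‖l‖ ≤ A := VFIN.le_of_pow hA hn (by rw [hln]; exact hTA _)
  have hlA' : ‖l‖⁻¹ ≤ A := by
    apply VFIN.le_of_pow hA hn
    rw [inv_pow, hln]
    have h1 : 0 < ‖T.leadingCoeff‖ := norm_pos_iff.2 hTl0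
    rw [inv_le_comm₀ h1 hA0, ← one_div]
    exact hTl
  have hlp : 0 < ‖l‖ := norm_pos_iff.2 hl0
  -- the monic polynomial
  obtain ⟨k1, k2, -, -, k5⟩ := scl_holds l T hl0
  have hS1top : T.coeff (n + 1) = T.leadingCoeff := by
    rw [Polynomial.leadingCoeff, hT]
  have hS2top : (sc l T).coeff (n + 1) = 1 := by
    rw [k2, hS1top, ← hl, pow_succ, inv_pow]
    field_simp
  have hS2lead : (sc l T).leadingCoeff = 1 := by
    rw [Polynomial.leadingCoeff, k1, hT, hS2top]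
  have hcl := CL_sc hTc hl0
  set x₁ : PE n := fun k => k.elim ((sc l T).coeff 0) (fun i => l * c i) with hx₁d
  have hx₁ : fam 1 n x₁ = sc l T := fam_of_CL hcl hS2lead
  have hfx : fx 1 n x₁ = ev (sc l T) := by
    funext w
    unfold fx ev
    rw [hx₁]
  have hcoef : ∀ j, ‖(fam 1 n x₁).coeff j‖ ≤ A ^ (n + 2) * A := by
    intro j
    rw [hx₁]
    rcases Nat.lt_or_ge (n + 1) j with hj | hj
    · rw [coeff_eq_zero_of_natDegree_lt (by rw [k1, hT]; exact hj), norm_zero]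
      positivity
    · rw [k2, norm_mul, norm_mul, norm_pow, norm_inv]
      have h1 : ‖l‖ * ‖l‖⁻¹ ^ j ≤ A ^ (n + 2) := by
        calc ‖l‖ * ‖l‖⁻¹ ^ j ≤ A * A ^ j :=
              mul_le_mul hlA (pow_le_pow_left₀ (by positivity) hlA' _) (by positivity) hA0.le
          _ = A ^ (j + 1) := by rw [pow_succ]; ring
          _ ≤ A ^ (n + 2) := pow_le_pow_right₀ hA (by omega)
      exact mul_le_mul h1 (hTA j) (norm_nonneg _) (by positivity)
  obtain ⟨s, hs⟩ : ∃ s : ℝ, s = A * Real.sqrt (ar + e) := ⟨_, rfl⟩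
  have hs2 : s ^ 2 = A ^ 2 * (ar + e) := by
    rw [hs, mul_pow, Real.sq_sqrt (by positivity)]
  have hs0 : 0 < s := by
    rw [hs]
    exact mul_pos hA0 (Real.sqrt_pos.2 (by positivity))
  have hvol2 : volume {z : ℂ | ¬ Good (fx 1 n x₁) z} < ENNReal.ofReal (s ^ 2) := by
    rw [hfx, k5]
    calc ENNReal.ofReal (‖l‖ ^ 2) * volume {z : ℂ | ¬ Good (ev T) z}
        ≤ ENNReal.ofReal (A ^ 2) * ENNReal.ofReal ar :=
          mul_le_mul' (ENNReal.ofReal_le_ofReal (pow_le_pow_left₀ hlp.le hlA 2)) hvol.le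
      _ = ENNReal.ofReal (A ^ 2 * ar) := (ENNReal.ofReal_mul (by positivity)).symm
      _ < ENNReal.ofReal (s ^ 2) := by
          rw [ENNReal.ofReal_lt_ofReal_iff (by positivity), hs2]
          exact mul_lt_mul_of_pos_left (by linarith) (by positivity)
  obtain ⟨x, hx1, hx2, hx3⟩ := hV1 x₁ s hcoef hs0 hvol2
  -- the result
  obtain ⟨m1, m2, m3, -, -⟩ := scl_holds l⁻¹ (fam 1 n x) (inv_ne_zero hl0)
  have hdeg : (sc l⁻¹ (fam 1 n x)).natDegree = n + 1 := by
    rw [m1, natDegree_fam one_ne_zero]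
  have hcoe : ∀ j, (sc l⁻¹ (fam 1 n x)).coeff j - T.coeff j =
      (l⁻¹ * l ^ j) * ((fam 1 n x).coeff j - (fam 1 n x₁).coeff j) := by
    intro j
    rw [m2, hx₁, k2, inv_inv, mul_sub]
    congr 1
    have h1 : l⁻¹ * l ^ j * (l * l⁻¹ ^ j * T.coeff j) =
        (l⁻¹ * l) * (l ^ j * l⁻¹ ^ j) * T.coeff j := by ring
    rw [h1, inv_mul_cancel₀ hl0, ← mul_pow, mul_inv_cancel₀ hl0, one_pow, one_mul, one_mul]
  refine ⟨sc l⁻¹ (fam 1 n x), fun i => l⁻¹ * x (some i),
    CL_sc (CL_fam one_ne_zero x) (inv_ne_zero hl0), ?_, ?_, ?_, ?_, ?_, ?_⟩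
  · rw [Polynomial.leadingCoeff, hdeg, m2, inv_inv, coeff_fam_top, mul_one, pow_succ, ← hl]
    field_simp
  · have h1 := hcoe n
    have h2 : (fam 1 n x).coeff n = (fam 1 n x₁).coeff n := hx3.ce
    rw [h2, sub_self, mul_zero] at h1
    exact sub_eq_zero.1 h1
  · intro j
    rcases Nat.lt_or_ge (n + 1) j with hj | hj
    · rw [coeff_eq_zero_of_natDegree_lt (by rw [hdeg]; exact hj),
        coeff_eq_zero_of_natDegree_lt (by rw [hT]; exact hj), sub_zero, norm_zero]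
      exact hε0
    · have e2 : ‖(sc l⁻¹ (fam 1 n x)).coeff j - T.coeff j‖ ≤ A ^ (n + 2) * (C₁ * s) := by
        rw [hcoe, norm_mul, norm_mul, norm_inv, norm_pow]
        have h1 : ‖l‖⁻¹ * ‖l‖ ^ j ≤ A ^ (n + 2) := by
          calc ‖l‖⁻¹ * ‖l‖ ^ j ≤ A * A ^ j :=
                mul_le_mul hlA' (pow_le_pow_left₀ hlp.le hlA _) (by positivity) hA0.le
            _ = A ^ (j + 1) := by rw [pow_succ]; ring
            _ ≤ A ^ (n + 2) := pow_le_pow_right₀ hA (by omega)
        exact mul_le_mul h1 (hx1 j) (norm_nonneg _) (by positivity)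
      have e3 : A ^ (n + 2) * (C₁ * s) = A ^ (n + 3) * C₁ * Real.sqrt (ar + e) := by
        rw [hs, pow_succ A (n + 2)]
        ring
      rw [e3] at e2
      exact lt_of_le_of_lt e2 he
  · intro i
    exact (m3 (x (some i))).2 (hx2 i)
  · intro i j hij
    have h1 : x₁ (some i) = x₁ (some j) := by
      show l * c i = l * c j
      rw [hij]
    show l⁻¹ * x (some i) = l⁻¹ * x (some j)
    rw [hx3.cp i j h1]
  · intro i j hij
    have h0 : ∀ i, vl 1 n i x₁ = l * T.eval (c i) := by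
      intro i
      show (fam 1 n x₁).eval (x₁ (some i)) = _
      rw [hx₁, sc_eval]
      show l * T.eval (l⁻¹ * (l * c i)) = _
      rw [← mul_assoc, inv_mul_cancel₀ hl0, one_mul]
    have h1 : vl 1 n i x₁ = vl 1 n j x₁ := by rw [h0, h0, hij]
    have h2 := hx3.cv i j h1
    have h3 : ∀ i, (sc l⁻¹ (fam 1 n x)).eval (l⁻¹ * x (some i)) = l⁻¹ * vl 1 n i x := by
      intro i
      rw [sc_eval, inv_inv, ← mul_assoc l l⁻¹, mul_inv_cancel₀ hl0, one_mul]
      rfl
    simp only [h3, h2]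

end Pool.Agent.K4H48.ST
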