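import Mathlib
import Pool.Agent.H713R5.QJ.TPF
import Pool.Agent.H713R5.QJ.TSURL
import Pool.Agent.H713R5.QJ.TINJ
import Pool.Agent.H713R5.QJ.TAF

/-!
Duality and solvability of the linearized equations for the cycles inside the strata.
-/

set_option autoImplicit false

open Topology Filter Metric Set Polynomial MeasureTheory
open Pool.Agent.H713R5.QJ

namespace Pool.Agent.K4H48.ST

/-- the tangent space of the stratum, as a space of polynomials -/
noncomputable def TT (T : ℂ[X]) {n : ℕ} (x : Fin n → ℂ) : Submodule ℂ ℂ[X] where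
  carrier := {h | h ∈ degreeLE ℂ ((T.natDegree - 2 : ℕ) : WithBot ℕ) ∧
    (∀ i j, T.eval (x i) = T.eval (x j) → h.eval (x i) = h.eval (x j)) ∧
    ∀ α : ℂ, (X - C α) ^ (((Finset.univ : Finset (Fin n)).filter fun j => x j = α).card - 1)
      ∣ derivative h}
  add_mem' := by
    rintro g h ⟨a1, a2, a3⟩ ⟨b1, b2, b3⟩
    refine ⟨Submodule.add_mem _ a1 b1, fun i j hij => ?_, fun α => ?_⟩
    · rw [eval_add, eval_add, a2 i j hij, b2 i j hij]
    · rw [derivative_add]
      exact dvd_add (a3 α) (b3 α)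
  zero_mem' := ⟨Submodule.zero_mem _, fun _ _ _ => by simp, fun α => by simp⟩
  smul_mem' := by
    rintro k g ⟨a1, a2, a3⟩
    refine ⟨Submodule.smul_mem _ k a1, fun i j hij => ?_, fun α => ?_⟩
    · rw [eval_smul, eval_smul, a2 i j hij]
    · rw [derivative_smul, smul_eq_C_mul]
      exact (a3 α).mul_left _

theorem mem_TT {T : ℂ[X]} {n : ℕ} {x : Fin n → ℂ} {h : ℂ[X]} : h ∈ TT T x ↔
    h.natDegree ≤ T.natDegree - 2 ∧
    (∀ i j, T.eval (x i) = T.eval (x j) → h.eval (x i) = h.eval (x j)) ∧
    ∀ α : ℂ, (X - C α) ^ (((Finset.univ : Finset (Fin n)).filter fun j => x j = α).card - 1)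
      ∣ derivative h := by
  rw [natDegree_le_iff_degree_le, ← mem_degreeLE]
  rfl

/-- the polynomial in the duality argument is tangent to the stratum -/
theorem dual_TT {n : ℕ} (T : ℂ[X]) (x : Fin n → ℂ) (w : ℂ) (hd : 2 ≤ T.natDegree)
    (hx : derivative T = C (((n : ℂ) + 1) * T.leadingCoeff) * ∏ i, (X - C (x i)))
    (hs : ∀ ζ : ℂ, T.eval ζ = w → (derivative T).eval ζ ≠ 0)
    (hdeg : (∑ ζ ∈ (T - C w).roots.toFinset, C (((derivative T).eval ζ ^ 2)⁻¹) *
      ((derivative T - C ((derivative T).eval ζ)) /ₘ (X - C ζ)) : ℂ[X]).natDegree ≤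
        T.natDegree - 2) :
    (∑ ζ ∈ (T - C w).roots.toFinset, C (((derivative T).eval ζ ^ 2)⁻¹) *
      ((derivative T - C ((derivative T).eval ζ)) /ₘ (X - C ζ)) : ℂ[X]) ∈ TT T x := by
  classical
  set F := (T - C w).roots.toFinset with hF
  set h : ℂ[X] := ∑ ζ ∈ F, C (((derivative T).eval ζ ^ 2)⁻¹) *
    ((derivative T - C ((derivative T).eval ζ)) /ₘ (X - C ζ)) with hh
  have hroot : ∀ ζ ∈ F, T.eval ζ = w := by
    intro ζ hζ
    have : (T - C w).eval ζ = 0 := by
      have := (Multiset.mem_toFinset.mp hζ)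
      exact (mem_roots'.mp this).2
    rw [eval_sub, eval_C] at this
    exact sub_eq_zero.mp this
  have hdiv : ∀ ζ : ℂ, (X - C ζ) * ((derivative T - C ((derivative T).eval ζ)) /ₘ (X - C ζ)) =
      derivative T - C ((derivative T).eval ζ) := by
    intro ζ
    apply mul_divByMonic_eq_iff_isRoot.mpr
    simp [IsRoot.def]
  have hdivq : ∀ ζ ∈ F, (X - C ζ) * ((T - C w) /ₘ (X - C ζ)) = T - C w := by
    intro ζ hζ
    apply mul_divByMonic_eq_iff_isRoot.mpr
    simp [IsRoot.def, hroot ζ hζ]
  -- partial fractions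
  have hone : ∑ ζ ∈ F, C (((derivative T).eval ζ)⁻¹) * ((T - C w) /ₘ (X - C ζ)) = 1 := by
    have hne : T - C w ≠ 0 := by
      intro h0
      have : T = C w := sub_eq_zero.mp h0
      rw [this, natDegree_C] at hd
      omega
    have hinf : {z : ℂ | T.eval z ≠ w}.Infinite := by
      have h1 : ({z : ℂ | T.eval z ≠ w})ᶜ.Finite := by
        refine (T - C w).roots.toFinset.finite_toSet.subset ?_
        intro z hz
        simp only [mem_compl_iff, mem_ofPred_eq, not_not] at hz
        rw [Finset.mem_coe, Multiset.mem_toFinset, mem_roots hne]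
        simp [IsRoot.def, hz]
      have h2 := h1.infinite_compl
      rwa [compl_compl] at h2
    apply Polynomial.eq_of_infinite_eval_eq
    refine hinf.mono ?_
    intro z hz
    simp only [mem_ofPred_eq] at hz
    have h1 := PFaux.pf1 T w hd hs z hz
    rw [← hF] at h1
    have hTz : T.eval z - w ≠ 0 := sub_ne_zero.mpr hz
    simp only [mem_ofPred_eq, eval_finsetSum, eval_mul, eval_C, eval_one]
    have h2 : ∀ ζ ∈ F, ((derivative T).eval ζ)⁻¹ * ((T - C w) /ₘ (X - C ζ)).eval z =
        (T.eval z - w) * (((derivative T).eval ζ)⁻¹ * (z - ζ)⁻¹) := by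
      intro ζ hζ
      have h3 := congrArg (fun p => Polynomial.eval z p) (hdivq ζ hζ)
      simp only [eval_mul, eval_sub, eval_X, eval_C] at h3
      have h4 : z - ζ ≠ 0 := by
        intro h0
        apply hz
        rw [sub_eq_zero.mp h0]
        exact hroot ζ hζ
      rw [← h3]
      field_simp
    rw [Finset.sum_congr rfl h2, ← Finset.mul_sum, h1, mul_inv_cancel₀ hTz]
  -- the identity
  set Q : ℂ[X] := ∑ ζ ∈ F, C (((derivative T).eval ζ ^ 2)⁻¹) * ((T - C w) /ₘ (X - C ζ)) with hQ
  have hid : (T - C w) * h + 1 = derivative T * Q := by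
    rw [← hone, hQ, hh, Finset.mul_sum, Finset.mul_sum, ← Finset.sum_add_distrib]
    apply Finset.sum_congr rfl
    intro ζ hζ
    have h3 := hs ζ (hroot ζ hζ)
    have e1 : (T - C w) * (C (((derivative T).eval ζ ^ 2)⁻¹) *
        ((derivative T - C ((derivative T).eval ζ)) /ₘ (X - C ζ))) =
        C (((derivative T).eval ζ ^ 2)⁻¹) * ((T - C w) /ₘ (X - C ζ)) *
          (derivative T - C ((derivative T).eval ζ)) := by
      linear_combination (-(C (((derivative T).eval ζ ^ 2)⁻¹) *
        ((derivative T - C ((derivative T).eval ζ)) /ₘ (X - C ζ)))) * hdivq ζ hζ +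
        (C (((derivative T).eval ζ ^ 2)⁻¹) * ((T - C w) /ₘ (X - C ζ))) * hdiv ζ
    have e2 : C (((derivative T).eval ζ ^ 2)⁻¹) * C ((derivative T).eval ζ) =
        (C (((derivative T).eval ζ)⁻¹) : ℂ[X]) := by
      rw [← C_mul]
      congr 1
      field_simp
    rw [e1, ← e2]
    ring
  have hcrit : ∀ i, (derivative T).eval (x i) = 0 := by
    intro i
    rw [hx, eval_mul, eval_prod, Finset.prod_eq_zero (Finset.mem_univ i) (by simp), mul_zero]
  have hTx : ∀ i, T.eval (x i) ≠ w := fun i h0 => hs _ h0 (hcrit i)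
  rw [mem_TT]
  refine ⟨hdeg, fun i j hij => ?_, fun α => ?_⟩
  · have hv : ∀ i, (T.eval (x i) - w) * h.eval (x i) = -1 := by
      intro i
      have h1 := congrArg (fun p => Polynomial.eval (x i) p) hid
      simp only [eval_add, eval_mul, eval_sub, eval_C, eval_one, hcrit i, zero_mul] at h1
      linear_combination h1
    have h1 := hv i
    have h2 := hv j
    rw [hij] at h1
    have h3 : T.eval (x j) - w ≠ 0 := sub_ne_zero.mpr (hTx j)
    apply mul_left_cancel₀ h3
    rw [h1, h2]
  · set m := ((Finset.univ : Finset (Fin n)).filter fun j => x j = α).card with hm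
    by_cases hm0 : m = 0
    · rw [hm0, Nat.zero_sub, pow_zero]
      exact one_dvd _
    · obtain ⟨i, hi⟩ : ∃ i, x i = α := by
        have h1 : 0 < m := Nat.pos_of_ne_zero hm0
        obtain ⟨i, hi⟩ := Finset.card_pos.1 h1
        exact ⟨i, (Finset.mem_filter.1 hi).2⟩
      have hdT : (X - C α) ^ m ∣ derivative T := by
        rw [hx]
        apply Dvd.dvd.mul_left
        rw [← Finset.prod_filter_mul_prod_filter_not (Finset.univ : Finset (Fin n))
          (fun j : Fin n => x j = α)]
        apply Dvd.dvd.mul_right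
        rw [Finset.prod_congr rfl (g := fun _ => X - C α) (by
          intro j hj
          rw [(Finset.mem_filter.1 hj).2]), Finset.prod_const]
      have h1 : (X - C α) ^ m ∣ (T - C w) * h + 1 := by
        rw [hid]
        exact hdT.mul_right _
      have h2 : (X - C α) ^ (m - 1) ∣ derivative ((T - C w) * h + 1) :=
        pow_sub_one_dvd_derivative_of_pow_dvd h1
      have h3 : derivative ((T - C w) * h + 1) = derivative T * h + (T - C w) * derivative h := by
        simp [derivative_mul]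
      rw [h3] at h2
      have h4 : (X - C α) ^ (m - 1) ∣ derivative T * h :=
        ((pow_dvd_pow _ (Nat.sub_le _ _)).trans hdT).mul_right _
      have h5 : (X - C α) ^ (m - 1) ∣ (T - C w) * derivative h := (dvd_add_right h4).1 h2
      have h6 : IsCoprime ((X - C α) ^ (m - 1)) (T - C w) := by
        apply IsCoprime.pow_left
        rw [(irreducible_X_sub_C α).coprime_iff_not_dvd, dvd_iff_isRoot]
        simp only [IsRoot.def, eval_sub, eval_C]
        rw [← hi]
        exact sub_ne_zero.mpr (hTx i)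
      exact h6.dvd_of_dvd_mul_left h5

open PFaux in
theorem pfS {n : ℕ} (T : ℂ[X]) (x : Fin n → ℂ)
    (hx : derivative T = C (((n : ℂ) + 1) * T.leadingCoeff) * ∏ i, (X - C (x i)))
    (Z : Finset ℂ) (a b : ℂ → ℂ) (hd : 2 ≤ T.natDegree) (hcyc : Cyc T Z)
    (ha : ∀ z ∈ Z, a (T.eval z) = a z)
    (hb : ∀ z ∈ Z, b (T.eval z) = b z / (derivative T).eval z -
      a z * (derivative (derivative T)).eval z / (derivative T).eval z ^ 2)
    (hL : ∀ h ∈ TT T x,
      ∑ z ∈ Z, (a z * ((derivative h).eval z / (derivative T).eval z -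
        h.eval z * (derivative (derivative T)).eval z / (derivative T).eval z ^ 2) +
        b z * (h.eval z / (derivative T).eval z)) = 0) (w : ℂ) (hw : w ∉ Z)
    (hs : ∀ ζ : ℂ, T.eval ζ = w → (derivative T).eval ζ ≠ 0) :
    ∑ ζ ∈ (T - C w).roots.toFinset, qd Z a b ζ / (derivative T).eval ζ ^ 2 = qd Z a b w := by
  classical
  set F := (T - C w).roots.toFinset with hF
  set h : ℂ[X] := ∑ ζ ∈ F, C (((derivative T).eval ζ ^ 2)⁻¹) *
    ((derivative T - C ((derivative T).eval ζ)) /ₘ (X - C ζ)) with hh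
  have hdeg : h.natDegree ≤ T.natDegree - 2 := by
    rw [hh]
    apply natDegree_sum_le_of_forall_le
    intro ζ hζ
    refine le_trans (natDegree_C_mul_le _ _) ?_
    rw [natDegree_divByMonic _ (monic_X_sub_C ζ), natDegree_X_sub_C]
    have : (derivative T - C ((derivative T).eval ζ)).natDegree ≤ T.natDegree - 1 := by
      refine le_trans (natDegree_sub_le _ _) ?_
      rw [natDegree_C]
      exact max_le (natDegree_derivative_le T) (Nat.zero_le _)
    omega
  have hroot : ∀ ζ ∈ F, T.eval ζ = w := by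
    intro ζ hζ
    have : (T - C w).eval ζ = 0 := by
      have := (Multiset.mem_toFinset.mp hζ)
      exact (mem_roots'.mp this).2
    rw [eval_sub, eval_C] at this
    exact sub_eq_zero.mp this
  have hdiv : ∀ ζ : ℂ, (X - C ζ) * ((derivative T - C ((derivative T).eval ζ)) /ₘ (X - C ζ)) =
      derivative T - C ((derivative T).eval ζ) := by
    intro ζ
    apply mul_divByMonic_eq_iff_isRoot.mpr
    simp [IsRoot.def]
  -- values at the points of Z
  have hzne : ∀ z ∈ Z, T.eval z ≠ w := by
    intro z hz hzw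
    apply hw
    rw [← hzw]
    exact hcyc.1 z hz
  have hzζ : ∀ z ∈ Z, ∀ ζ ∈ F, z - ζ ≠ 0 := by
    intro z hz ζ hζ h0
    apply hzne z hz
    rw [sub_eq_zero.mp h0]
    exact hroot ζ hζ
  have hval : ∀ z ∈ Z, h.eval z = (derivative T).eval z *
      (∑ ζ ∈ F, ((derivative T).eval ζ ^ 2)⁻¹ * (z - ζ)⁻¹) - (T.eval z - w)⁻¹ := by
    intro z hz
    rw [← pf1 T w hd hs z (hzne z hz), hh, eval_finsetSum, Finset.mul_sum,
      ← Finset.sum_sub_distrib]
    apply Finset.sum_congr rfl
    intro ζ hζ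
    have h1 := congrArg (fun p => Polynomial.eval z p) (hdiv ζ)
    simp only [eval_mul, eval_sub, eval_X, eval_C] at h1
    rw [eval_mul, eval_C]
    have h2 := hzζ z hz ζ hζ
    have h3 := hs ζ (hroot ζ hζ)
    have h4 : ((derivative T - C ((derivative T).eval ζ)) /ₘ (X - C ζ)).eval z =
        ((derivative T).eval z - (derivative T).eval ζ) / (z - ζ) := by
      rw [eq_div_iff h2, mul_comm]; exact h1
    rw [h4]
    field_simp
  have hdval : ∀ z ∈ Z, (derivative h).eval z = (derivative (derivative T)).eval z *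
      (∑ ζ ∈ F, ((derivative T).eval ζ ^ 2)⁻¹ * (z - ζ)⁻¹) -
      (derivative T).eval z * (∑ ζ ∈ F, ((derivative T).eval ζ ^ 2)⁻¹ * ((z - ζ) ^ 2)⁻¹) +
      (derivative T).eval z / (T.eval z - w) ^ 2 := by
    intro z hz
    rw [← pf2 T w hd hs z (hzne z hz), hh, derivative_sum, eval_finsetSum, Finset.mul_sum,
      Finset.mul_sum, ← Finset.sum_sub_distrib, ← Finset.sum_add_distrib]
    apply Finset.sum_congr rfl
    intro ζ hζ
    have h1 := congrArg (fun p => Polynomial.eval z p) (hdiv ζ)
    simp only [eval_mul, eval_sub, eval_X, eval_C] at h1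
    have h1' := congrArg (fun p => Polynomial.eval z (derivative p)) (hdiv ζ)
    simp only [derivative_mul, derivative_sub, derivative_X, derivative_C, sub_zero, one_mul,
      eval_add, eval_mul, eval_sub, eval_X, eval_C] at h1'
    have h2 := hzζ z hz ζ hζ
    have h3 := hs ζ (hroot ζ hζ)
    have h4 : ((derivative T - C ((derivative T).eval ζ)) /ₘ (X - C ζ)).eval z =
        ((derivative T).eval z - (derivative T).eval ζ) / (z - ζ) := by
      rw [eq_div_iff h2, mul_comm]; exact h1
    have h5 : (derivative ((derivative T - C ((derivative T).eval ζ)) /ₘ (X - C ζ))).eval z =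
        ((derivative (derivative T)).eval z -
          ((derivative T).eval z - (derivative T).eval ζ) / (z - ζ)) / (z - ζ) := by
      rw [eq_div_iff h2, ← h4, ← h1']
      ring
    rw [derivative_mul, derivative_C, zero_mul, zero_add, eval_mul, eval_C, h5]
    field_simp
    ring
  have hLh := hL h (dual_TT T x w hd hx hs hdeg)
  have key : ∀ z ∈ Z, (a z * ((derivative h).eval z / (derivative T).eval z -
        h.eval z * (derivative (derivative T)).eval z / (derivative T).eval z ^ 2) +
        b z * (h.eval z / (derivative T).eval z)) =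
      (a (T.eval z) / (w - T.eval z) ^ 2 + b (T.eval z) / (w - T.eval z)) -
      ∑ ζ ∈ F, (a z / (ζ - z) ^ 2 + b z / (ζ - z)) / (derivative T).eval ζ ^ 2 := by
    intro z hz
    have hT' := hcyc.2.2 z hz
    have hTw : T.eval z - w ≠ 0 := sub_ne_zero.mpr (hzne z hz)
    have hTw' : w - T.eval z ≠ 0 := sub_ne_zero.mpr (hzne z hz).symm
    have hS : ∑ ζ ∈ F, (a z / (ζ - z) ^ 2 + b z / (ζ - z)) / (derivative T).eval ζ ^ 2 =
        a z * (∑ ζ ∈ F, ((derivative T).eval ζ ^ 2)⁻¹ * ((z - ζ) ^ 2)⁻¹) -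
        b z * (∑ ζ ∈ F, ((derivative T).eval ζ ^ 2)⁻¹ * (z - ζ)⁻¹) := by
      rw [Finset.mul_sum, Finset.mul_sum, ← Finset.sum_sub_distrib]
      apply Finset.sum_congr rfl
      intro ζ hζ
      have h2 := hzζ z hz ζ hζ
      have h2' : ζ - z ≠ 0 := by
        intro h0
        apply h2
        rw [← neg_sub, h0, neg_zero]
      have h3 := hs ζ (hroot ζ hζ)
      have h6 : (ζ - z) ^ 2 = (z - ζ) ^ 2 := by ring
      have h7 : (ζ - z)⁻¹ = - (z - ζ)⁻¹ := by
        rw [← inv_neg, neg_sub]
      rw [h6, div_eq_mul_inv (b z), h7]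
      field_simp
      ring
    rw [hS, hval z hz, hdval z hz, ha z hz, hb z hz]
    have h8 : (w - T.eval z) ^ 2 = (T.eval z - w) ^ 2 := by ring
    have h9 : (w - T.eval z)⁻¹ = - (T.eval z - w)⁻¹ := by
      rw [← inv_neg, neg_sub]
    rw [h8, div_eq_mul_inv _ (w - T.eval z), h9]
    generalize (∑ ζ ∈ F, ((derivative T).eval ζ ^ 2)⁻¹ * (z - ζ)⁻¹) = R
    generalize (∑ ζ ∈ F, ((derivative T).eval ζ ^ 2)⁻¹ * ((z - ζ) ^ 2)⁻¹) = R2
    generalize T.eval z - w = Q at hTw
    field_simp
    ring
  rw [Finset.sum_congr rfl key, Finset.sum_sub_distrib, sub_eq_zero] at hLh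
  have himg : Z.image (fun z => T.eval z) = Z := by
    apply Finset.eq_of_subset_of_card_le
    · intro y hy
      obtain ⟨z, hz, rfl⟩ := Finset.mem_image.mp hy
      exact hcyc.1 z hz
    · rw [Finset.card_image_of_injOn]
      intro z hz z' hz' hzz
      exact hcyc.2.1 z hz z' hz' hzz
  have hperm : ∑ z ∈ Z, (a (T.eval z) / (w - T.eval z) ^ 2 + b (T.eval z) / (w - T.eval z)) =
      qd Z a b w := by
    rw [qd]
    conv_rhs => rw [← himg]
    rw [Finset.sum_image]
    intro z hz z' hz' hzz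
    exact hcyc.2.1 z hz z' hz' hzz
  rw [hperm, Finset.sum_comm] at hLh
  rw [hLh]
  apply Finset.sum_congr rfl
  intro ζ hζ
  rw [qd, Finset.sum_div]

end Pool.Agent.K4H48.ST
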