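import Mathlib
import Pool.Agent.K4H48.ST.PF

/-!
Solvability of the linearized equations for the cycles inside the strata.
-/

set_option autoImplicit false

open Topology Filter Metric Set Polynomial MeasureTheory
open Pool.Agent.H713R5.QJ

namespace Pool.Agent.K4H48.ST

theorem surlS {n : ℕ} (T : ℂ[X]) (x : Fin n → ℂ)
    (hx : derivative T = C (((n : ℂ) + 1) * T.leadingCoeff) * ∏ i, (X - C (x i)))
    (Z : Finset ℂ) (hT : 2 ≤ T.natDegree) (hZ : Cyc T Z)
    (hmul : ∀ z ∈ Z, ∀ p : ℕ, 0 < p → (ev T)^[p] z = z → ‖deriv ((ev T)^[p]) z‖ = 1)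
    (e κ : ℂ → ℂ) (hκ : ∀ z ∈ Z, κ (T.eval z) = κ z) :
    ∃ (h : ℂ[X]) (u : ℂ → ℂ), h ∈ TT T x ∧
      (∀ z ∈ Z, u (T.eval z) - (derivative T).eval z * u z - h.eval z = e z) ∧
      ∀ z ∈ Z, ∑ i ∈ Finset.range (Function.minimalPeriod (ev T) z),
        ((derivative h).eval ((ev T)^[i] z) +
          (derivative (derivative T)).eval ((ev T)^[i] z) * u ((ev T)^[i] z)) /
          (derivative T).eval ((ev T)^[i] z) = κ z := by
  classical
  obtain ⟨hmaps, hinj, hder⟩ := hZ
  set f0 : Z → Z := fun z => ⟨T.eval (z : ℂ), hmaps z z.2⟩ with hf0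
  have hf0i : Function.Injective f0 := by
    intro z z' h
    exact Subtype.ext (hinj z z.2 z' z'.2 (congrArg Subtype.val h))
  set τ : Equiv.Perm Z := Equiv.ofBijective f0 (Finite.injective_iff_bijective.mp hf0i) with hτ
  have hτv : ∀ z : Z, ((τ z : Z) : ℂ) = T.eval (z : ℂ) := fun z => rfl
  set N := orderOf τ with hN
  have hN0 : 0 < N := orderOf_pos τ
  have hτN : τ ^ N = 1 := pow_orderOf_eq_one τ
  have hit : ∀ (i : ℕ) (z : Z), (((τ ^ i) z : Z) : ℂ) = (ev T)^[i] (z : ℂ) := by
    intro i
    induction i with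
    | zero => intro z; rfl
    | succ i ih =>
      intro z
      rw [pow_succ', Equiv.Perm.mul_apply, hτv, ih, Function.iterate_succ_apply']
      rfl
  have hper : ∀ z : Z, (ev T)^[N] (z : ℂ) = z := by
    intro z
    rw [← hit, hτN]
    rfl
  -- periods
  have hpp : ∀ z : Z, Function.IsPeriodicPt (ev T) N (z : ℂ) := fun z => hper z
  have hdvd : ∀ z : Z, Function.minimalPeriod (ev T) (z : ℂ) ∣ N := fun z =>
    (hpp z).minimalPeriod_dvd
  have hmp0 : ∀ z : Z, 0 < Function.minimalPeriod (ev T) (z : ℂ) := fun z =>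
    (hpp z).minimalPeriod_pos hN0
  have hmpi : ∀ z : Z, Function.minimalPeriod (ev T) ((τ z : Z) : ℂ) =
      Function.minimalPeriod (ev T) (z : ℂ) := by
    intro z
    rw [hτv]
    exact Function.minimalPeriod_apply ⟨N, hN0, hpp z⟩
  -- the right side
  set q : Z → ℕ := fun z => N / Function.minimalPeriod (ev T) (z : ℂ) with hq
  have hqN : ∀ z : Z, Function.minimalPeriod (ev T) (z : ℂ) * q z = N := fun z =>
    Nat.mul_div_cancel' (hdvd z)
  have hq0 : ∀ z : Z, (q z : ℂ) ≠ 0 := by
    intro z h
    have h1 : q z = 0 := by exact_mod_cast h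
    have h2 := hqN z
    rw [h1, mul_zero] at h2
    omega
  set κt : Z → ℂ := fun z => (q z : ℂ) * κ z with hκt
  have hκti : ∀ z, κt (τ z) = κt z := by
    intro z
    rw [hκt]
    simp only [hq]
    rw [hmpi, hτv, hκ z z.2]
  -- the linear algebra
  have hmem : ((fun z : Z => e z), κt) ∈
      Submodule.map (surl_lin T Z τ N) ((TT T x).prod ⊤) := by
    by_contra hnot
    obtain ⟨f, hf1, hf2⟩ := Submodule.exists_le_ker_of_notMem hnot
    obtain ⟨β, α, hf⟩ := surl_fun f
    have key : ∀ (h : ℂ[X]) (u : Z → ℂ), h ∈ TT T x →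
        ∑ z : Z, β z * (u (τ z) - (derivative T).eval (z : ℂ) * u z - h.eval (z : ℂ)) +
          ∑ z : Z, (∑ i ∈ Finset.range N, α ((τ ^ i).symm z)) *
            (((derivative h).eval (z : ℂ) + (derivative (derivative T)).eval (z : ℂ) * u z) /
              (derivative T).eval (z : ℂ)) = 0 := by
      intro h u hh
      have h1 : surl_lin T Z τ N (h, u) ∈ Submodule.map (surl_lin T Z τ N)
          ((TT T x).prod ⊤) := by
        refine Submodule.mem_map_of_mem ?_
        exact ⟨hh, trivial⟩
      have h2 : f (surl_lin T Z τ N (h, u)) = 0 := hf2 h1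
      have h3 := surl_swap τ N α (fun z : Z => ((derivative h).eval (z : ℂ) +
        (derivative (derivative T)).eval (z : ℂ) * u z) / (derivative T).eval (z : ℂ))
      rw [← h3]
      rw [← h2]
      exact (hf _ _).symm
    set A : Z → ℂ := fun z => ∑ i ∈ Finset.range N, α ((τ ^ i).symm z) with hA
    have hAi : ∀ z, A (τ z) = A z := fun z => surl_inv τ N hτN α z
    -- the relation for `b`
    have hrel : ∀ z : Z, β (τ.symm z) - β z * (derivative T).eval (z : ℂ) +
        A z * ((derivative (derivative T)).eval (z : ℂ) / (derivative T).eval (z : ℂ)) = 0 := by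
      intro z
      have h1 := key 0 (Pi.single z 1) (Submodule.zero_mem _)
      simp only [eval_zero, derivative_zero, sub_zero, zero_add] at h1
      have h2 : ∑ y : Z, β y * ((Pi.single z (1 : ℂ) : Z → ℂ) (τ y) -
          (derivative T).eval (y : ℂ) * (Pi.single z (1 : ℂ) : Z → ℂ) y) =
          β (τ.symm z) - β z * (derivative T).eval (z : ℂ) := by
        simp only [mul_sub, Finset.sum_sub_distrib]
        congr 1
        · rw [Finset.sum_eq_single (τ.symm z)]
          · simp
          · intro y _ hy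
            rw [Pi.single_eq_of_ne (fun h => hy (by rw [← h, Equiv.symm_apply_apply])), mul_zero]
          · intro h; exact absurd (Finset.mem_univ _) h
        · rw [Finset.sum_eq_single z]
          · simp
          · intro y _ hy
            rw [Pi.single_eq_of_ne hy, mul_zero, mul_zero]
          · intro h; exact absurd (Finset.mem_univ _) h
      have h3 : ∑ y : Z, A y * ((derivative (derivative T)).eval (y : ℂ) *
          (Pi.single z (1 : ℂ) : Z → ℂ) y / (derivative T).eval (y : ℂ)) =
          A z * ((derivative (derivative T)).eval (z : ℂ) / (derivative T).eval (z : ℂ)) := by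
        rw [Finset.sum_eq_single z]
        · simp
        · intro y _ hy
          rw [Pi.single_eq_of_ne hy, mul_zero, zero_div, mul_zero]
        · intro h; exact absurd (Finset.mem_univ _) h
      rw [h2, h3] at h1
      exact h1
    have hder' : ∀ z : Z, (derivative T).eval (z : ℂ) ≠ 0 := fun z => hder z z.2
    -- extension to `ℂ`
    set a : ℂ → ℂ := fun w => if hw : w ∈ Z then A ⟨w, hw⟩ else 0 with ha
    set b : ℂ → ℂ := fun w => if hw : w ∈ Z then -β (τ.symm ⟨w, hw⟩) else 0 with hb
    have haz : ∀ z : Z, a z = A z := fun z => by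
      rw [ha]; simp only [z.2, dif_pos]
    have hbz : ∀ z : Z, b z = -β (τ.symm z) := fun z => by
      rw [hb]; simp only [z.2, dif_pos]
    have hbτ : ∀ z : Z, b (T.eval (z : ℂ)) = -β z := by
      intro z
      rw [← hτv, hbz, Equiv.symm_apply_apply]
    have hb2 : ∀ z : Z, b (T.eval (z : ℂ)) = b z / (derivative T).eval (z : ℂ) -
        a z * (derivative (derivative T)).eval (z : ℂ) / (derivative T).eval (z : ℂ) ^ 2 := by
      intro z
      rw [hbτ, hbz, haz]
      have h1 := hrel z
      have h2 := hder' z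
      field_simp at h1 ⊢
      linear_combination h1
    -- the weights
    have hc : ∀ z : Z, ∑ i ∈ Finset.range N,
        Real.log ‖(derivative T).eval (((τ ^ i) z : Z) : ℂ)‖ = 0 := by
      intro z
      have h1 := hmul z z.2 N hN0 (hper z)
      rw [(surl_deriv T N z).deriv, norm_prod] at h1
      rw [← Real.log_prod (fun i _ => norm_ne_zero_iff.mpr (hder' _))]
      simp only [hit]
      rw [h1, Real.log_one]
    obtain ⟨w, hw⟩ := surl_wt τ N hN0
      (fun z : Z => Real.log ‖(derivative T).eval (z : ℂ)‖) hc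
    set wt : ℂ → ℝ := fun y => if hy : y ∈ Z then Real.exp (w ⟨y, hy⟩) else 1 with hwt
    have hwtz : ∀ z : Z, wt z = Real.exp (w z) := fun z => by
      rw [hwt]; simp only [z.2, dif_pos]
    have hwt2 : ∀ z ∈ Z, 0 < wt z ∧ wt (T.eval z) = ‖(derivative T).eval z‖ * wt z := by
      intro z hz
      have h1 := hwtz ⟨z, hz⟩
      have h2 := hwtz (τ ⟨z, hz⟩)
      rw [hτv] at h2
      simp only at h1 h2
      rw [h1, h2, hw, Real.exp_add, Real.exp_log (norm_pos_iff.mpr (hder' ⟨z, hz⟩))]
      exact ⟨Real.exp_pos _, mul_comm _ _⟩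
    -- duality and injectivity
    have hab := inj_holds af_holds T Z a b wt hT ⟨hmaps, hinj, hder⟩ hwt2
      (pfS T x hx Z a b hT ⟨hmaps, hinj, hder⟩
        (fun z hz => by
          have h1 := haz (τ ⟨z, hz⟩)
          rw [hτv] at h1
          simp only at h1
          rw [h1, hAi, ← haz])
        (fun z hz => hb2 ⟨z, hz⟩)
        (fun h hh => by
          rw [← Finset.sum_coe_sort]
          have h1 := key h 0 hh
          simp only [Pi.zero_apply, mul_zero, sub_zero, zero_sub, add_zero] at h1
          rw [← Finset.sum_add_distrib] at h1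
          rw [← h1]
          refine Finset.sum_congr rfl fun z _ => ?_
          have h2 := hb2 z
          rw [hbτ] at h2
          have h3 : β z = -(b z / (derivative T).eval (z : ℂ) -
            a z * (derivative (derivative T)).eval (z : ℂ) / (derivative T).eval (z : ℂ) ^ 2) := by
            rw [← h2, neg_neg]
          rw [h3]
          change _ = _ + A z * _
          rw [← haz]
          have h4 := hder' z
          field_simp
          ring))
    have hA0 : ∀ z : Z, A z = 0 := fun z => by rw [← haz]; exact (hab z z.2).1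
    have hβ0 : ∀ z : Z, β z = 0 := by
      intro z
      have h1 := (hab (T.eval (z : ℂ)) (hmaps z z.2)).2
      rw [hbτ] at h1
      exact neg_eq_zero.mp h1
    apply hf1
    rw [hf]
    simp only [hβ0, zero_mul, Finset.sum_const_zero, zero_add]
    exact surl_zero τ N hN0 α κt hκti hA0
  rw [Submodule.mem_map] at hmem
  obtain ⟨⟨h, u⟩, hhu, heq⟩ := hmem
  have hh : h ∈ TT T x := hhu.1
  have he1 := congrArg Prod.fst heq
  have he2 := congrArg Prod.snd heq
  set u' : ℂ → ℂ := fun w => if hw : w ∈ Z then u ⟨w, hw⟩ else 0 with hu'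
  have huz : ∀ z : Z, u' z = u z := fun z => by
    rw [hu']; simp only [z.2, dif_pos]
  refine ⟨h, u', hh, ?_, ?_⟩
  · intro z hz
    have h1 := congrFun he1 ⟨z, hz⟩
    have h2 := huz ⟨z, hz⟩
    have h3 := huz (τ ⟨z, hz⟩)
    rw [hτv] at h3
    simp only at h2 h3
    rw [h2, h3]
    exact h1
  · intro z hz
    have h1 := congrFun he2 ⟨z, hz⟩
    have h2 : ∑ i ∈ Finset.range N,
        ((derivative h).eval ((ev T)^[i] z) +
          (derivative (derivative T)).eval ((ev T)^[i] z) * u' ((ev T)^[i] z)) /
          (derivative T).eval ((ev T)^[i] z) = κt ⟨z, hz⟩ := by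
      refine Eq.trans ?_ h1
      refine Finset.sum_congr rfl fun i _ => ?_
      have h3 := hit i ⟨z, hz⟩
      have h4 := huz ((τ ^ i) ⟨z, hz⟩)
      rw [h3] at h4 ⊢
      rw [h4]
    have h5 := surl_period (ev T) (fun y => ((derivative h).eval y +
          (derivative (derivative T)).eval y * u' y) / (derivative T).eval y) z
          (Function.minimalPeriod (ev T) z) (q ⟨z, hz⟩) (Function.isPeriodicPt_minimalPeriod _ _)
    have h6 : Function.minimalPeriod (ev T) z * q ⟨z, hz⟩ = N := hqN ⟨z, hz⟩
    rw [h6, h2] at h5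
    exact (mul_left_cancel₀ (hq0 ⟨z, hz⟩) h5).symm

end Pool.Agent.K4H48.ST
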