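import Mathlib
import Pool.Agent.K4H48.ST.Main
import Pool.Agent.K4H48.ST.SURL
import Pool.Agent.K4H48.ST.CurveG

/-!
Curves in the strata along which the multipliers of indifferent cycles are multiplied by `1 - t`.
-/

set_option autoImplicit false

open Topology Filter Metric Set Polynomial MeasureTheory
open Pool.Agent.H713R3.ZA Pool.Agent.H713R5.QJ Pool.Agent.K4H48.LF

namespace Pool.Agent.K4H48.ST

theorem chart2 {a b : ℂ} {n : ℕ} {c r : Fin n → Fin n} (ha : a ≠ 0) (hn : 1 ≤ n)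
    (hp : Pat n c r) {y : PE n} (hyS : y ∈ Sg a b n c r) (hD : Dd n c y ≠ 0) :
    ∃ ψ : PE n → PE n, ContDiffAt ℂ 1 ψ (Fm a b n c y) ∧ ψ (Fm a b n c y) = y ∧
      ∀ᶠ z in 𝓝 (Fm a b n c y), Fm a b n c (ψ z) = z := by
  classical
  set F : PE n → PE n := Fm a b n c with hF
  have hFc : ContDiff ℂ 1 F := Fm_cd a b n c
  -- the derivative
  set L : PE n →L[ℂ] PE n := fderiv ℂ F y with hL
  have hLap : ∀ w l, L w l = Cv a n c l y w := by
    intro w l
    have h1 : HasFDerivAt F (ContinuousLinearMap.pi fun l => Cv a n c l y) y := by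
      rw [hasFDerivAt_pi]
      intro l
      rw [← Cv_eq a b n c l y]
      exact (Ph_diff a b n c l y).hasFDerivAt
    rw [hL, h1.fderiv]
    rfl
  have hinj : Function.Injective L := by
    rw [injective_iff_map_eq_zero]
    intro w hw
    apply inj_of a ha hn c hp.cc y w hyS.1 (Dd_ne.1 hD)
    intro l
    rw [← hLap, hw]
    rfl
  have hker : LinearMap.ker (L : PE n →ₗ[ℂ] PE n) = ⊥ := LinearMap.ker_eq_bot.2 hinj
  have hsurj : Function.Surjective L := LinearMap.surjective_of_injective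
    (f := (L : PE n →ₗ[ℂ] PE n)) hinj
  set Le : PE n ≃L[ℂ] PE n := ContinuousLinearEquiv.ofBijective L hker
    (LinearMap.range_eq_top.2 hsurj) with hLe
  have hLeL : (Le : PE n →L[ℂ] PE n) = L := ContinuousLinearEquiv.coe_ofBijective _ _ _
  have hFd : HasFDerivAt F (Le : PE n →L[ℂ] PE n) y := by
    rw [hLeL]
    exact (hFc.differentiable (by norm_num) y).hasFDerivAt
  have hFat : ContDiffAt ℂ 1 F y := hFc.contDiffAt
  have h10 : (1 : WithTop ℕ∞) ≠ 0 := one_ne_zero
  set e := hFat.toOpenPartialHomeomorph F hFd h10 with he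
  have hye : y ∈ e.source := hFat.mem_toOpenPartialHomeomorph_source hFd h10
  refine ⟨fun z => e.symm z, hFat.to_localInverse hFd h10, e.left_inv hye, ?_⟩
  have h0 : ∀ᶠ z in 𝓝 (F y), z ∈ e.target := e.open_target.mem_nhds (e.map_source hye)
  filter_upwards [h0] with z hz
  exact e.right_inv hz

theorem vp_deg_le (a : ℂ) (n : ℕ) (x w : PE n) : (vp a n x w).natDegree ≤ n + 1 := by
  rw [natDegree_le_iff_coeff_eq_zero]
  intro j hj
  rw [vp_coeff]
  have : cf a n j = fun _ => 0 := by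
    funext y
    exact coeff_eq_zero_of_natDegree_lt (by have := natDegree_fam_le a n y; omega)
  rw [this]
  simp

theorem curveS {a b : ℂ} {n : ℕ} {c r : Fin n → Fin n} (ha : a ≠ 0) (hn : 1 ≤ n)
    (hp : Pat n c r) {x₁ : PE n} (hxS : x₁ ∈ Sg a b n c r) (hD : Dd n c x₁ ≠ 0)
    (Z : Finset ℂ) (hCyc : Cyc (fam a n x₁) Z)
    (hmul : ∀ z ∈ Z, ∀ p : ℕ, 0 < p → (ev (fam a n x₁))^[p] z = z →
      ‖deriv ((ev (fam a n x₁))^[p]) z‖ = 1) :
    ∃ (t₀ C₀ : ℝ) (x : ℝ → PE n) (y : ℝ → ℂ → ℂ) (kk : ℂ → ℕ → ℕ), 0 < t₀ ∧ 0 < C₀ ∧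
      (∀ z ∈ Z, ∀ p : ℕ, 0 < p → (ev (fam a n x₁))^[p] z = z → 0 < kk z p) ∧
      ∀ t : ℝ, 0 ≤ t → t ≤ t₀ → x t ∈ Sg a b n c r ∧
      (∀ j : ℕ, ‖(fam a n (x t)).coeff j - (fam a n x₁).coeff j‖ ≤ C₀ * t) ∧
      ∀ z ∈ Z, ‖y t z - z‖ ≤ C₀ * t ∧
        (fam a n (x t)).eval (y t z) = y t ((fam a n x₁).eval z) ∧
        ∀ p : ℕ, 0 < p → (ev (fam a n x₁))^[p] z = z →
          deriv ((ev (fam a n (x t)))^[p]) (y t z) =
            ((1 - t : ℝ) : ℂ) ^ (kk z p) * deriv ((ev (fam a n x₁))^[p]) z := by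
  classical
  obtain ⟨ψ, hψc, hψ0, hψ⟩ := chart2 ha hn hp hxS hD
  set T : ℂ[X] := fam a n x₁ with hT
  have hTdeg : T.natDegree = n + 1 := natDegree_fam ha n x₁
  set F₀ : PE n := Fm a b n c x₁ with hF₀
  have hF₀L : F₀ ∈ La n c r := (mem_Sg hp x₁).1 hxS
  haveI : CompleteSpace (La n c r) := FiniteDimensional.complete ℂ _
  -- the family
  let P : La n c r → ℂ[X] := fun v => fam a n (ψ (F₀ + (v : PE n)))
  let D : La n c r → ℂ[X] := fun v => vp a n x₁ (fderiv ℂ ψ F₀ (v : PE n))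
  have hPdeg : ∀ v, (P v).natDegree ≤ n + 1 := fun v => natDegree_fam_le a n _
  have hadd : ContDiff ℂ 1 (fun v : La n c r => F₀ + (v : PE n)) :=
    contDiff_const.add (La n c r).subtypeL.contDiff
  have hcoe0 : F₀ + ((0 : La n c r) : PE n) = F₀ := by
    rw [ZeroMemClass.coe_zero, add_zero]
  have hcd : ∀ j, ContDiffAt ℂ 1 (fun v => (P v).coeff j) 0 := by
    intro j
    have h1 : ContDiffAt ℂ 1 (fun v : La n c r => ψ (F₀ + (v : PE n))) 0 := by
      have h2 : ContDiffAt ℂ 1 ψ (F₀ + ((0 : La n c r) : PE n)) := by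
        rw [hcoe0]
        exact hψc
      exact ContDiffAt.comp (0 : La n c r) (g := ψ) h2 hadd.contDiffAt
    exact ((pfe_fam a n j).contDiffAt).comp (0 : La n c r) h1
  have hP0 : P 0 = T := by
    show fam a n (ψ (F₀ + ((0 : La n c r) : PE n))) = T
    rw [hcoe0, hψ0]
  have hDd : ∀ v, (D v).natDegree ≤ n + 1 := fun v => vp_deg_le a n _ _
  have hψF : HasFDerivAt ψ (fderiv ℂ ψ F₀) F₀ :=
    (hψc.differentiableAt (by norm_num)).hasFDerivAt
  have hDer : ∀ v j, HasDerivAt (fun s : ℂ => (P (s • v)).coeff j) ((D v).coeff j) 0 := by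
    intro v j
    have e1 : HasDerivAt (fun s : ℂ => F₀ + s • (v : PE n)) (v : PE n) 0 := by
      simpa using ((hasDerivAt_id (0 : ℂ)).smul_const (v : PE n)).const_add F₀
    have e2 : HasFDerivAt ψ (fderiv ℂ ψ F₀) (F₀ + (0 : ℂ) • (v : PE n)) := by
      rw [zero_smul, add_zero]
      exact hψF
    have e3 := e2.comp_hasDerivAt (0 : ℂ) e1
    have e4 : HasFDerivAt (cf a n j) (fderiv ℂ (cf a n j) x₁)
        ((ψ ∘ fun s : ℂ => F₀ + s • (v : PE n)) 0) := by
      have : (ψ ∘ fun s : ℂ => F₀ + s • (v : PE n)) 0 = x₁ := by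
        show ψ (F₀ + (0 : ℂ) • (v : PE n)) = x₁
        rw [zero_smul, add_zero, hψ0]
      rw [this]
      exact (cf_diff a n j x₁).hasFDerivAt
    have e5 := e4.comp_hasDerivAt (0 : ℂ) e3
    show HasDerivAt (fun s : ℂ => (P (s • v)).coeff j)
      ((vp a n x₁ (fderiv ℂ ψ F₀ (v : PE n))).coeff j) 0
    rw [vp_coeff]
    exact e5
  -- the linearized equations
  have hcl := CL_fam ha x₁
  have hsol : ∀ e κ : ℂ → ℂ, (∀ z ∈ Z, κ (T.eval z) = κ z) →
      ∃ (v : La n c r) (u : ℂ → ℂ),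
        (∀ z ∈ Z, u (T.eval z) - (derivative T).eval z * u z - (D v).eval z = e z) ∧
        ∀ z ∈ Z, ∑ i ∈ Finset.range (Function.minimalPeriod (ev T) z),
          ((derivative (D v)).eval ((ev T)^[i] z) +
            (derivative (derivative T)).eval ((ev T)^[i] z) * u ((ev T)^[i] z)) /
            (derivative T).eval ((ev T)^[i] z) = κ z := by
    intro e κ hκ
    obtain ⟨h, u, hh, h1, h2⟩ := surlS T (fun i => x₁ (some i)) hcl.2 Z (by omega) hCyc hmul e κ hκ
    obtain ⟨hh1, hh2, hh3⟩ := mem_TT.1 hh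
    -- the vector
    let μ : PE n := fun l => l.elim 0 (fun i => if c i = i then h.eval (x₁ (some i)) else 0)
    have hμs : ∀ i, μ (some i) = if c i = i then h.eval (x₁ (some i)) else 0 := fun i => rfl
    have hμn : μ none = 0 := rfl
    have hμL : μ ∈ La n c r := by
      refine ⟨fun i hi => ?_, fun i hi => ?_, hμn⟩
      · rw [hμs, if_neg hi]
      · rw [hμs, hμs, if_pos hi, if_pos (hp.cr i)]
        exact hh2 i (r i) (hxS.2.1 i)
    refine ⟨⟨μ, hμL⟩, u, ?_⟩
    have hDh : D ⟨μ, hμL⟩ = h := by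
      show vp a n x₁ (fderiv ℂ ψ F₀ μ) = h
      set w : PE n := fderiv ℂ ψ F₀ μ with hw
      -- the derivative of the coordinates
      have hcomp : ∀ l, Cv a n c l x₁ w = μ l := by
        intro l
        have k1 : HasFDerivAt (fun z => Ph a b n c l (ψ z)) ((Cv a n c l x₁).comp (fderiv ℂ ψ F₀))
            F₀ := by
          have k2 : HasFDerivAt (Ph a b n c l) (Cv a n c l x₁) (ψ F₀) := by
            rw [hψ0, ← Cv_eq a b n c l x₁]
            exact (Ph_diff a b n c l x₁).hasFDerivAt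
          exact k2.comp F₀ hψF
        have k3 : HasFDerivAt (fun z : PE n => z l)
            (ContinuousLinearMap.proj (R := ℂ) (φ := fun _ : Option (Fin n) => ℂ) l) F₀ :=
          (ContinuousLinearMap.proj (R := ℂ) (φ := fun _ : Option (Fin n) => ℂ) l).hasFDerivAt
        have k4 : (fun z : PE n => z l) =ᶠ[𝓝 F₀] fun z => Ph a b n c l (ψ z) := by
          filter_upwards [hψ] with z hz
          exact (congrFun hz l).symm
        have k5 := (k1.congr_of_eventuallyEq k4).unique k3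
        exact congrArg (fun f : PE n →L[ℂ] ℂ => f μ) k5
      have hnone : fderiv ℂ (cf a n n) x₁ w = 0 := by
        rw [← Cv_none a n c x₁, hcomp none, hμn]
      have hval : ∀ i, (vp a n x₁ w).eval (x₁ (some i)) = h.eval (x₁ (some i)) := by
        intro i
        rw [hxS.1 i, vp_crit, ← Cv_rep a (hp.cc i), hcomp, hμs, if_pos (hp.cc i)]
      have hz := uniq (fun i => x₁ (some i)) hn (vp a n x₁ w - h)
        (by
          have k1 := vp_deg (a := a) hn hnone
          have k2 := natDegree_sub_le (vp a n x₁ w) h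
          have k3 : h.natDegree ≤ n - 1 := by
            rw [hTdeg] at hh1
            omega
          have k4 := max_le (a := (vp a n x₁ w).natDegree) (b := h.natDegree) (c := n - 1)
            (by omega) k3
          omega)
        (fun i => by
          show (vp a n x₁ w - h).eval (x₁ (some i)) = 0
          rw [eval_sub, hval i, sub_self])
        (fun α => by
          rw [derivative_sub]
          exact dvd_sub (vp_div a n x₁ w α) (hh3 α))
      exact sub_eq_zero.1 hz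
    rw [hDh]
    exact ⟨h1, h2⟩
  obtain ⟨t₀, C₀, v, y, kk, ht₀, hC₀, hkk, hv⟩ := curveG hPdeg hcd hP0 hDd hDer Z hCyc hsol
  -- Lipschitz bound
  have hΦ : ContDiffAt ℂ 1 (fun (v : La n c r) (j : Fin (n + 2)) => (P v).coeff j) 0 :=
    contDiffAt_pi.mpr fun j => hcd j
  obtain ⟨K, hK, hKb⟩ := ((hΦ.differentiableAt (by norm_num)).hasFDerivAt.isBigO_sub).exists_pos
  have hψ' : ∀ᶠ v : La n c r in 𝓝 0, Fm a b n c (ψ (F₀ + (v : PE n))) = F₀ + (v : PE n) := by
    have h1 : Tendsto (fun v : La n c r => F₀ + (v : PE n)) (𝓝 0) (𝓝 F₀) := by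
      have := hadd.continuous.tendsto 0
      rwa [hcoe0] at this
    exact h1.eventually hψ
  obtain ⟨δ, hδ, hball⟩ := Metric.eventually_nhds_iff_ball.1 (hψ'.and hKb.bound)
  refine ⟨min t₀ (δ / (2 * C₀)), C₀ * (K + 1), fun t => ψ (F₀ + (v t : PE n)), y, kk,
    lt_min ht₀ (by positivity), by positivity, hkk, ?_⟩
  intro t ht0 ht1
  have ht2 : t ≤ t₀ := ht1.trans (min_le_left _ _)
  have ht3 : C₀ * t < δ := by
    have : t ≤ δ / (2 * C₀) := ht1.trans (min_le_right _ _)
    rw [le_div_iff₀ (by positivity)] at this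
    linarith
  obtain ⟨k1, k2⟩ := hv t ht0 ht2
  have hvb : v t ∈ ball (0 : La n c r) δ := by
    rw [mem_ball_zero_iff]
    exact k1.trans_lt ht3
  obtain ⟨b1, b2⟩ := hball _ hvb
  have hle : C₀ * t ≤ C₀ * (K + 1) * t := by
    have : 0 ≤ C₀ * K * t := by positivity
    nlinarith
  refine ⟨?_, fun j => ?_, fun z hz => ⟨(k2 z hz).1.trans hle, (k2 z hz).2.1, (k2 z hz).2.2⟩⟩
  · rw [mem_Sg hp]
    show Fm a b n c (ψ (F₀ + (v t : PE n))) ∈ La n c r
    rw [b1]
    exact (La n c r).add_mem hF₀L (v t).2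
  · rcases Nat.lt_or_ge j (n + 2) with hj | hj
    · have e1 := norm_le_pi_norm ((fun j : Fin (n + 2) => (P (v t)).coeff j) -
        fun j : Fin (n + 2) => (P 0).coeff j) ⟨j, hj⟩
      have e2 : ‖(P (v t)).coeff j - (P 0).coeff j‖ ≤ K * ‖v t - 0‖ := e1.trans b2
      rw [hP0, sub_zero] at e2
      have e3 : K * ‖v t‖ ≤ K * (C₀ * t) := mul_le_mul_of_nonneg_left k1 hK.le
      have e4 : 0 ≤ C₀ * t := by positivity
      refine e2.trans (e3.trans ?_)
      nlinarith
    · have e0 : (fam a n (ψ (F₀ + (v t : PE n)))).coeff j = 0 :=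
        coeff_eq_zero_of_natDegree_lt (by
          have := natDegree_fam_le a n (ψ (F₀ + (v t : PE n)))
          omega)
      show ‖(fam a n (ψ (F₀ + (v t : PE n)))).coeff j - T.coeff j‖ ≤ _
      rw [e0, coeff_eq_zero_of_natDegree_lt (by rw [hTdeg]; omega), sub_zero, norm_zero]
      positivity

end Pool.Agent.K4H48.ST
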