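import Mathlib
import Pool.Agent.K4H48.ST.CurveS
import Pool.Agent.H713R5.QJ.TAPXG
import Pool.Agent.H713R5.QJ.Main2

/-!
Perturbation inside the strata which makes all indifferent cycles attracting.
-/

set_option autoImplicit false

open Topology Filter Metric Set Polynomial MeasureTheory
open Pool.Agent.H713R3.ZA Pool.Agent.H713R5.QJ Pool.Agent.K4H48.LF

namespace Pool.Agent.K4H48.ST

theorem apxS {a : ℂ} {n : ℕ} (ha : a ≠ 0) (hn : 1 ≤ n) (x₁ : PE n) (ε : ℝ) (hε : 0 < ε) :
    ∃ x : PE n, Coi a n x₁ x ∧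
      (∀ j : ℕ, ‖(fam a n x).coeff j - (fam a n x₁).coeff j‖ < ε) ∧
      volume {z : ℂ | ¬ Good (ev (fam a n x)) z} ≤ volume (JS (fam a n x₁)) +
        ENNReal.ofReal ε := by
  classical
  set T : ℂ[X] := fam a n x₁ with hTdef
  have hTdeg : T.natDegree = n + 1 := natDegree_fam ha n x₁
  have h2 : 2 ≤ T.natDegree := by omega
  obtain ⟨c, r, hpat, hc1, hc2, hv1, hv2⟩ := exists_pat a hn x₁
  set b : ℂ := cf a n n x₁ with hb0
  have hx₁S : x₁ ∈ Sg a b n c r := ⟨hc1, hv1, rfl⟩
  have hx₁D : Dd n c x₁ ≠ 0 := Dd_ne.2 hc2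
  obtain ⟨R, hR1, hR⟩ := APX.escape_radius T h2
  set K : Set ℂ := closedBall (0 : ℂ) R with hK
  have hKfin : volume K ≠ ⊤ := (isCompact_closedBall (0 : ℂ) R).measure_lt_top.ne
  have hKmeas : MeasurableSet K := measurableSet_closedBall
  have hKpos : 0 < volume K := by
    have h1 : ball (0 : ℂ) R ⊆ K := ball_subset_closedBall
    exact (isOpen_ball.measure_pos volume ⟨0, mem_ball_self (by linarith)⟩).trans_le
      (measure_mono h1)
  set e : ENNReal := ENNReal.ofReal (ε / 2) with he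
  have he0 : 0 < e := ENNReal.ofReal_pos.2 (by linarith)
  have hee : e + e = ENNReal.ofReal ε := by
    rw [he, ← ENNReal.ofReal_add (by linarith) (by linarith)]
    congr 1
    ring
  set m0 : ENNReal := volume (JS T) with hm0
  -- the set `JS T` is bounded
  have hJK : JS T ⊆ K := by
    intro z hz
    by_contra hzK
    apply hz
    left
    apply APX.good_big (ev T) R hR1 (hR T rfl rfl (fun i => by simp)) z
    rw [hK, mem_closedBall, dist_zero_right, not_le] at hzK
    exact hzK.le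
  have hm0fin : m0 ≠ ⊤ := ((measure_mono hJK).trans_lt (lt_top_iff_ne_top.2 hKfin)).ne
  -- the increasing union
  have hmono : Monotone (fun j : ℕ => K ∩ APX.GG T j) := by
    intro i j hij
    exact inter_subset_inter_right _ (APX.gg_mono T hij)
  have hsup : volume K ≤ (⨆ j : ℕ, volume (K ∩ APX.GG T j)) + m0 := by
    rw [← hmono.measure_iUnion]
    have hsub : K ⊆ (⋃ j : ℕ, K ∩ APX.GG T j) ∪ JS T := by
      intro z hz
      by_cases h : Good (ev T) z ∨ Para (ev T) z ∨ Sieg (ev T) z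
      · obtain ⟨j, hj⟩ := APX.gg_union T z h
        exact Or.inl (mem_iUnion.2 ⟨j, hz, hj⟩)
      · exact Or.inr h
    exact (measure_mono hsub).trans (measure_union_le _ _)
  obtain ⟨j, hj⟩ : ∃ j : ℕ, volume K < volume (K ∩ APX.GG T j) + m0 + e := by
    by_contra hcon
    push Not at hcon
    set s : ENNReal := ⨆ j : ℕ, volume (K ∩ APX.GG T j) with hs
    have hsfin : s ≠ ⊤ := by
      have : s ≤ volume K := iSup_le (fun j => measure_mono inter_subset_left)
      exact (this.trans_lt (lt_top_iff_ne_top.2 hKfin)).ne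
    have h1 : s + (m0 + e) ≤ volume K := by
      rw [hs, ENNReal.iSup_add]
      refine iSup_le (fun j => ?_)
      rw [← add_assoc]
      exact hcon j
    have h3 : s + m0 + e ≤ s + m0 := by
      rw [add_assoc]
      exact h1.trans hsup
    have h4 : s + m0 < s + m0 + e :=
      ENNReal.lt_add_right (ENNReal.add_ne_top.2 ⟨hsfin, hm0fin⟩) he0.ne'
    exact absurd h3 (not_le.2 h4)
  -- the curve
  have hcyc := APX.ind_cyc T h2 j
  have hunit := APX.ind_unit T h2 j
  obtain ⟨t₀, C₀, X, y, kk, ht₀, hC₀, hkk, hX⟩ := curveS ha hn hpat hx₁S hx₁D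
    (APX.ind_finite T h2 j).toFinset hcyc hunit
  obtain ⟨S, hSX⟩ : ∃ S : ℝ → ℂ[X], ∀ t, S t = fam a n (X t) := ⟨_, fun _ => rfl⟩
  have hS : ∀ t : ℝ, 0 ≤ t → t ≤ t₀ →
      (S t).natDegree = T.natDegree ∧ (∀ j : ℕ, T.natDegree - 1 ≤ j → (S t).coeff j = T.coeff j) ∧
      (∀ j : ℕ, ‖(S t).coeff j - T.coeff j‖ ≤ C₀ * t) ∧
      ∀ z ∈ (APX.ind_finite T h2 j).toFinset, ‖y t z - z‖ ≤ C₀ * t ∧
        (S t).eval (y t z) = y t (T.eval z) ∧
        ∀ p : ℕ, 0 < p → (ev T)^[p] z = z →
          deriv ((ev (S t))^[p]) (y t z) =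
            ((1 - t : ℝ) : ℂ) ^ (kk z p) * deriv ((ev T)^[p]) z := by
    intro t h0 h1
    obtain ⟨b1, b2, b3⟩ := hX t h0 h1
    rw [hSX]
    refine ⟨by rw [natDegree_fam ha, hTdeg], fun j hj => ?_, b2, b3⟩
    rw [hTdeg] at hj
    rcases (by omega : j = n ∨ j = n + 1 ∨ n + 1 < j) with rfl | rfl | hj'
    · exact b1.2.2
    · rw [coeff_fam_top, hTdef, coeff_fam_top]
    · rw [coeff_eq_zero_of_natDegree_lt (by rw [natDegree_fam ha]; exact hj'),
        coeff_eq_zero_of_natDegree_lt (by rw [hTdeg]; exact hj')]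
  have hloc := APX.local_good opg_holds sgl_holds pbl_holds app_holds aps_holds T h2 j t₀ C₀ S y kk
    ht₀ hC₀ hkk hS
  choose! δ t₁ hδ ht₁ hgood using hloc
  set O : Set ℂ := ⋃ u ∈ APX.GG T j, ball u (δ u) with hO
  have hOo : IsOpen O := isOpen_biUnion (fun u _ => isOpen_ball)
  have hGO : APX.GG T j ⊆ O := fun u hu => mem_biUnion hu (mem_ball_self (hδ u hu))
  have hKO : volume K < volume (K ∩ O) + m0 + e :=
    hj.trans_le (add_le_add (add_le_add (measure_mono (inter_subset_inter_right _ hGO)) le_rfl)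
      le_rfl)
  have hKOfin : volume (K ∩ O) ≠ ⊤ :=
    ((measure_mono inter_subset_left).trans_lt (lt_top_iff_ne_top.2 hKfin)).ne
  obtain ⟨C, hCsub, hCc, hCv⟩ := (hKmeas.inter hOo.measurableSet).exists_isCompact_lt_add
    (μ := volume) hKOfin he0.ne'
  have hKC : volume K ≤ volume C + (m0 + ENNReal.ofReal ε) := by
    calc volume K ≤ volume (K ∩ O) + m0 + e := hKO.le
      _ ≤ (volume C + e) + m0 + e := add_le_add (add_le_add hCv.le le_rfl) le_rfl
      _ = volume C + (m0 + (e + e)) := by ring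
      _ = volume C + (m0 + ENNReal.ofReal ε) := by rw [hee]
  have hCK : C ⊆ K := hCsub.trans inter_subset_left
  have hCfin : volume C ≠ ⊤ := ((measure_mono hCK).trans_lt (lt_top_iff_ne_top.2 hKfin)).ne
  have hdiff : volume (K \ C) ≤ m0 + ENNReal.ofReal ε := by
    rw [measure_diff hCK hCc.measurableSet.nullMeasurableSet hCfin]
    rw [tsub_le_iff_left]
    exact hKC
  -- finite subcover
  obtain ⟨F, hF, hFc⟩ := hCc.elim_finite_subcover_image (b := APX.GG T j)
    (c := fun u => ball u (δ u)) (fun u _ => isOpen_ball) (hCsub.trans inter_subset_right)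
  obtain ⟨hFfin, hFcov⟩ := hFc
  obtain ⟨m, hm0, hm⟩ : ∃ m : ℝ, 0 < m ∧ ∀ u ∈ F, m ≤ t₁ u := by
    rcases F.eq_empty_or_nonempty with h | h
    · exact ⟨1, one_pos, fun u hu => by rw [h] at hu; exact absurd hu (notMem_empty u)⟩
    · obtain ⟨u, hu, hmin⟩ := hFfin.exists_minimalFor t₁ F h
      refine ⟨t₁ u, ht₁ u (hF hu), fun v hv => ?_⟩
      rcases le_total (t₁ u) (t₁ v) with h' | h'
      · exact h'
      · exact hmin hv h'
  set t : ℝ := min (m / 2) (min t₀ (min (1 / C₀) (ε / (2 * C₀)))) with ht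
  have ht0 : 0 < t := by
    rw [ht]
    refine lt_min (by linarith) (lt_min ht₀ (lt_min (by positivity) (by positivity)))
  have htm : t < m := by
    have := min_le_left (m / 2) (min t₀ (min (1 / C₀) (ε / (2 * C₀))))
    rw [← ht] at this
    linarith
  have htt : t ≤ t₀ := (min_le_right _ _).trans (min_le_left _ _)
  have ht1 : C₀ * t ≤ 1 := by
    have h5 : t ≤ 1 / C₀ := (min_le_right _ _).trans ((min_le_right _ _).trans (min_le_left _ _))
    rw [le_div_iff₀ hC₀] at h5
    linarith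
  have hte : C₀ * t < ε := by
    have h5 : t ≤ ε / (2 * C₀) :=
      (min_le_right _ _).trans ((min_le_right _ _).trans (min_le_right _ _))
    rw [le_div_iff₀ (by positivity)] at h5
    linarith
  obtain ⟨a1, a2, a3, a4⟩ := hS t ht0.le htt
  refine ⟨X t, ?_, fun i => ?_, ?_⟩
  · obtain ⟨⟨g1, g2, g3⟩, -, -⟩ := hX t ht0.le htt
    refine ⟨fun i j hij => ?_, fun i j hij => ?_, g3⟩
    · rw [g1 i, g1 j, hc2 i j hij]
    · rw [g2 i, g2 j, hv2 i j hij]
  · rw [← hSX]
    exact (a3 i).trans_lt hte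
  · rw [← hSX]
    refine (measure_mono ?_).trans hdiff
    intro z hz
    refine ⟨?_, ?_⟩
    · by_contra hzK
      apply hz
      apply APX.good_big (ev (S t)) R hR1
        (hR (S t) a1 (a2 _ (Nat.sub_le _ _)) (fun i => (a3 i).trans ht1)) z
      rw [hK, mem_closedBall, dist_zero_right, not_le] at hzK
      exact hzK.le
    · intro hzC
      apply hz
      obtain ⟨u, hu, hzu⟩ := mem_iUnion₂.1 (hFcov hzC)
      exact hgood u (hF hu) t ht0 (htm.trans_le (hm u hu)) z hzu

end Pool.Agent.K4H48.ST
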