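import Mathlib
import Pool.Agent.K4H48.ST.Main

/-!
Polynomials close to `T` which have the coincidences of `T` have exactly the pattern of `T`.
-/

set_option autoImplicit false

open Topology Filter Metric Set Polynomial MeasureTheory
open Pool.Agent.H713R3.ZA Pool.Agent.H713R5.QJ Pool.Agent.K4H48.LF

namespace Pool.Agent.K4H48.ST

theorem exists_perm {n : ℕ} {f g : Fin n → ℂ}
    (h : ∏ i, (X - C (f i)) = ∏ i, (X - C (g i))) : ∃ σ : Equiv.Perm (Fin n), ∀ i, g (σ i) = f i := by
  classical
  have h0 : ∀ f : Fin n → ℂ, (∏ i, (X - C (f i))).roots = Finset.univ.val.map f := by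
    intro f
    have h1 : ∏ i, (X - C (f i)) = ((Finset.univ.val.map f).map fun a => X - C a).prod := by
      rw [Multiset.map_map]
      rfl
    rw [h1, roots_multiset_prod_X_sub_C]
  have h2 : Finset.univ.val.map f = Finset.univ.val.map g := by rw [← h0, ← h0, h]
  have hcard : ∀ v : ℂ, Fintype.card {i // f i = v} = Fintype.card {i // g i = v} := by
    have h3 : ∀ (f : Fin n → ℂ) (v : ℂ), Fintype.card {i // f i = v} =
        Multiset.count v (Finset.univ.val.map f) := by
      intro f v
      rw [Fintype.card_subtype, Multiset.count_map, Finset.card_def, Finset.filter_val]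
      congr 1
      apply Multiset.filter_congr
      intro j _
      exact eq_comm
    intro v
    rw [h3, h3, h2]
  refine ⟨Equiv.ofFiberEquiv (f := f) (g := g) fun v => Fintype.equivOfCardEq (hcard v), fun i => ?_⟩
  exact Equiv.ofFiberEquiv_map _ i

/-- a relation which is preserved in the limit and by a permutation is the same -/
theorem rel_iff {n : ℕ} {E E' : Fin n → Fin n → Prop} (h : ∀ i j, E i j → E' i j)
    (σ : Equiv.Perm (Fin n)) (hσ : ∀ i j, E' i j ↔ E (σ i) (σ j)) (i j : Fin n) :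
    E' i j → E i j := by
  classical
  set A : Finset (Fin n × Fin n) := Finset.univ.filter fun p => E p.1 p.2 with hA
  set A' : Finset (Fin n × Fin n) := Finset.univ.filter fun p => E' p.1 p.2 with hA'
  have hsub : A ⊆ A' := by
    intro p hp
    rw [hA, Finset.mem_filter] at hp
    rw [hA', Finset.mem_filter]
    exact ⟨Finset.mem_univ _, h _ _ hp.2⟩
  have hc : A'.card ≤ A.card := by
    apply Finset.card_le_card_of_injOn (fun p => (σ p.1, σ p.2))
    · intro p hp
      rw [hA', Finset.mem_coe, Finset.mem_filter] at hp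
      rw [hA, Finset.mem_coe, Finset.mem_filter]
      exact ⟨Finset.mem_univ _, (hσ _ _).1 hp.2⟩
    · rintro ⟨a, b⟩ _ ⟨c, d⟩ _ hpq
      simp only [Prod.mk.injEq, EmbeddingLike.apply_eq_iff_eq] at hpq
      exact Prod.ext hpq.1 hpq.2
  have heq := Finset.eq_of_subset_of_card_le hsub hc
  intro hij
  have h1 : (i, j) ∈ A' := by
    rw [hA', Finset.mem_filter]
    exact ⟨Finset.mem_univ _, hij⟩
  rw [← heq, hA, Finset.mem_filter] at h1
  exact h1.2

theorem exists_coeff_bd (T : ℂ[X]) : ∃ K : ℝ, 0 < K ∧ ∀ j, ‖T.coeff j‖ ≤ K := by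
  refine ⟨1 + ∑ i ∈ Finset.range (T.natDegree + 1), ‖T.coeff i‖, ?_, fun j => ?_⟩
  · have : 0 ≤ ∑ i ∈ Finset.range (T.natDegree + 1), ‖T.coeff i‖ :=
      Finset.sum_nonneg fun i _ => norm_nonneg _
    linarith
  · have h0 : 0 ≤ ∑ i ∈ Finset.range (T.natDegree + 1), ‖T.coeff i‖ :=
      Finset.sum_nonneg fun i _ => norm_nonneg _
    by_cases hj : j < T.natDegree + 1
    · have := Finset.single_le_sum (f := fun i => ‖T.coeff i‖) (fun i _ => norm_nonneg _)
        (Finset.mem_range.2 hj)
      linarith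
    · rw [coeff_eq_zero_of_natDegree_lt (by omega), norm_zero]
      linarith

theorem limit_pat {n : ℕ} {T : ℂ[X]} {c : Fin n → ℂ} (hT : CL T c)
    (h : ∀ ε : ℝ, 0 < ε → ∃ (S : ℂ[X]) (s : Fin n → ℂ), CL S s ∧
      S.leadingCoeff = T.leadingCoeff ∧ S.coeff n = T.coeff n ∧
      (∀ j : ℕ, ‖S.coeff j - T.coeff j‖ < ε) ∧ (∀ i, Good (ev S) (s i)) ∧
      (∀ i j, c i = c j → s i = s j) ∧
      ∀ i j, T.eval (c i) = T.eval (c j) → S.eval (s i) = S.eval (s j)) :
    ∀ ε : ℝ, 0 < ε → ∃ (S : ℂ[X]) (s : Fin n → ℂ), CL S s ∧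
      S.leadingCoeff = T.leadingCoeff ∧ S.coeff n = T.coeff n ∧
      (∀ j : ℕ, ‖S.coeff j - T.coeff j‖ < ε) ∧ (∀ i, ‖s i - c i‖ < ε) ∧
      (∀ i, Good (ev S) (s i)) ∧
      (∀ i j, c i = c j ↔ s i = s j) ∧
      ∀ i j, T.eval (c i) = T.eval (c j) ↔ S.eval (s i) = S.eval (s j) := by
  classical
  intro ε hε
  set a : ℂ := T.leadingCoeff with ha
  have ha0 : a ≠ 0 := by
    rw [ha, Ne, leadingCoeff_eq_zero]
    rintro rfl
    have := hT.1
    simp at this
  have hpos : ∀ k : ℕ, (0 : ℝ) < 1 / ((k : ℝ) + 1) := fun k => by positivity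
  choose S s hS1 hS2 hS3 hS4 hS5 hS6 hS7 using fun k : ℕ => h (1 / ((k : ℝ) + 1)) (hpos k)
  -- the parameters
  set x : ℕ → PE n := fun k o => o.elim ((S k).coeff 0) (s k) with hx
  have hfam : ∀ k, fam a n (x k) = S k := fun k => fam_of_CL (hS1 k) (hS2 k)
  have hxT : fam a n (fun o => o.elim (T.coeff 0) c) = T := fam_of_CL hT rfl
  -- convergence of the coefficients
  have hlim0 : Tendsto (fun k : ℕ => (1 : ℝ) / ((k : ℝ) + 1)) atTop (𝓝 0) :=
    tendsto_one_div_add_atTop_nhds_zero_nat
  have hcoef : ∀ j, Tendsto (fun k => (S k).coeff j) atTop (𝓝 (T.coeff j)) := by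
    intro j
    rw [tendsto_iff_norm_sub_tendsto_zero]
    exact squeeze_zero (fun k => norm_nonneg _) (fun k => (hS4 k j).le) hlim0
  obtain ⟨K, hK, hKb⟩ := exists_coeff_bd T
  have hbdd : ∀ k, x k ∈ ball (0 : PE n) ((K + 1) / ‖a‖ + (K + 1) + 2) := by
    intro k
    apply TVFAM.bdd n ha0 (by positivity)
    intro j _
    rw [hfam]
    have h1 := hS4 k j
    have h2 : (1 : ℝ) / ((k : ℝ) + 1) ≤ 1 := by
      rw [div_le_one (by positivity)]
      have : (0 : ℝ) ≤ k := Nat.cast_nonneg k
      linarith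
    have h3 : (S k).coeff j = ((S k).coeff j - T.coeff j) + T.coeff j := by ring
    rw [h3]
    refine (norm_add_le _ _).trans ?_
    have := hKb j
    linarith
  obtain ⟨xs, -, φ, hφ, hlim⟩ := tendsto_subseq_of_bounded isBounded_ball hbdd
  have hcd : ∀ j, Continuous fun y : PE n => (fam a n y).coeff j := fun j =>
    (pfe_fam a n j).continuous
  have hxs : fam a n xs = T := by
    ext j
    have h1 : Tendsto (fun k => (fam a n (x (φ k))).coeff j) atTop (𝓝 ((fam a n xs).coeff j)) :=
      ((hcd j).tendsto xs).comp hlim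
    have h2 : Tendsto (fun k => (fam a n (x (φ k))).coeff j) atTop (𝓝 (T.coeff j)) := by
      simp only [hfam]
      exact (hcoef j).comp hφ.tendsto_atTop
    exact tendsto_nhds_unique h1 h2
  set ss : Fin n → ℂ := fun i => xs (some i) with hss
  have hslim : ∀ i, Tendsto (fun k => s (φ k) i) atTop (𝓝 (ss i)) := fun i =>
    ((continuous_apply (some i)).tendsto xs).comp hlim
  have hvlim : ∀ i, Tendsto (fun k => (S (φ k)).eval (s (φ k) i)) atTop (𝓝 (T.eval (ss i))) := by
    intro i
    have h1 : Continuous fun y : PE n => vl a n i y := (vl_cd a n i).continuous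
    have h2 := (h1.tendsto xs).comp hlim
    have h3 : vl a n i xs = T.eval (ss i) := by
      show (fam a n xs).eval (xs (some i)) = _
      rw [hxs]
    rw [h3] at h2
    refine h2.congr fun k => ?_
    show (fam a n (x (φ k))).eval (x (φ k) (some i)) = _
    rw [hfam]
    rfl
  -- the permutation
  obtain ⟨σ, hσ⟩ : ∃ σ : Equiv.Perm (Fin n), ∀ i, c (σ i) = ss i := by
    apply exists_perm
    have h1 : derivative T = C (a * ((n : ℂ) + 1)) * ∏ i, (X - C (ss i)) := by
      rw [← hxs, derivative_fam]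
      rfl
    have h2 := hT.2
    rw [h1, ← ha, mul_comm ((n : ℂ) + 1) a] at h2
    have h3 : C (a * ((n : ℂ) + 1)) ≠ 0 := by
      rw [Ne, C_eq_zero]
      exact mul_ne_zero ha0 (Nat.cast_add_one_ne_zero n)
    exact mul_left_cancel₀ h3 h2
  -- the patterns agree
  have hE : ∀ i j, ss i = ss j → c i = c j :=
    fun i j => rel_iff (E := fun i j => c i = c j) (E' := fun i j => ss i = ss j)
      (fun i j hij => by
        have h1 : Tendsto (fun k => s (φ k) i) atTop (𝓝 (ss j)) := by
          refine (hslim j).congr fun k => ?_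
          exact (hS6 (φ k) i j hij).symm
        exact tendsto_nhds_unique (hslim i) h1) σ (fun i j => by rw [hσ, hσ]) i j
  have hF : ∀ i j, T.eval (ss i) = T.eval (ss j) → T.eval (c i) = T.eval (c j) :=
    fun i j => rel_iff (E := fun i j => T.eval (c i) = T.eval (c j))
      (E' := fun i j => T.eval (ss i) = T.eval (ss j))
      (fun i j hij => by
        have h1 : Tendsto (fun k => (S (φ k)).eval (s (φ k) i)) atTop (𝓝 (T.eval (ss j))) := by
          refine (hvlim j).congr fun k => ?_
          exact (hS7 (φ k) i j hij).symm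
        exact tendsto_nhds_unique (hvlim i) h1) σ (fun i j => by rw [hσ, hσ]) i j
  -- a good index
  have hev1 : ∀ᶠ k in atTop, ∀ i j, ss i ≠ ss j → s (φ k) i ≠ s (φ k) j := by
    rw [Filter.eventually_all]
    intro i
    rw [Filter.eventually_all]
    intro j
    by_cases hij : ss i = ss j
    · exact Eventually.of_forall fun k hne => absurd hij hne
    · have h1 := ((hslim i).sub (hslim j)).eventually_ne (sub_ne_zero.2 hij)
      filter_upwards [h1] with k hk _
      exact sub_ne_zero.1 hk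
  have hev2 : ∀ᶠ k in atTop, ∀ i j, T.eval (ss i) ≠ T.eval (ss j) →
      (S (φ k)).eval (s (φ k) i) ≠ (S (φ k)).eval (s (φ k) j) := by
    rw [Filter.eventually_all]
    intro i
    rw [Filter.eventually_all]
    intro j
    by_cases hij : T.eval (ss i) = T.eval (ss j)
    · exact Eventually.of_forall fun k hne => absurd hij hne
    · have h1 := ((hvlim i).sub (hvlim j)).eventually_ne (sub_ne_zero.2 hij)
      filter_upwards [h1] with k hk _
      exact sub_ne_zero.1 hk
  have hev3 : ∀ᶠ k in atTop, ∀ i, ‖s (φ k) i - ss i‖ < ε := by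
    rw [Filter.eventually_all]
    intro i
    exact (tendsto_iff_norm_sub_tendsto_zero.1 (hslim i)).eventually (gt_mem_nhds hε)
  have hev4 : ∀ᶠ k in atTop, (1 : ℝ) / ((φ k : ℝ) + 1) < ε :=
    (hlim0.comp hφ.tendsto_atTop).eventually (gt_mem_nhds hε)
  obtain ⟨k, hk1, hk2, hk3, hk4⟩ := (hev1.and (hev2.and (hev3.and hev4))).exists
  have hinv : ∀ i, ss (σ.symm i) = c i := fun i => by rw [← hσ, Equiv.apply_symm_apply]
  refine ⟨S (φ k), fun i => s (φ k) (σ.symm i), ⟨(hS1 (φ k)).1, ?_⟩, hS2 _, hS3 _,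
    fun j => (hS4 (φ k) j).trans hk4, ?_, fun i => hS5 _ _, ?_, ?_⟩
  · rw [(hS1 (φ k)).2]
    congr 1
    exact (Equiv.prod_comp σ.symm (fun i => (X - C (s (φ k) i)))).symm
  · intro i
    have := hk3 (σ.symm i)
    rwa [hinv] at this
  · intro i j
    constructor
    · intro hij
      apply hS6
      apply hE
      rw [hinv, hinv, hij]
    · intro hij
      by_contra hne
      exact hk1 (σ.symm i) (σ.symm j) (by rwa [hinv, hinv]) hij
  · intro i j
    constructor
    · intro hij
      apply hS7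
      apply hF
      rw [hinv, hinv, hij]
    · intro hij
      by_contra hne
      exact hk2 (σ.symm i) (σ.symm j) (by rwa [hinv, hinv]) hij

end Pool.Agent.K4H48.ST
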