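import Mathlib
import Pool.Agent.K4H48.ST.APX
import Pool.Agent.K4H48.ST.Limit

/-!
The area-distance theorem in the strata, with the area of the Julia set.
-/

set_option autoImplicit false

open Topology Filter Metric Set Polynomial MeasureTheory
open Pool.Agent.H713R3.ZA Pool.Agent.H713R5.QJ Pool.Agent.K4H48.LF

namespace Pool.Agent.K4H48.ST

/-- the conclusion -/
def Cn {n : ℕ} (T : ℂ[X]) (c : Fin n → ℂ) (ε : ℝ) : Prop :=
  ∃ (S : ℂ[X]) (s : Fin n → ℂ), CL S s ∧ S.leadingCoeff = T.leadingCoeff ∧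
    S.coeff n = T.coeff n ∧
    (∀ j : ℕ, ‖S.coeff j - T.coeff j‖ < ε) ∧
    (∀ i, Good (ev S) (s i)) ∧ (∀ i j, c i = c j → s i = s j) ∧
    ∀ i j, T.eval (c i) = T.eval (c j) → S.eval (s i) = S.eval (s j)

theorem mainJ (n : ℕ) (A : ℝ) (hn : 1 ≤ n) (hA : 1 ≤ A) : ∃ C : ℝ, 0 < C ∧
    ∀ (T : ℂ[X]) (c : Fin n → ℂ), CL T c →
    (∀ j : ℕ, ‖T.coeff j‖ ≤ A) → 1 / A ≤ ‖T.leadingCoeff‖ →
    ∀ ε : ℝ, C * Real.sqrt (volume (JS T)).toReal < ε → Cn T c ε := by
  have hA0 : 0 < A := by linarith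
  obtain ⟨C, hC, hmain⟩ := mainS n (A + 1) hn (by linarith)
  refine ⟨C, hC, ?_⟩
  intro T c hTc hTA hTl ε hε
  have hT := hTc.1
  have ha : T.leadingCoeff ≠ 0 := by
    rw [← norm_pos_iff]
    exact lt_of_lt_of_le (by positivity) hTl
  have hfin := VFIN.js_fin T (by omega)
  obtain ⟨ar, har⟩ : ∃ ar : ℝ, ar = (volume (JS T)).toReal := ⟨_, rfl⟩
  have har0 : 0 ≤ ar := by rw [har]; exact ENNReal.toReal_nonneg
  have hvol : volume (JS T) = ENNReal.ofReal ar := by
    rw [har, ENNReal.ofReal_toReal hfin.ne]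
  rw [← har] at hε
  have hε0 : 0 < ε := lt_of_le_of_lt (by positivity) hε
  -- the small number
  obtain ⟨e, he0, he1, he⟩ : ∃ e : ℝ, 0 < e ∧ e ≤ 1 ∧ C * Real.sqrt (ar + e) + e < ε := by
    have hc : Continuous (fun e : ℝ => C * Real.sqrt (ar + e) + e) := by
      fun_prop
    have h1 : Tendsto (fun e : ℝ => C * Real.sqrt (ar + e) + e) (𝓝 0)
        (𝓝 (C * Real.sqrt ar)) := by
      have := hc.tendsto 0
      simpa using this
    have h2 := h1.eventually (gt_mem_nhds hε)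
    rw [Metric.eventually_nhds_iff] at h2
    obtain ⟨δ, hδ, h3⟩ := h2
    refine ⟨min (δ / 2) 1, lt_min (by linarith) one_pos, min_le_right _ _, h3 ?_⟩
    rw [dist_zero_right, Real.norm_eq_abs, abs_of_pos (lt_min (by linarith) one_pos)]
    exact (min_le_left _ _).trans_lt (by linarith)
  -- the first perturbation
  set a : ℂ := T.leadingCoeff with hadef
  set x₁ : PE n := fun k => k.elim (T.coeff 0) c with hx₁
  have hfam : fam a n x₁ = T := fam_of_CL hTc rfl
  obtain ⟨x, hx1, hx2, hx3⟩ := apxS ha hn x₁ e he0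
  rw [hfam] at hx2 hx3
  set U : ℂ[X] := fam a n x with hU
  have hUc : CL U (fun i => x (some i)) := CL_fam ha x
  have hUl : U.leadingCoeff = a := by
    rw [Polynomial.leadingCoeff, hUc.1, hU, coeff_fam_top]
  have hUA : ∀ j, ‖U.coeff j‖ ≤ A + 1 := by
    intro j
    have h1 := hx2 j
    have h2 := hTA j
    have h3 : U.coeff j = T.coeff j + (U.coeff j - T.coeff j) := by ring
    rw [h3]
    refine (norm_add_le _ _).trans ?_
    linarith
  have hUl2 : 1 / (A + 1) ≤ ‖U.leadingCoeff‖ := by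
    rw [hUl]
    refine le_trans ?_ hTl
    apply one_div_le_one_div_of_le hA0
    linarith
  have hBd : (volume (Bd U)).toReal ≤ ar + e := by
    have h1 : volume (Bd U) ≤ ENNReal.ofReal (ar + e) := by
      rw [ENNReal.ofReal_add har0 he0.le, ← hvol]
      exact hx3
    exact ENNReal.toReal_le_of_le_ofReal (by positivity) h1
  have hlt : C * Real.sqrt (volume (Bd U)).toReal < ε - e := by
    have h1 := Real.sqrt_le_sqrt hBd
    have h2 := mul_le_mul_of_nonneg_left h1 hC.le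
    linarith
  obtain ⟨S, s, k1, k2, k3, k4, k5, k6, k7⟩ := hmain U _ hUc hUA hUl2 (ε - e) hlt
  have hcn : U.coeff n = T.coeff n := by
    have h1 := hx1.ce
    unfold cf at h1
    rw [hfam] at h1
    exact h1
  refine ⟨S, s, k1, k2.trans hUl, k3.trans hcn, fun j => ?_, k5, fun i j hij => ?_,
    fun i j hij => ?_⟩
  · have h3 : S.coeff j - T.coeff j = (S.coeff j - U.coeff j) + (U.coeff j - T.coeff j) := by ring
    rw [h3]
    refine (norm_add_le _ _).trans_lt ?_
    have h1 := k4 j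
    have h2 := hx2 j
    linarith
  · exact k6 i j (hx1.cp i j hij)
  · refine k7 i j (hx1.cv i j ?_)
    show (fam a n x₁).eval (c i) = (fam a n x₁).eval (c j)
    rw [hfam]
    exact hij

end Pool.Agent.K4H48.ST
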